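import Mathlib

/-!
# EQ-Y2a: finite products of Gamma mixtures
-/

namespace Pool.Agent.helper31.EQ.Y

open Complex Set Metric Filter Topology ComplexConjugate MeasureTheory

private noncomputable def PosA_I (e : ℝ) (z : ℂ) : ℂ :=
  ∫ τ in Ioi (0 : ℝ), ((τ ^ (e - 1) : ℝ) : ℂ) * exp (-(τ * z))

private theorem PosA_diff {e : ℝ} (he : 0 < e) :
    DifferentiableOn ℂ (PosA_I e) {z : ℂ | 0 < z.re} := by
  intro z0 hz0
  have hz0' : 0 < z0.re := hz0
  set δ := z0.re / 2 with hδ
  have hδ0 : 0 < δ := by positivity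
  have hmeas : ∀ z : ℂ, AEStronglyMeasurable
      (fun τ : ℝ => ((τ ^ (e - 1) : ℝ) : ℂ) * exp (-(τ * z))) (volume.restrict (Ioi (0 : ℝ))) := by
    intro z
    refine Measurable.aestronglyMeasurable ?_
    fun_prop
  have hint : ∀ s : ℝ, -1 < s → ∀ b : ℝ, 0 < b →
      IntegrableOn (fun τ : ℝ => τ ^ s * Real.exp (-b * τ)) (Ioi 0) := by
    intro s hs b hb
    have h1 := integrableOn_rpow_mul_exp_neg_mul_rpow (p := 1) hs one_pos hb
    simpa only [Real.rpow_one] using h1
  have hderiv := hasDerivAt_integral_of_dominated_loc_of_deriv_le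
    (μ := volume.restrict (Ioi (0 : ℝ))) (𝕜 := ℂ)
    (F := fun (z : ℂ) (τ : ℝ) => ((τ ^ (e - 1) : ℝ) : ℂ) * exp (-(τ * z)))
    (F' := fun (z : ℂ) (τ : ℝ) => ((τ ^ (e - 1) : ℝ) : ℂ) * (exp (-(τ * z)) * (-τ)))
    (x₀ := z0) (s := ball z0 δ) (bound := fun τ : ℝ => τ ^ e * Real.exp (-δ * τ))
    (ball_mem_nhds z0 hδ0)
    (Eventually.of_forall hmeas) ?_ ?_ ?_ ?_ ?_
  · exact hderiv.2.differentiableAt.differentiableWithinAt
  · refine Integrable.mono' (hint (e - 1) (by linarith) z0.re hz0') (hmeas z0) ?_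
    refine (ae_restrict_iff' measurableSet_Ioi).2 (Eventually.of_forall fun τ hτ => ?_)
    rw [norm_mul, Complex.norm_real, Real.norm_of_nonneg (Real.rpow_nonneg (le_of_lt hτ) _),
      Complex.norm_exp]
    refine mul_le_mul_of_nonneg_left ?_ (Real.rpow_nonneg (le_of_lt hτ) _)
    refine Real.exp_le_exp.2 (le_of_eq ?_)
    simp
    ring
  · refine Measurable.aestronglyMeasurable ?_
    fun_prop
  · refine (ae_restrict_iff' measurableSet_Ioi).2 (Eventually.of_forall fun τ hτ z hz => ?_)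
    have hτ' : 0 < τ := hτ
    have hre : δ ≤ z.re := by
      have h1 : |(z - z0).re| ≤ ‖z - z0‖ := Complex.abs_re_le_norm _
      rw [mem_ball, dist_eq_norm] at hz
      have h2 := (abs_le.1 (h1.trans hz.le)).1
      rw [Complex.sub_re] at h2
      linarith
    rw [norm_mul, norm_mul, norm_neg, Complex.norm_real, Complex.norm_real,
      Real.norm_of_nonneg (Real.rpow_nonneg hτ'.le _), Real.norm_of_nonneg hτ'.le, Complex.norm_exp]
    have h3 : τ ^ e = τ ^ (e - 1) * τ := by
      rw [← Real.rpow_add_one hτ'.ne']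
      congr 1
      ring
    rw [h3]
    have h4 : Real.exp (-((τ : ℂ) * z)).re ≤ Real.exp (-δ * τ) := by
      refine Real.exp_le_exp.2 ?_
      have h5 : (-((τ : ℂ) * z)).re = -(τ * z.re) := by simp
      rw [h5]
      nlinarith
    have h6 := Real.rpow_nonneg hτ'.le (e - 1)
    calc τ ^ (e - 1) * (Real.exp (-((τ : ℂ) * z)).re * τ)
        = τ ^ (e - 1) * τ * Real.exp (-((τ : ℂ) * z)).re := by ring
      _ ≤ τ ^ (e - 1) * τ * Real.exp (-δ * τ) :=
          mul_le_mul_of_nonneg_left h4 (mul_nonneg h6 hτ'.le)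
  · exact hint e (by linarith) δ hδ0
  · refine Eventually.of_forall fun τ z _ => ?_
    have h1 : HasDerivAt (fun z : ℂ => -((τ : ℂ) * z)) (-(τ : ℂ)) z := by
      have h2 := ((hasDerivAt_id z).const_mul (-(τ : ℂ)))
      rw [mul_one] at h2
      refine h2.congr_of_eventuallyEq (Eventually.of_forall fun y => ?_)
      simp
    exact (h1.cexp).const_mul _

/-- Gamma mixture: for `0 < Re z`, `(1/Γ(e)) ∫_0^∞ τ^(e-1) exp(-τ z) dτ = z^(-e)`
(`Complex.integral_cpow_mul_exp_neg_mul_Ioi`). -/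
theorem gamma_mixture {e : ℝ} (he : 0 < e) {z : ℂ} (hz : 0 < z.re) :
    ∫ τ in Ioi (0 : ℝ), (τ ^ (e - 1) / Real.Gamma e : ℝ) * exp (-(τ * z)) = z ^ (-(e : ℂ)) := by
  have hG : (Real.Gamma e : ℂ) ≠ 0 := by
    exact_mod_cast (Real.Gamma_pos_of_pos he).ne'
  have hopen : IsOpen {z : ℂ | 0 < z.re} := isOpen_lt continuous_const Complex.continuous_re
  have hconv : Convex ℝ {z : ℂ | 0 < z.re} := convex_halfSpace_re_gt 0
  have hf := (PosA_diff he).analyticOnNhd hopen
  have hgd : DifferentiableOn ℂ (fun z : ℂ => (Real.Gamma e : ℂ) * z ^ (-(e : ℂ)))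
      {z : ℂ | 0 < z.re} := by
    intro w hw
    refine ((differentiableAt_const _).mul ?_).differentiableWithinAt
    exact differentiableAt_id.cpow (differentiableAt_const _)
      (Complex.mem_slitPlane_iff.2 (Or.inl hw))
  have hg := hgd.analyticOnNhd hopen
  have hreal : ∀ r : ℝ, 0 < r → PosA_I e (r : ℂ) = (Real.Gamma e : ℂ) * (r : ℂ) ^ (-(e : ℂ)) := by
    intro r hr
    have h1 := Complex.integral_cpow_mul_exp_neg_mul_Ioi (a := (e : ℂ)) (r := r)
      (by rw [Complex.ofReal_re]; exact he) hr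
    have harg : (r : ℂ).arg ≠ Real.pi := by
      rw [Complex.arg_ofReal_of_nonneg hr.le]
      exact Real.pi_pos.ne
    unfold PosA_I
    have h3 : ∫ τ in Ioi (0 : ℝ), ((τ ^ (e - 1) : ℝ) : ℂ) * exp (-(τ * (r : ℂ))) =
        ∫ τ in Ioi (0 : ℝ), (τ : ℂ) ^ ((e : ℂ) - 1) * exp (-((r : ℂ) * τ)) := by
      refine setIntegral_congr_fun measurableSet_Ioi fun τ hτ => ?_
      have h4 : ((τ ^ (e - 1) : ℝ) : ℂ) = (τ : ℂ) ^ ((e : ℂ) - 1) := by
        rw [Complex.ofReal_cpow (le_of_lt hτ)]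
        push_cast
        rfl
      rw [h4, mul_comm (τ : ℂ) (r : ℂ)]
    rw [h3, h1, Complex.Gamma_ofReal, one_div, Complex.inv_cpow _ _ harg, Complex.cpow_neg]
    ring
  have hfreq : ∃ᶠ z in 𝓝[≠] (1 : ℂ), PosA_I e z = (Real.Gamma e : ℂ) * z ^ (-(e : ℂ)) := by
    have ht : Tendsto (fun x : ℝ => (x : ℂ)) (𝓝[>] (1 : ℝ)) (𝓝[≠] (1 : ℂ)) := by
      refine tendsto_nhdsWithin_iff.2 ⟨?_, ?_⟩
      · have h1 : Tendsto (fun x : ℝ => (x : ℂ)) (𝓝 (1 : ℝ)) (𝓝 ((1 : ℝ) : ℂ)) :=
          Complex.continuous_ofReal.tendsto 1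
        rw [Complex.ofReal_one] at h1
        exact h1.mono_left nhdsWithin_le_nhds
      · filter_upwards [self_mem_nhdsWithin] with x hx
        simp only [mem_compl_iff, mem_singleton_iff]
        intro h
        have h2 : x = 1 := by exact_mod_cast h
        exact (ne_of_gt hx) h2
    refine ht.frequently (Eventually.frequently ?_)
    filter_upwards [self_mem_nhdsWithin] with x hx
    exact hreal x (lt_trans one_pos hx)
  have heq := hf.eqOn_of_preconnected_of_frequently_eq hg hconv.isPreconnected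
    (z₀ := 1) (by simp) hfreq hz
  have heq' : PosA_I e z = (Real.Gamma e : ℂ) * z ^ (-(e : ℂ)) := heq
  have h5 : ∫ τ in Ioi (0 : ℝ), ((τ ^ (e - 1) / Real.Gamma e : ℝ) : ℂ) * exp (-(τ * z)) =
      (Real.Gamma e : ℂ)⁻¹ * PosA_I e z := by
    unfold PosA_I
    rw [← integral_const_mul]
    refine setIntegral_congr_fun measurableSet_Ioi fun τ _ => ?_
    rw [Complex.ofReal_div]
    ring
  rw [h5, heq', inv_mul_cancel_left₀ hG]

/-- the factor `(1 + k/z)^(-e)` has norm at most one -/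
private theorem PosA_norm_le {e : ℝ} (he : 0 < e) {z : ℂ} (hz : 0 < z.re) (k : ℕ) :
    0 < (1 + (k : ℂ) / z).re ∧ ‖(1 + (k : ℂ) / z) ^ (-(e : ℂ))‖ ≤ 1 := by
  have h1 : 0 ≤ ((k : ℂ) / z).re := by
    rw [Complex.div_re]
    simp only [Complex.natCast_re, Complex.natCast_im, zero_mul, zero_div, add_zero]
    exact div_nonneg (mul_nonneg (Nat.cast_nonneg _) hz.le) (Complex.normSq_nonneg _)
  have h2 : 1 ≤ (1 + (k : ℂ) / z).re := by
    rw [Complex.add_re, Complex.one_re]
    linarith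
  refine ⟨by linarith, ?_⟩
  have h3 : 1 ≤ ‖1 + (k : ℂ) / z‖ := h2.trans (Complex.re_le_norm _)
  rw [← Complex.ofReal_neg, Complex.norm_cpow_real]
  exact Real.rpow_le_one_of_one_le_of_nonpos h3 (by linarith)

private theorem PosA_prod_norm {e : ℝ} (he : 0 < e) (w : List ℂ) (hw : ∀ z ∈ w, 0 < z.re) (k : ℕ) :
    ‖(w.map (fun z => (1 + (k : ℂ) / z) ^ (-(e : ℂ)))).prod‖ ≤ 1 := by
  induction w with
  | nil => simp
  | cons z w ih =>
    rw [List.map_cons, List.prod_cons, norm_mul]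
    have h1 := (PosA_norm_le he (hw z List.mem_cons_self) k).2
    have h2 := ih fun y hy => hw y (List.mem_cons_of_mem _ hy)
    exact mul_le_one₀ h1 (norm_nonneg _) h2

/-- **Finite products.**  For a list `w` of complex numbers with positive real parts and `‖u‖ < 1`,
`Re Σ_k u^k Π_j (1 + k/w_j)^(-e) > 1/2`.
Induction on the list, the statement for all `u` simultaneously.  Empty list: `1/(1-u)`.
Step: `(1 + k/w)^(-e) = (1/Γ(e)) ∫ τ^(e-1) e^(-τ) e^(-kτ/w) dτ` (`gamma_mixture` with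
`z = 1 + k/w`), so the sum for the longer list is
`(1/Γ(e)) ∫ τ^(e-1) e^(-τ) S(u e^(-τ/w)) dτ` (Fubini: `∫ Σ`, dominated by
`Σ ‖u‖^k τ^(e-1) e^(-τ)`, since `‖1 + k/w_j‖ ≥ 1`), `‖u e^(-τ/w)‖ < 1`, and
`(1/Γ(e)) ∫ τ^(e-1) e^(-τ) dτ = 1`. -/
theorem finite_product {e : ℝ} (he : 0 < e) (w : List ℂ) (hw : ∀ z ∈ w, 0 < z.re) {u : ℂ}
    (hu : ‖u‖ < 1) :
    1 / 2 < (∑' k : ℕ, u ^ k * (w.map (fun z => (1 + (k : ℂ) / z) ^ (-(e : ℂ)))).prod).re := by
  induction w generalizing u with
  | nil =>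
    simp only [List.map_nil, List.prod_nil, mul_one]
    rw [tsum_geometric_of_norm_lt_one hu]
    have h1 : (1 - u) ≠ 0 := by
      intro h
      have h2 : u = 1 := by linear_combination -h
      rw [h2, norm_one] at hu
      exact lt_irrefl _ hu
    have hN : 0 < Complex.normSq (1 - u) := Complex.normSq_pos.2 h1
    rw [Complex.inv_re, lt_div_iff₀ hN, Complex.normSq_apply]
    simp only [Complex.sub_re, Complex.one_re, Complex.sub_im, Complex.one_im, zero_sub]
    have h3 : u.re ^ 2 + u.im ^ 2 < 1 := by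
      have h4 : u.re ^ 2 + u.im ^ 2 = ‖u‖ ^ 2 := by
        rw [Complex.sq_norm, Complex.normSq_apply]
        ring
      rw [h4]
      nlinarith [norm_nonneg u]
    nlinarith
  | cons z0 w ih =>
    have hz0 : 0 < z0.re := hw z0 List.mem_cons_self
    have hw' : ∀ z ∈ w, 0 < z.re := fun y hy => hw y (List.mem_cons_of_mem _ hy)
    have ih' := fun {u : ℂ} (hu : ‖u‖ < 1) => ih hw' (u := u) hu
    set P : ℕ → ℂ := fun k => (w.map (fun z => (1 + (k : ℂ) / z) ^ (-(e : ℂ)))).prod with hP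
    have hPn : ∀ k, ‖P k‖ ≤ 1 := fun k => PosA_prod_norm he w hw' k
    have hGam := Real.Gamma_pos_of_pos he
    set g : ℝ → ℝ := fun τ => τ ^ (e - 1) / Real.Gamma e * Real.exp (-τ) with hg
    have hgpos : ∀ τ ∈ Ioi (0 : ℝ), 0 < g τ := fun τ hτ =>
      mul_pos (div_pos (Real.rpow_pos_of_pos hτ _) hGam) (Real.exp_pos _)
    have hgint : IntegrableOn g (Ioi 0) := by
      have h1 : IntegrableOn (fun τ => (Real.Gamma e)⁻¹ * (Real.exp (-τ) * τ ^ (e - 1))) (Ioi 0) :=
        (Real.GammaIntegral_convergent he).const_mul (Real.Gamma e)⁻¹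
      refine h1.congr_fun ?_ measurableSet_Ioi
      intro τ _
      simp only [hg]
      ring
    have hgone : ∫ τ in Ioi (0 : ℝ), g τ = 1 := by
      have h1 : ∫ τ in Ioi (0 : ℝ), g τ =
          ∫ τ in Ioi (0 : ℝ), (Real.Gamma e)⁻¹ * (Real.exp (-τ) * τ ^ (e - 1)) := by
        refine setIntegral_congr_fun measurableSet_Ioi fun τ _ => ?_
        simp only [hg]
        ring
      rw [h1, integral_const_mul, ← Real.Gamma_eq_integral he, inv_mul_cancel₀ hGam.ne']
    -- the contracted argument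
    set v : ℝ → ℂ := fun τ => u * exp (-(τ / z0)) with hv
    have hvn : ∀ τ ∈ Ioi (0 : ℝ), ‖v τ‖ ≤ ‖u‖ := by
      intro τ hτ
      simp only [hv]
      rw [norm_mul, Complex.norm_exp]
      have h1 : (-((τ : ℂ) / z0)).re ≤ 0 := by
        rw [Complex.neg_re, Complex.div_re]
        simp only [Complex.ofReal_re, Complex.ofReal_im, zero_mul, zero_div, add_zero]
        have h2 : 0 ≤ τ * z0.re / Complex.normSq z0 :=
          div_nonneg (mul_nonneg (le_of_lt hτ) hz0.le) (Complex.normSq_nonneg _)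
        linarith
      have h3 : Real.exp (-((τ : ℂ) / z0)).re ≤ 1 := Real.exp_le_one_iff.2 h1
      nlinarith [norm_nonneg u]
    have hvc : Continuous v := by
      simp only [hv]
      fun_prop
    set F : ℕ → ℝ → ℂ := fun k τ => (g τ : ℂ) * (v τ ^ k * P k) with hF
    have hterm : ∀ k : ℕ, u ^ k * (((z0 :: w).map
        (fun z => (1 + (k : ℂ) / z) ^ (-(e : ℂ)))).prod) = ∫ τ in Ioi (0 : ℝ), F k τ := by
      intro k
      rw [List.map_cons, List.prod_cons, ← gamma_mixture he (PosA_norm_le he hz0 k).1]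
      rw [show ∀ a b : ℂ, u ^ k * (a * b) = a * (u ^ k * b) from fun a b => by ring,
        ← integral_mul_const]
      refine setIntegral_congr_fun measurableSet_Ioi fun τ _ => ?_
      simp only [hF, hg, hv, hP]
      have h1 : exp (-((τ : ℂ) * (1 + (k : ℂ) / z0))) =
          exp (-(τ : ℂ)) * exp (-((τ : ℂ) / z0)) ^ k := by
        rw [← Complex.exp_nat_mul, ← Complex.exp_add]
        congr 1
        ring
      rw [h1, mul_pow, Complex.ofReal_mul, Complex.ofReal_exp, Complex.ofReal_neg]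
      ring
    have hFn : ∀ k, ∀ τ ∈ Ioi (0 : ℝ), ‖F k τ‖ ≤ g τ * ‖u‖ ^ k := by
      intro k τ hτ
      simp only [hF]
      rw [norm_mul, norm_mul, norm_pow, Complex.norm_real, Real.norm_of_nonneg (hgpos τ hτ).le]
      refine mul_le_mul_of_nonneg_left ?_ (hgpos τ hτ).le
      calc ‖v τ‖ ^ k * ‖P k‖ ≤ ‖u‖ ^ k * 1 :=
            mul_le_mul (pow_le_pow_left₀ (norm_nonneg _) (hvn τ hτ) k) (hPn k) (norm_nonneg _)
              (by positivity)
        _ = ‖u‖ ^ k := mul_one _
    have hgm : AEStronglyMeasurable (fun τ => (g τ : ℂ)) (volume.restrict (Ioi (0 : ℝ))) :=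
      (Complex.continuous_ofReal.comp_aestronglyMeasurable hgint.aestronglyMeasurable)
    have hFint : ∀ k, Integrable (F k) (volume.restrict (Ioi (0 : ℝ))) := by
      intro k
      refine Integrable.mono' (hgint.mul_const (‖u‖ ^ k)) ?_ ?_
      · exact hgm.mul ((hvc.pow k).mul continuous_const).aestronglyMeasurable
      · exact (ae_restrict_iff' measurableSet_Ioi).2 (Eventually.of_forall fun τ hτ => hFn k τ hτ)
    have hFsum : Summable fun k => ∫ τ in Ioi (0 : ℝ), ‖F k τ‖ := by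
      refine Summable.of_nonneg_of_le (fun k => integral_nonneg fun τ => norm_nonneg _) (fun k => ?_)
        (summable_geometric_of_lt_one (norm_nonneg u) hu)
      calc ∫ τ in Ioi (0 : ℝ), ‖F k τ‖ ≤ ∫ τ in Ioi (0 : ℝ), g τ * ‖u‖ ^ k := by
            refine setIntegral_mono_on (hFint k).norm (hgint.mul_const _) measurableSet_Ioi ?_
            exact hFn k
        _ = ‖u‖ ^ k := by rw [integral_mul_const, hgone, one_mul]
    have hsum := MeasureTheory.hasSum_integral_of_summable_integral_norm hFint hFsum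
    have htot : ∑' k : ℕ, u ^ k * (((z0 :: w).map
        (fun z => (1 + (k : ℂ) / z) ^ (-(e : ℂ)))).prod) =
        ∫ τ in Ioi (0 : ℝ), (g τ : ℂ) * ∑' k, v τ ^ k * P k := by
      rw [tsum_congr hterm, hsum.tsum_eq]
      refine integral_congr_ae (Eventually.of_forall fun τ => ?_)
      simp only [hF]
      rw [tsum_mul_left]
    rw [htot]
    set S : ℝ → ℂ := fun τ => ∑' k, v τ ^ k * P k with hS
    have hSc : ContinuousOn S (Ioi 0) := by
      refine continuousOn_tsum (u := fun k => ‖u‖ ^ k) (fun k => ?_)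
        (summable_geometric_of_lt_one (norm_nonneg u) hu) ?_
      · exact ((hvc.pow k).mul continuous_const).continuousOn
      · intro k τ hτ
        rw [norm_mul, norm_pow]
        calc ‖v τ‖ ^ k * ‖P k‖ ≤ ‖u‖ ^ k * 1 :=
              mul_le_mul (pow_le_pow_left₀ (norm_nonneg _) (hvn τ hτ) k) (hPn k) (norm_nonneg _)
                (by positivity)
          _ = ‖u‖ ^ k := mul_one _
    have hSn : ∀ τ ∈ Ioi (0 : ℝ), ‖S τ‖ ≤ (1 - ‖u‖)⁻¹ := by
      intro τ hτ
      rw [← tsum_geometric_of_lt_one (norm_nonneg u) hu]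
      refine tsum_of_norm_bounded (summable_geometric_of_lt_one (norm_nonneg u) hu).hasSum ?_
      intro k
      rw [norm_mul, norm_pow]
      calc ‖v τ‖ ^ k * ‖P k‖ ≤ ‖u‖ ^ k * 1 :=
            mul_le_mul (pow_le_pow_left₀ (norm_nonneg _) (hvn τ hτ) k) (hPn k) (norm_nonneg _)
              (by positivity)
        _ = ‖u‖ ^ k := mul_one _
    have hSm : AEStronglyMeasurable S (volume.restrict (Ioi (0 : ℝ))) :=
      hSc.aestronglyMeasurable measurableSet_Ioi
    have hgS : Integrable (fun τ => (g τ : ℂ) * S τ) (volume.restrict (Ioi (0 : ℝ))) := by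
      refine Integrable.mono' (hgint.mul_const ((1 - ‖u‖)⁻¹)) (hgm.mul hSm) ?_
      refine (ae_restrict_iff' measurableSet_Ioi).2 (Eventually.of_forall fun τ hτ => ?_)
      rw [norm_mul, Complex.norm_real, Real.norm_of_nonneg (hgpos τ hτ).le]
      exact mul_le_mul_of_nonneg_left (hSn τ hτ) (hgpos τ hτ).le
    have hre : (∫ τ in Ioi (0 : ℝ), (g τ : ℂ) * S τ).re =
        ∫ τ in Ioi (0 : ℝ), g τ * (S τ).re := by
      have h1 := integral_re hgS
      have h2 : (∫ τ in Ioi (0 : ℝ), (g τ : ℂ) * S τ).re =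
          ∫ τ in Ioi (0 : ℝ), ((g τ : ℂ) * S τ).re := h1.symm
      rw [h2]
      refine integral_congr_ae (Eventually.of_forall fun τ => ?_)
      simp
    rw [hre]
    have hSre : ∀ τ ∈ Ioi (0 : ℝ), 1 / 2 < (S τ).re := fun τ hτ =>
      ih' (lt_of_le_of_lt (hvn τ hτ) hu)
    have hreint : Integrable (fun τ => g τ * (S τ).re) (volume.restrict (Ioi (0 : ℝ))) := by
      refine hgS.re.congr (Eventually.of_forall fun τ => ?_)
      simp
    have hdiff : 0 < ∫ τ in Ioi (0 : ℝ), (g τ * (S τ).re - g τ * (1 / 2)) := by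
      rw [integral_pos_iff_support_of_nonneg_ae]
      · have hsub : Ioi (0 : ℝ) ⊆ Function.support (fun τ => g τ * (S τ).re - g τ * (1 / 2)) := by
          intro τ hτ
          have h1 := hSre τ hτ
          have h2 := hgpos τ hτ
          rw [Function.mem_support]
          have h3 : 0 < g τ * (S τ).re - g τ * (1 / 2) := by nlinarith
          exact h3.ne'
        refine lt_of_lt_of_le ?_ (measure_mono hsub)
        rw [Measure.restrict_apply measurableSet_Ioi, inter_self, Real.volume_Ioi]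
        exact ENNReal.zero_lt_top
      · refine (ae_restrict_iff' measurableSet_Ioi).2 (Eventually.of_forall fun τ hτ => ?_)
        have h1 := hSre τ hτ
        have h2 := hgpos τ hτ
        simp only [Pi.zero_apply]
        nlinarith
      · exact hreint.sub (hgint.mul_const _)
    rw [integral_sub hreint (hgint.mul_const _), integral_mul_const, hgone, one_mul] at hdiff
    linarith

end Pool.Agent.helper31.EQ.Y
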