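import Mathlib

/-!
# EQ-Y2b: Euler product for `cosh κ(ζ+k)/cosh κζ`
-/

namespace Pool.Agent.helper31.EQ.Y

open Complex Set Metric Filter Topology ComplexConjugate

/-- The list `wv 0, wv (±1), ..., wv (±N)`. -/
private noncomputable def eulL (wv : ℂ → ℂ) : ℕ → List ℂ
  | 0 => [wv 0]
  | (n + 1) => wv ((n : ℂ) + 1) :: wv (-((n : ℂ) + 1)) :: eulL wv n

private theorem eulL_mem (wv : ℂ → ℂ) (P : ℂ → Prop) (h : ∀ t : ℝ, P (wv t)) :
    ∀ N, ∀ z ∈ eulL wv N, P z := by
  intro N
  induction N with
  | zero =>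
    intro z hz
    simp only [eulL, List.mem_singleton] at hz
    subst hz
    simpa using h 0
  | succ n ih =>
    intro z hz
    simp only [eulL, List.mem_cons] at hz
    rcases hz with hz | hz | hz
    · subst hz
      simpa using h ((n : ℝ) + 1)
    · subst hz
      simpa using h (-((n : ℝ) + 1))
    · exact ih z hz

/-- The product of the factors `1 + y/w` in terms of the sine products. -/
private theorem eulL_prod {z0 u c : ℂ} (hz0 : ∀ t : ℝ, z0 + t ≠ 0) (N : ℕ) :
    ((eulL (fun t => (z0 + t) / c) N).map (fun z => 1 + u / z)).prod =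
      (z0 + c * u) / z0 * ((∏ i ∈ Finset.range N, (1 + sineTerm (z0 + c * u) i)) *
        (∏ i ∈ Finset.range N, (1 + sineTerm z0 i))⁻¹) := by
  have key : ∀ t : ℝ, (1 + u / ((z0 + t) / c)) = (z0 + c * u + t) / (z0 + t) := by
    intro t
    have := hz0 t
    field_simp
    ring
  induction N with
  | zero =>
    have := key 0
    have h0 := hz0 0
    simp only [ofReal_zero, add_zero] at this h0
    simp only [eulL, List.map_cons, List.map_nil, List.prod_cons, List.prod_nil, mul_one,
      Finset.range_zero, Finset.prod_empty, inv_one, add_zero]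
    rw [this]
  | succ n ih =>
    have k1 := key ((n : ℝ) + 1)
    have k2 := key (-((n : ℝ) + 1))
    have h1 := hz0 ((n : ℝ) + 1)
    have h2 := hz0 (-((n : ℝ) + 1))
    have h0 := hz0 0
    push_cast at k1 k2 h1 h2
    simp only [ofReal_zero, add_zero] at h0
    simp only [eulL, List.map_cons, List.prod_cons]
    rw [ih, k1, k2, Finset.prod_range_succ, Finset.prod_range_succ]
    have hn : (n : ℂ) + 1 ≠ 0 := Nat.cast_add_one_ne_zero n
    have e1 : 1 + sineTerm z0 n = -((z0 + ((n : ℂ) + 1)) * (z0 + -((n : ℂ) + 1))) /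
        ((n : ℂ) + 1) ^ 2 := by
      unfold sineTerm
      field_simp
      ring
    have e2 : 1 + sineTerm (z0 + c * u) n =
        -((z0 + c * u + ((n : ℂ) + 1)) * (z0 + c * u + -((n : ℂ) + 1))) /
        ((n : ℂ) + 1) ^ 2 := by
      unfold sineTerm
      field_simp
      ring
    rw [e1, e2]
    generalize (∏ i ∈ Finset.range n, (1 + sineTerm z0 i)) = A
    generalize (∏ i ∈ Finset.range n, (1 + sineTerm (z0 + c * u) i)) = B
    generalize z0 + c * u = Z
    rw [mul_inv A]
    rw [inv_div]
    field_simp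

private theorem exp_logsum (l : List ℂ) (h : ∀ z ∈ l, z ≠ 0) :
    exp ((l.map log).sum) = l.prod := by
  induction l with
  | nil => simp
  | cons a l ih =>
    rw [List.map_cons, List.sum_cons, exp_add, List.prod_cons,
      exp_log (h a (by simp)), ih (fun z hz => h z (by simp [hz]))]

private theorem prod_cpow (l : List ℂ) (h : ∀ z ∈ l, z ≠ 0) (s : ℂ) :
    (l.map (fun z => z ^ s)).prod = exp (s * (l.map log).sum) := by
  induction l with
  | nil => simp
  | cons a l ih =>
    rw [List.map_cons, List.prod_cons, ih (fun z hz => h z (by simp [hz])), List.map_cons,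
      List.sum_cons, mul_add, exp_add, cpow_def_of_ne_zero (h a (by simp)), mul_comm (log a)]

/-- A continuous logarithm of a function in the slit plane which is right at one point. -/
private theorem log_unique {a b : ℝ} (hab : a ≤ b) {R L : ℝ → ℂ}
    (hL : ContinuousOn L (Icc a b)) (hR : ContinuousOn R (Icc a b))
    (hRs : ∀ y ∈ Icc a b, R y ∈ slitPlane) (hexp : ∀ y ∈ Icc a b, exp (L y) = R y)
    (ha : L a = log (R a)) : L b = log (R b) := by
  have hD : IsDiscrete (range (fun n : ℤ => (n : ℝ))) := by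
    rw [isDiscrete_iff_discreteTopology]
    exact Int.isClosedEmbedding_coe_real.isEmbedding.toHomeomorph.symm.isEmbedding.discreteTopology
  have hc : ContinuousOn (fun y => ((L y - log (R y)) / (2 * Real.pi * I)).re) (Icc a b) := by
    apply continuous_re.comp_continuousOn
    apply ContinuousOn.div_const
    exact hL.sub (hR.clog hRs)
  have hm : ∀ y ∈ Icc a b, ∃ n : ℤ, L y - log (R y) = n * (2 * Real.pi * I) := by
    intro y hy
    rw [← exp_eq_one_iff, exp_sub, hexp y hy, exp_log (slitPlane_ne_zero (hRs y hy)), div_self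
      (slitPlane_ne_zero (hRs y hy))]
  have hpi : (2 * (Real.pi : ℂ) * I) ≠ 0 := by
    simp [Real.pi_ne_zero]
  have hM : MapsTo (fun y => ((L y - log (R y)) / (2 * Real.pi * I)).re) (Icc a b)
      (range (fun n : ℤ => (n : ℝ))) := by
    intro y hy
    obtain ⟨n, hn⟩ := hm y hy
    refine ⟨n, ?_⟩
    simp only [hn]
    rw [mul_div_assoc, div_self hpi]
    simp
  have h := isPreconnected_Icc.constant_of_mapsTo hD hc hM (left_mem_Icc.2 hab)
    (right_mem_Icc.2 hab)
  obtain ⟨n, hn⟩ := hm b (right_mem_Icc.2 hab)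
  simp only [ha, sub_self, zero_div, zero_re, hn] at h
  rw [mul_div_assoc, div_self hpi] at h
  simp only [mul_one, intCast_re] at h
  have : n = 0 := by exact_mod_cast h.symm
  rw [this] at hn
  simp only [Int.cast_zero, zero_mul] at hn
  exact sub_eq_zero.1 hn

/-- **Euler product.**  Let `Re ζ > 0`, `z₀ = 1/2 + iκζ/π`, so `Im z₀ = κ Re ζ/π > 0` and
`cosh κζ = sin (π z₀)`, `cosh κ(ζ+y) = sin (π (z₀ + iκy/π))`.  By Euler's product for the sine,
`cosh κ(ζ+y)/cosh κζ = lim_N Π_{|j| ≤ N} (1 + y/w_j)`,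
`w_j = π (z₀ + j)/(iκ)` for `-N ≤ j ≤ N`
(`1 + y/w_j = (z₀ + j + iκy/π)/(z₀ + j)`, the factors `j` and `-j` combine to
`(1 - z²/j²)` quotients), all with `Re w_j = Re ζ > 0`; the convergence is uniform for
`y ∈ [0, k]` (Mathlib has the Euler product uniformly on compact sets, file
`Mathlib/Analysis/SpecialFunctions/Trigonometric/Cotangent.lean`).  The limit
`cosh κy + T sinh κy` has positive real part (`≥ 1`) for all `y ≥ 0`, so for `N` large the finite
products `R_N(y)` have positive real part for all `y ∈ [0,k]`; the continuous function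
`Σ_j log(1 + y/w_j)` (principal, `Re (1+y/w_j) ≥ 1`) is a logarithm of `R_N(y)` which vanishes at
`y = 0`, so it is the principal one, and
`Π_j (1 + k/w_j)^(-e) = R_N(k)^(-e) → (cosh κk + T sinh κk)^(-e)` (principal). -/
theorem euler_limit {e κ : ℝ} (he : 0 < e) (hκ : 0 < κ) {ζ : ℂ} (h0 : 0 < ζ.re) :
    ∃ w : ℕ → List ℂ, (∀ N, ∀ z ∈ w N, 0 < z.re) ∧ ∀ k : ℕ,
      Tendsto (fun N => ((w N).map (fun z => (1 + (k : ℂ) / z) ^ (-(e : ℂ)))).prod) atTop
        (𝓝 (((Real.cosh (κ * k) : ℂ) + tanh (κ * ζ) * (Real.sinh (κ * k) : ℂ)) ^ (-(e : ℂ)))) := by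
  have hpi : (Real.pi : ℂ) ≠ 0 := by exact_mod_cast Real.pi_ne_zero
  have hκc : (κ : ℂ) ≠ 0 := by exact_mod_cast hκ.ne'
  set z0 : ℂ := 1 / 2 + I * κ * ζ / Real.pi with hz0
  set c : ℂ := I * κ / Real.pi with hc
  have hcne : c ≠ 0 := by
    rw [hc]
    exact div_ne_zero (mul_ne_zero I_ne_zero hκc) hpi
  have hcim : ∀ y : ℝ, (c * y).im = κ * y / Real.pi := by
    intro y
    rw [hc]
    simp [div_eq_mul_inv, ← ofReal_inv]
    ring
  have hz0im : z0.im = κ * ζ.re / Real.pi := by
    rw [hz0]
    simp [div_eq_mul_inv, ← ofReal_inv]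
  have hz0pos : 0 < z0.im := by
    rw [hz0im]
    exact div_pos (mul_pos hκ h0) Real.pi_pos
  have hz0t : ∀ t : ℝ, z0 + t ≠ 0 := by
    intro t h
    have := congrArg Complex.im h
    simp at this
    linarith
  have hwre : ∀ t : ℝ, 0 < ((z0 + t) / c).re := by
    intro t
    have : (z0 + t) / c = ζ - I * ((1 / 2 + t) * Real.pi / κ : ℝ) := by
      rw [hz0, hc]
      push_cast
      field_simp
      ring_nf
      rw [I_sq]
      ring
    rw [this]
    simpa using h0
  refine ⟨fun N => eulL (fun t => (z0 + t) / c) N, fun N => ?_, fun k => ?_⟩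
  · exact eulL_mem _ (fun z => 0 < z.re) hwre N
  set wv : ℂ → ℂ := fun t => (z0 + t) / c with hwv
  have hmem : ∀ N, ∀ z ∈ eulL wv N, 0 < z.re := fun N => eulL_mem _ (fun z => 0 < z.re) hwre N
  have hk : (0 : ℝ) ≤ k := Nat.cast_nonneg k
  -- the limit function
  set V : ℝ → ℂ := fun y => (Real.cosh (κ * y) : ℂ) + tanh (κ * ζ) * (Real.sinh (κ * y) : ℂ) with hV
  have hcoshne : cosh (κ * ζ) ≠ 0 := by
    have h1 : sin (Real.pi * z0) = cosh (κ * ζ) := by
      rw [hz0]
      have : (Real.pi : ℂ) * (1 / 2 + I * κ * ζ / Real.pi) = κ * ζ * I + Real.pi / 2 := by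
        field_simp
        ring
      rw [this, sin_add_pi_div_two, cos_mul_I]
    rw [← h1]
    apply sin_pi_mul_ne_zero
    intro ⟨n, hn⟩
    rw [← hn] at hz0pos
    simp at hz0pos
  have hVsin : ∀ y : ℝ, sin (Real.pi * (z0 + c * y)) / sin (Real.pi * z0) = V y := by
    intro y
    have h1 : sin (Real.pi * z0) = cosh (κ * ζ) := by
      rw [hz0]
      have : (Real.pi : ℂ) * (1 / 2 + I * κ * ζ / Real.pi) = κ * ζ * I + Real.pi / 2 := by
        field_simp
        ring
      rw [this, sin_add_pi_div_two, cos_mul_I]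
    have h2 : sin (Real.pi * (z0 + c * y)) = cosh (κ * ζ + κ * y) := by
      rw [hz0, hc]
      have : (Real.pi : ℂ) * (1 / 2 + I * κ * ζ / Real.pi + I * κ / Real.pi * y) =
          (κ * ζ + κ * y) * I + Real.pi / 2 := by
        field_simp
        ring
      rw [this, sin_add_pi_div_two, cos_mul_I]
    rw [h1, h2, cosh_add, hV, tanh_eq_sinh_div_cosh]
    push_cast
    field_simp
  have hTre : 0 ≤ (tanh (κ * ζ)).re := by
    have hw : ((κ : ℂ) * ζ) = ((κ * ζ.re : ℝ) : ℂ) + ((κ * ζ.im : ℝ) : ℂ) * I := by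
      apply Complex.ext <;> simp
    have hx : 0 ≤ κ * ζ.re := (mul_pos hκ h0).le
    rw [hw, tanh_eq_sinh_div_cosh]
    generalize κ * ζ.re = x at hx
    generalize κ * ζ.im = y
    rw [sinh_add, cosh_add, sinh_mul_I, cosh_mul_I, div_re, ← ofReal_sinh, ← ofReal_cosh,
      ← ofReal_sin, ← ofReal_cos]
    rw [← add_div]
    apply div_nonneg _ (normSq_nonneg _)
    simp only [add_re, mul_re, ofReal_re, ofReal_im, I_re, I_im, add_im, mul_im]
    have h1 : 0 ≤ Real.sinh x := Real.sinh_nonneg_iff.2 hx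
    have h2 : 0 < Real.cosh x := Real.cosh_pos x
    have h3 := Real.sin_sq_add_cos_sq y
    have h4 : 0 ≤ Real.sinh x * Real.cosh x := mul_nonneg h1 h2.le
    nlinarith [mul_nonneg h4 (sq_nonneg (Real.sin y)), mul_nonneg h4 (sq_nonneg (Real.cos y))]
  have hVre : ∀ y : ℝ, 0 ≤ y → 1 ≤ (V y).re := by
    intro y hy
    have h1 : (V y).re = Real.cosh (κ * y) + (tanh (κ * ζ)).re * Real.sinh (κ * y) := by
      simp only [hV, add_re, ofReal_re, mul_re, ofReal_im, mul_zero, sub_zero]
    rw [h1]
    have h2 := Real.one_le_cosh (κ * y)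
    have h3 : 0 ≤ Real.sinh (κ * y) := Real.sinh_nonneg_iff.2 (mul_nonneg hκ.le hy)
    nlinarith [mul_nonneg hTre h3]
  -- uniform convergence
  have hunif : TendstoLocallyUniformlyOn
      (fun N (y : ℝ) => ((eulL wv N).map (fun z => 1 + (y : ℂ) / z)).prod) V atTop
      (Icc (0 : ℝ) k) := by
    have hcont : Continuous (fun y : ℝ => z0 + c * y) := by fun_prop
    have hcompl : ∀ y : ℝ, 0 ≤ y → z0 + c * y ∈ integerComplement := by
      intro y hy ⟨n, hn⟩
      have h1 := congrArg Complex.im hn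
      rw [add_im, hcim y] at h1
      have h2 : 0 ≤ κ * y / Real.pi := div_nonneg (mul_nonneg hκ.le hy) Real.pi_pos.le
      simp at h1
      linarith
    have hz0c : z0 ∈ integerComplement := by simpa using hcompl 0 le_rfl
    have hK : IsCompact ((fun y : ℝ => z0 + c * y) '' Icc (0 : ℝ) k) :=
      isCompact_Icc.image hcont
    have hsub : ((fun y : ℝ => z0 + c * y) '' Icc (0 : ℝ) k) ⊆ integerComplement := by
      rintro _ ⟨y, hy, rfl⟩
      exact hcompl y hy.1
    have h1 := (HasProdUniformlyOn_sineTerm_prod_on_compact hsub hK).tendstoUniformlyOn_finsetRange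
    have h2 : TendstoUniformlyOn
        (fun N (y : ℝ) => ∏ i ∈ Finset.range N, (1 + sineTerm (z0 + c * y) i))
        (fun y : ℝ => sin (Real.pi * (z0 + c * y)) / (Real.pi * (z0 + c * y))) atTop
        (Icc (0 : ℝ) k) := by
      have h3 := h1.comp (fun y : ℝ => z0 + c * y)
      refine h3.mono ?_
      intro y hy
      exact ⟨y, hy, rfl⟩
    have hsinc : ContinuousOn
        (fun y : ℝ => sin (Real.pi * (z0 + c * y)) / (Real.pi * (z0 + c * y)))
        (Icc (0 : ℝ) k) := by
      apply ContinuousOn.div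
      · exact (Continuous.continuousOn (by fun_prop))
      · exact (Continuous.continuousOn (by fun_prop))
      · intro y hy
        exact mul_ne_zero hpi (integerComplement.ne_zero (hcompl y hy.1))
    have hsin0 : sin (Real.pi * z0) / (Real.pi * z0) ≠ 0 :=
      div_ne_zero (sin_pi_mul_ne_zero hz0c)
        (mul_ne_zero hpi (integerComplement.ne_zero hz0c))
    have h4 : Tendsto (fun N => (∏ i ∈ Finset.range N, (1 + sineTerm z0 i))⁻¹) atTop
        (𝓝 (sin (Real.pi * z0) / (Real.pi * z0))⁻¹) :=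
      (tendsto_euler_sin_prod' (integerComplement.ne_zero hz0c)).inv₀ hsin0
    have h5 : TendstoLocallyUniformlyOn
        (fun N (_ : ℝ) => (∏ i ∈ Finset.range N, (1 + sineTerm z0 i))⁻¹)
        (fun _ : ℝ => (sin (Real.pi * z0) / (Real.pi * z0))⁻¹) atTop (Icc (0 : ℝ) k) := by
      apply TendstoUniformlyOn.tendstoLocallyUniformlyOn
      exact h4.tendstoUniformlyOn_const _
    have h6 := h2.tendstoLocallyUniformlyOn.mul₀ h5 hsinc continuousOn_const
    have h7 : TendstoLocallyUniformlyOn
        (fun (_ : ℕ) (y : ℝ) => (z0 + c * y) / z0)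
        (fun y : ℝ => (z0 + c * y) / z0) atTop (Icc (0 : ℝ) k) := by
      apply TendstoUniformlyOn.tendstoLocallyUniformlyOn
      rw [Metric.tendstoUniformlyOn_iff]
      intro ε hε
      filter_upwards with N y _
      simpa using hε
    have h8 := h7.mul₀ h6 (by
      apply Continuous.continuousOn
      exact hcont.div_const z0) (hsinc.mul continuousOn_const)
    refine (h8.congr ?_).congr_right ?_
    · intro N y _
      simp only [Pi.mul_apply]
      exact (eulL_prod hz0t N).symm
    · intro y hy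
      simp only [Pi.mul_apply]
      rw [← hVsin y]
      have hz1 : z0 ≠ 0 := integerComplement.ne_zero hz0c
      have hz2 : z0 + c * y ≠ 0 := integerComplement.ne_zero (hcompl y hy.1)
      have hs0 : sin (Real.pi * z0) ≠ 0 := sin_pi_mul_ne_zero hz0c
      generalize sin (Real.pi * (z0 + c * y)) = A
      generalize sin (Real.pi * z0) = B at hs0
      field_simp
  have hunif' : TendstoUniformlyOn
      (fun N (y : ℝ) => ((eulL wv N).map (fun z => 1 + (y : ℂ) / z)).prod) V atTop
      (Icc (0 : ℝ) k) :=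
    (tendstoLocallyUniformlyOn_iff_tendstoUniformlyOn_of_compact isCompact_Icc).1 hunif
  have hev : ∀ᶠ N in atTop, ∀ y ∈ Icc (0 : ℝ) k,
      0 < (((eulL wv N).map (fun z => 1 + (y : ℂ) / z)).prod).re := by
    have := Metric.tendstoUniformlyOn_iff.1 hunif' 1 one_pos
    filter_upwards [this] with N hN y hy
    have h1 := hN y hy
    rw [dist_eq_norm] at h1
    have h2 := (abs_re_le_norm _).trans_lt h1
    have h3 := hVre y hy.1
    rw [sub_re, abs_lt] at h2
    linarith [h2.2]
  have hfac : ∀ N, ∀ y : ℝ, 0 ≤ y → ∀ z ∈ eulL wv N, 0 < (1 + (y : ℂ) / z).re := by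
    intro N y hy z hz
    have h1 := hmem N z hz
    have h2 : ((y : ℂ) / z).re = y * (z.re / normSq z) := by
      rw [div_eq_mul_inv, re_ofReal_mul, inv_re]
    rw [add_re, one_re, h2]
    have h3 : 0 ≤ z.re / normSq z := div_nonneg h1.le (normSq_nonneg z)
    nlinarith [mul_nonneg hy h3]
  have hR : ∀ N, ContinuousOn
      (fun y : ℝ => ((eulL wv N).map (fun z => 1 + (y : ℂ) / z)).prod) (Icc (0 : ℝ) k) := by
    intro N
    apply Continuous.continuousOn
    apply continuous_list_prod
    intro z _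
    exact continuous_const.add (continuous_ofReal.div_const z)
  have hLc : ∀ N, ContinuousOn
      (fun y : ℝ => ((eulL wv N).map (fun z => log (1 + (y : ℂ) / z))).sum) (Icc (0 : ℝ) k) := by
    intro N
    apply continuousOn_list_sum
    intro z hz
    apply ContinuousOn.clog
    · exact (continuous_const.add (continuous_ofReal.div_const z)).continuousOn
    · intro y hy
      exact Or.inl (hfac N y hy.1 z hz)
  have hlog : ∀ᶠ N in atTop, ((eulL wv N).map (fun z => log (1 + ((k : ℝ) : ℂ) / z))).sum =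
      log (((eulL wv N).map (fun z => 1 + ((k : ℝ) : ℂ) / z)).prod) := by
    filter_upwards [hev] with N hN
    apply log_unique hk (hLc N) (hR N) (fun y hy => Or.inl (hN y hy))
    · intro y hy
      have := exp_logsum ((eulL wv N).map (fun z => 1 + (y : ℂ) / z)) (by
        intro x hx
        rw [List.mem_map] at hx
        obtain ⟨z, hz, rfl⟩ := hx
        intro h
        have h1 := hfac N y hy.1 z hz
        rw [h] at h1
        simp at h1)
      rw [List.map_map] at this
      exact this
    · simp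
  have hprod : ∀ᶠ N in atTop,
      (((eulL wv N).map (fun z => 1 + ((k : ℝ) : ℂ) / z)).prod) ^ (-(e : ℂ)) =
      ((eulL wv N).map (fun z => (1 + (k : ℂ) / z) ^ (-(e : ℂ)))).prod := by
    filter_upwards [hlog, hev] with N hN hN2
    have h1 := prod_cpow ((eulL wv N).map (fun z => 1 + ((k : ℝ) : ℂ) / z)) (by
        intro x hx
        rw [List.mem_map] at hx
        obtain ⟨z, hz, rfl⟩ := hx
        intro h
        have h1 := hfac N k hk z hz
        rw [h] at h1
        simp at h1) (-(e : ℂ))
    rw [List.map_map, List.map_map] at h1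
    have h2 := hN2 k ⟨hk, le_refl _⟩
    have h3 : (((eulL wv N).map (fun z => 1 + ((k : ℝ) : ℂ) / z)).prod) ≠ 0 := by
      intro h
      rw [h] at h2
      simp at h2
    rw [cpow_def_of_ne_zero h3, ← hN, mul_comm]
    exact h1.symm
  have hlim : Tendsto (fun N => ((eulL wv N).map (fun z => 1 + ((k : ℝ) : ℂ) / z)).prod) atTop
      (𝓝 (V k)) := hunif'.tendsto_at ⟨hk, le_refl _⟩
  have hVk : V k ∈ slitPlane := Or.inl (by linarith [hVre k hk])
  have := (continuousAt_cpow_const (b := -(e : ℂ)) hVk).tendsto.comp hlim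
  refine (this.congr' ?_)
  filter_upwards [hprod] with N hN
  exact hN

end Pool.Agent.helper31.EQ.Y
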