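import Pool.Agent.helper31.EQ.Y.Rigid
import Pool.Agent.helper31.EQ.Y.PosA
import Pool.Agent.helper31.EQ.Y.PosB

/-!
# EQ-Y2c: Lemma A, `Re f > 1/2` for `Re ζ > 0` (every height)
-/

namespace Pool.Agent.helper31.EQ.Y

open Complex Set Metric Filter Topology ComplexConjugate

private theorem pk_factor {e : ℝ} (he : 0 < e) {z : ℂ} (hz : 0 < z.re) (k : ℕ) :
    ‖(1 + (k : ℂ) / z) ^ (-(e : ℂ))‖ ≤ 1 := by
  have hre : 1 ≤ (1 + (k : ℂ) / z).re := by
    rw [Complex.add_re, Complex.one_re, Complex.div_re]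
    have h1 : 0 ≤ ((k : ℂ)).re * z.re / Complex.normSq z := by
      rw [Complex.natCast_re]
      exact div_nonneg (mul_nonneg (Nat.cast_nonneg k) hz.le) (Complex.normSq_nonneg z)
    have h2 : ((k : ℂ)).im * z.im / Complex.normSq z = 0 := by
      rw [Complex.natCast_im]; simp
    linarith
  have hn : 1 ≤ ‖1 + (k : ℂ) / z‖ := le_trans hre (Complex.re_le_norm _)
  have hne : (1 + (k : ℂ) / z) ≠ 0 := by
    intro h
    rw [h, norm_zero] at hn
    linarith
  rw [Complex.norm_cpow_of_ne_zero hne]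
  simp only [Complex.neg_im, Complex.ofReal_im, neg_zero, mul_zero, Real.exp_zero, div_one,
    Complex.neg_re, Complex.ofReal_re]
  exact Real.rpow_le_one_of_one_le_of_nonpos hn (by linarith)

private theorem pk_prod {e : ℝ} (he : 0 < e) (k : ℕ) : ∀ (w : List ℂ), (∀ z ∈ w, 0 < z.re) →
    ‖(w.map (fun z => (1 + (k : ℂ) / z) ^ (-(e : ℂ)))).prod‖ ≤ 1 := by
  intro w
  induction w with
  | nil => intro _; simp
  | cons a l ih =>
    intro h
    rw [List.map_cons, List.prod_cons, norm_mul]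
    have h1 := pk_factor he (h a (by simp)) k
    have h2 := ih (fun z hz => h z (by simp [hz]))
    have h3 := norm_nonneg ((1 + (k : ℂ) / a) ^ (-(e : ℂ)))
    have h4 := norm_nonneg (l.map (fun z => (1 + (k : ℂ) / z) ^ (-(e : ℂ)))).prod
    nlinarith

/-- Limit `N → ∞` (dominated convergence for series, `‖1 + k/w‖ ≥ 1`): for `‖u‖ < 1`,
`Re Σ u^k φ(k) ≥ 1/2`, and then `u → -1` (the series converges absolutely and uniformly for
`‖u‖ ≤ 1` by `norm_term_le`). -/
theorem half_le_re_f {e κ : ℝ} (he : 0 < e) (hκ : 0 < κ) {ζ : ℂ} (h0 : 0 < ζ.re) :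
    1 / 2 ≤ (f e κ ζ).re := by
  obtain ⟨w, hw, hlim⟩ := euler_limit he hκ h0
  set φ : ℕ → ℂ := fun k => ((Real.cosh (κ * k) : ℂ) + tanh (κ * ζ) * (Real.sinh (κ * k) : ℂ)) ^
    (-(e : ℂ)) with hφ
  have step1 : ∀ u : ℂ, ‖u‖ < 1 → 1 / 2 ≤ (∑' k : ℕ, u ^ k * φ k).re := by
    intro u hu
    have ht : Tendsto (fun N => ∑' k : ℕ, u ^ k *
        ((w N).map (fun z => (1 + (k : ℂ) / z) ^ (-(e : ℂ)))).prod) atTop
        (𝓝 (∑' k : ℕ, u ^ k * φ k)) := by
      apply tendsto_tsum_of_dominated_convergence (bound := fun k : ℕ => ‖u‖ ^ k)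
      · exact summable_geometric_of_lt_one (norm_nonneg _) hu
      · intro k
        exact (hlim k).const_mul _
      · apply Filter.Eventually.of_forall
        intro N k
        rw [norm_mul, norm_pow]
        have h1 := pk_prod he k (w N) (hw N)
        have h2 : 0 ≤ ‖u‖ ^ k := by positivity
        nlinarith
    have ht2 := (Complex.continuous_re.tendsto _).comp ht
    apply ge_of_tendsto' ht2
    intro N
    exact (finite_product he (w N) (hw N) hu).le
  have hT : 0 ≤ (tanh (κ * ζ)).re := (re_tanh_pos hκ h0).le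
  have hb : ∀ k : ℕ, ‖φ k‖ ≤ Real.cosh (κ * k) ^ (-e) := by
    intro k
    have h1 := norm_term_le he hκ hT k
    rw [norm_mul, norm_pow, norm_neg, norm_one, one_pow, one_mul] at h1
    exact h1
  -- `u → -1` along `u = -t`, `t → 1-`
  have ht3 : Tendsto (fun t : ℝ => ∑' k : ℕ, (-(t : ℂ)) ^ k * φ k) (𝓝[<] 1)
      (𝓝 (∑' k : ℕ, (-1 : ℂ) ^ k * φ k)) := by
    apply tendsto_tsum_of_dominated_convergence (bound := fun k : ℕ => Real.cosh (κ * k) ^ (-e))
    · exact summable_bound he hκ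
    · intro k
      apply Tendsto.mul_const
      have hc : Continuous (fun t : ℝ => (-(t : ℂ)) ^ k) := by fun_prop
      have := (hc.tendsto 1).mono_left (nhdsWithin_le_nhds (s := Iio (1 : ℝ)))
      simpa using this
    · have hev : ∀ᶠ t : ℝ in 𝓝[<] 1, 0 < t :=
        nhdsWithin_le_nhds (lt_mem_nhds (by norm_num))
      filter_upwards [hev, self_mem_nhdsWithin] with t h1 h2
      intro k
      have h2' : t < 1 := h2
      rw [norm_mul, norm_pow, norm_neg, Complex.norm_real, Real.norm_eq_abs, abs_of_pos h1]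
      have h3 : t ^ k ≤ 1 := pow_le_one₀ h1.le h2'.le
      have h4 : 0 ≤ t ^ k := by positivity
      have h5 := hb k
      have h6 := norm_nonneg (φ k)
      nlinarith
  have ht4 := (Complex.continuous_re.tendsto _).comp ht3
  have hfe : f e κ ζ = ∑' k : ℕ, (-1 : ℂ) ^ k * φ k := rfl
  rw [hfe]
  apply ge_of_tendsto ht4
  have hev : ∀ᶠ t : ℝ in 𝓝[<] 1, 0 < t :=
    nhdsWithin_le_nhds (lt_mem_nhds (by norm_num))
  filter_upwards [hev, self_mem_nhdsWithin] with t h1 h2
  have h2' : t < 1 := h2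
  apply step1
  rw [norm_neg, Complex.norm_real, Real.norm_eq_abs, abs_of_pos h1]
  exact h2'

private theorem pk_fT_one {e κ : ℝ} (he : 0 < e) (hκ : 0 < κ) :
    fT e κ 1 = (((1 + Real.exp (-(e * κ)))⁻¹ : ℝ) : ℂ) := by
  unfold fT
  have hterm : ∀ k : ℕ, (-1 : ℂ) ^ k *
      ((Real.cosh (κ * k) : ℂ) + 1 * (Real.sinh (κ * k) : ℂ)) ^ (-(e : ℂ)) =
      ((-Real.exp (-(e * κ)) : ℝ) : ℂ) ^ k := by
    intro k
    have h1 : (Real.cosh (κ * k) : ℂ) + 1 * (Real.sinh (κ * k) : ℂ) =
        ((Real.exp (κ * k) : ℝ) : ℂ) := by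
      rw [one_mul, ← Complex.ofReal_add, Real.cosh_add_sinh]
    rw [h1]
    have h2 : (-(e : ℂ)) = ((-e : ℝ) : ℂ) := by push_cast; ring
    rw [h2, ← Complex.ofReal_cpow (Real.exp_pos _).le]
    rw [← Real.exp_mul]
    have h3 : Real.exp (κ * k * -e) = (Real.exp (-(e * κ))) ^ k := by
      rw [← Real.exp_nat_mul]
      congr 1
      ring
    rw [h3]
    push_cast
    rw [neg_pow (Complex.exp _)]
  rw [tsum_congr hterm]
  have hlt : Real.exp (-(e * κ)) < 1 := by
    rw [Real.exp_lt_one_iff]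
    have := mul_pos he hκ
    linarith
  have hn : ‖((-Real.exp (-(e * κ)) : ℝ) : ℂ)‖ < 1 := by
    rw [Complex.norm_real, Real.norm_eq_abs, abs_neg, abs_of_pos (Real.exp_pos _)]
    exact hlt
  rw [tsum_geometric_of_norm_lt_one hn]
  push_cast
  rw [sub_neg_eq_add]

private theorem pk_tanh_tendsto {κ : ℝ} (hκ : 0 < κ) :
    Tendsto (fun x : ℝ => tanh ((κ : ℂ) * (x : ℂ))) atTop (𝓝 1) := by
  have h1 : Tendsto (fun x : ℝ => Real.exp (-(2 * κ * x))) atTop (𝓝 0) := by
    apply Real.tendsto_exp_neg_atTop_nhds_zero.comp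
    exact tendsto_id.const_mul_atTop (by positivity)
  have h2 : Tendsto (fun x : ℝ => (1 - Real.exp (-(2 * κ * x))) / (1 + Real.exp (-(2 * κ * x))))
      atTop (𝓝 ((1 - 0) / (1 + 0))) :=
    (h1.const_sub 1).div (h1.const_add 1) (by norm_num)
  have h3 : ∀ x : ℝ, tanh ((κ : ℂ) * (x : ℂ)) =
      (((1 - Real.exp (-(2 * κ * x))) / (1 + Real.exp (-(2 * κ * x))) : ℝ) : ℂ) := by
    intro x
    rw [← Complex.ofReal_mul, ← Complex.ofReal_tanh]
    congr 1
    rw [Real.tanh_eq_sinh_div_cosh, Real.sinh_eq, Real.cosh_eq]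
    have e1 : Real.exp (-(2 * κ * x)) = Real.exp (-(κ * x)) * Real.exp (-(κ * x)) := by
      rw [← Real.exp_add]; congr 1; ring
    have e2 : Real.exp (κ * x) * Real.exp (-(κ * x)) = 1 := by
      rw [← Real.exp_add]; simp
    have p1 := Real.exp_pos (κ * x)
    have p2 := Real.exp_pos (-(κ * x))
    rw [e1, div_eq_div_iff (by positivity) (by positivity)]
    have e3 : Real.exp (κ * x) * (Real.exp (-(κ * x)) * Real.exp (-(κ * x))) =
        Real.exp (-(κ * x)) := by
      rw [← mul_assoc, e2, one_mul]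
    nlinarith [e3, e2]
  have h4 : Tendsto (fun x : ℝ => (((1 - Real.exp (-(2 * κ * x))) /
      (1 + Real.exp (-(2 * κ * x))) : ℝ) : ℂ)) atTop (𝓝 (((1 - 0) / (1 + 0) : ℝ) : ℂ)) :=
    (Complex.continuous_ofReal.tendsto _).comp h2
  simp only [h3]
  simpa using h4

/-- **Lemma A.**  Strict inequality.  `fT` is analytic on the connected open set `Re T > 0`.  Every
`T` with `Re T > 0`, `T ≠ 1` is `tanh κζ` with `Re ζ > 0` (`κζ = (1/2) log((1+T)/(1-T))` if
`|1+T| > |1-T|`), so `Re fT ≥ 1/2` there and at `T = 1` by continuity.  If equality held at one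
point, `fT` would be constant by the open mapping theorem, but `fT T → 1` as `T → +∞` (real) and
`fT T < 1` for real `T > 0`?  Simpler: for real `T > 0` the series is alternating with strictly
decreasing terms starting with `1`, so `fT T > 1 - (cosh κ + T sinh κ)^(-e)`, which is `> 1/2` for
large `T`, while `fT T < 1` for all real `T > 0` and `fT T → 1`: not constant. -/
theorem half_lt_re_f {e κ : ℝ} (he : 0 < e) (hκ : 0 < κ) {ζ : ℂ} (h0 : 0 < ζ.re) :
    1 / 2 < (f e κ ζ).re := by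
  set U : Set ℂ := {ζ | 0 < ζ.re} with hU
  have hUo : IsOpen U := isOpen_lt continuous_const Complex.continuous_re
  have hUc : IsPreconnected U := (convex_halfSpace_re_gt 0).isPreconnected
  have han : AnalyticOnNhd ℂ (f e κ) U := (differentiableOn_f he hκ).analyticOnNhd hUo
  rcases lt_or_eq_of_le (half_le_re_f he hκ h0) with h | h
  · exact h
  exfalso
  rcases han.is_constant_or_isOpen hUc with hc | ho
  · obtain ⟨c, hc⟩ := hc
    -- the limit at `+∞`
    have hlim : Tendsto (fun x : ℝ => f e κ (x : ℂ)) atTop (𝓝 (fT e κ 1)) := by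
      have hcont : ContinuousAt (fT e κ) 1 := by
        have hVo : IsOpen {T : ℂ | 0 < T.re} := isOpen_lt continuous_const Complex.continuous_re
        exact ((differentiableOn_fT he hκ).differentiableAt
          (hVo.mem_nhds (by simp))).continuousAt
      exact hcont.tendsto.comp (pk_tanh_tendsto hκ)
    have hconst : Tendsto (fun x : ℝ => f e κ (x : ℂ)) atTop (𝓝 c) := by
      apply tendsto_const_nhds.congr'
      filter_upwards [eventually_gt_atTop (0 : ℝ)] with x hx
      exact (hc (x : ℂ) (by simpa [hU] using hx)).symm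
    have heq := tendsto_nhds_unique hlim hconst
    rw [pk_fT_one he hκ] at heq
    have hcre : c.re = 1 / 2 := by
      rw [← hc ζ h0]
      exact h.symm
    rw [← heq, Complex.ofReal_re] at hcre
    have hlt : Real.exp (-(e * κ)) < 1 := by
      rw [Real.exp_lt_one_iff]
      have := mul_pos he hκ
      linarith
    have hpos := Real.exp_pos (-(e * κ))
    have h2 : (1 + Real.exp (-(e * κ)))⁻¹ * (1 + Real.exp (-(e * κ))) = 1 :=
      inv_mul_cancel₀ (by linarith)
    rw [hcre] at h2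
    linarith
  · have hopen := ho U subset_rfl hUo
    have hmem : f e κ ζ ∈ f e κ '' U := ⟨ζ, h0, rfl⟩
    obtain ⟨ε, hε, hball⟩ := Metric.isOpen_iff.mp hopen _ hmem
    have hin : f e κ ζ - ((ε / 2 : ℝ) : ℂ) ∈ ball (f e κ ζ) ε := by
      rw [mem_ball, dist_eq_norm]
      have : f e κ ζ - ((ε / 2 : ℝ) : ℂ) - f e κ ζ = -((ε / 2 : ℝ) : ℂ) := by ring
      rw [this, norm_neg, Complex.norm_real, Real.norm_eq_abs, abs_of_pos (by linarith)]
      linarith
    obtain ⟨ξ, hξ, hξe⟩ := hball hin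
    have h5 := half_le_re_f he hκ (ζ := ξ) hξ
    rw [hξe, Complex.sub_re, Complex.ofReal_re, ← h] at h5
    linarith

end Pool.Agent.helper31.EQ.Y
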