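import Pool.Agent.helper31.EQ.Defs
import Pool.Agent.helper31.EQ.Y.Positive

/-!
# EQ-Y4: the meaning of the fixed point equations on the real axis
-/

namespace Pool.Agent.helper31.EQ.Y

open Complex Set Metric Filter Topology ComplexConjugate

private theorem Alg_sq (w : ℂ) : ((1 + w ^ 2) ^ (1 / 2 : ℂ)) ^ 2 = 1 + w ^ 2 := by
  have h := Complex.cpow_nat_inv_pow (1 + w ^ 2) (n := 2) two_ne_zero
  rw [one_div]
  exact_mod_cast h

private theorem Alg_mul (w : ℂ) :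
    (w + (1 + w ^ 2) ^ (1 / 2 : ℂ)) * ((1 + w ^ 2) ^ (1 / 2 : ℂ) - w) = 1 := by
  have h := Alg_sq w
  linear_combination h

theorem exp_ash (w : ℂ) : exp (ash w) = w + (1 + w ^ 2) ^ (1 / 2 : ℂ) := by
  unfold ash
  rw [exp_log]
  intro h
  have h1 := Alg_mul w
  rw [h, zero_mul] at h1
  exact zero_ne_one h1

/-- `sinh (ash w) = w` (`(w + r)(r - w) = 1` with `r² = 1 + w²`, so `w + r ≠ 0`). -/
theorem sinh_ash (w : ℂ) : sinh (ash w) = w := by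
  have h1 := Alg_mul w
  have h2 : exp (-ash w) = (1 + w ^ 2) ^ (1 / 2 : ℂ) - w := by
    rw [exp_neg, exp_ash, inv_eq_of_mul_eq_one_right h1]
  rw [Complex.sinh, h2, exp_ash]
  ring

/-- `C = 2 cosh(κe/2) / (2 sinh(κ/2))^e` for `m = exp κ`. -/
theorem CC_exp {e κ : ℝ} (hκ : 0 < κ) :
    CC e (Real.exp κ) = 2 * Real.cosh (κ * e / 2) / (2 * Real.sinh (κ / 2)) ^ e := by
  have hs : 0 < Real.sinh (κ / 2) := Real.sinh_pos_iff.2 (by positivity)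
  have h1 : Real.exp κ - 1 = Real.exp (κ / 2) * (2 * Real.sinh (κ / 2)) := by
    rw [Real.sinh_eq, mul_div_cancel₀ _ (two_ne_zero), mul_sub, ← Real.exp_add, ← Real.exp_add]
    norm_num
  have h2 : 1 + Real.exp κ ^ e = Real.exp (κ * e / 2) * (2 * Real.cosh (κ * e / 2)) := by
    rw [Real.cosh_eq, mul_div_cancel₀ _ (two_ne_zero), mul_add, ← Real.exp_add, ← Real.exp_add,
      ← Real.exp_mul, add_halves, add_neg_cancel, Real.exp_zero, add_comm]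
  have h3 : Real.exp (κ / 2) ^ e = Real.exp (κ * e / 2) := by
    rw [← Real.exp_mul]
    congr 1
    ring
  unfold CC
  rw [h1, h2, Real.mul_rpow (Real.exp_pos _).le (by positivity), h3,
    mul_div_mul_left _ _ (Real.exp_pos _).ne']

/-- `F(sinh κζ) = C (cosh κζ)^(-e)`. -/
theorem FF_sinh {e κ : ℝ} (ζ : ℝ) :
    FF e (Real.exp κ) (Real.sinh (κ * ζ)) = CC e (Real.exp κ) * Real.cosh (κ * ζ) ^ (-e) := by
  have h : 1 + Real.sinh (κ * ζ) ^ 2 = Real.cosh (κ * ζ) ^ 2 := by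
    rw [Real.cosh_sq]
    ring
  unfold FF
  rw [h, ← Real.rpow_natCast, ← Real.rpow_mul (Real.cosh_pos _).le]
  congr 2
  push_cast
  ring

private theorem Alg_cosh_sub (x y : ℝ) :
    Real.cosh y - Real.tanh x * Real.sinh y = Real.cosh (x - y) / Real.cosh x := by
  have h := (Real.cosh_pos x).ne'
  rw [Real.cosh_sub, Real.tanh_eq_sinh_div_cosh]
  field_simp

private theorem Alg_cpow {x e : ℝ} (hx : 0 < x) :
    ((x : ℂ)) ^ (-(e : ℂ)) = ((x ^ (-e) : ℝ) : ℂ) := by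
  rw [Complex.ofReal_cpow hx.le]
  push_cast
  rfl

private theorem Alg_pi {κ : ℝ} (hκ : 0 < κ) (ζ : ℝ) : |(ζ : ℂ).im| < Real.pi / (2 * κ) := by
  rw [Complex.ofReal_im, abs_zero]
  exact div_pos Real.pi_pos (by positivity)

/-- Real values of `f`, `G`: real, `f ∈ (1/2, 1)`, `G > 0`, `Q G = G(ζ+1)`. -/
theorem f_ofReal {e κ : ℝ} (he : 0 < e) (hκ : 0 < κ) {ζ : ℝ} (h : 0 < ζ) :
    ∃ y : ℝ, 1 / 2 < y ∧ y < 1 ∧ f e κ ζ = y := by
  have key : ∀ x : ℝ, 0 < x → f e κ x = ((f e κ x).re : ℝ) := by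
    intro x hx
    apply Complex.ext
    · simp
    · rw [Complex.ofReal_im]
      exact f_real hκ hx
  have h1 : 1 / 2 < (f e κ ζ).re := half_lt_re_f he hκ (by simpa using h)
  have h2 : 1 / 2 < (f e κ ((ζ + 1 : ℝ) : ℂ)).re := half_lt_re_f he hκ (by
    rw [Complex.ofReal_re]
    linarith)
  refine ⟨(f e κ ζ).re, h1, ?_, key ζ h⟩
  have h3 := one_sub_f (e := e) (κ := κ) he hκ (ζ := (ζ : ℂ)) (by simpa using h) (Alg_pi hκ ζ)
  have h4 : ((ζ : ℂ) + 1) = ((ζ + 1 : ℝ) : ℂ) := by push_cast; rfl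
  have hT : 0 ≤ Real.tanh (κ * ζ) := by
    rw [Real.tanh_eq_sinh_div_cosh]
    exact div_nonneg (Real.sinh_nonneg_iff.2 (by positivity)) (Real.cosh_pos _).le
  have hb : 0 < Real.cosh κ + Real.tanh (κ * ζ) * Real.sinh κ := by
    have := Real.cosh_pos κ
    have := Real.sinh_nonneg_iff.2 hκ.le
    positivity
  have h5 : ((Real.cosh κ : ℂ) + tanh (κ * ζ) * (Real.sinh κ : ℂ))
      = ((Real.cosh κ + Real.tanh (κ * ζ) * Real.sinh κ : ℝ) : ℂ) := by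
    push_cast
    rfl
  rw [h4, h5, Alg_cpow hb, key _ (by linarith : (0:ℝ) < ζ + 1), ← Complex.ofReal_mul] at h3
  have h6 := congrArg Complex.re h3
  rw [Complex.sub_re, Complex.one_re, Complex.ofReal_re] at h6
  have h7 : 0 < (Real.cosh κ + Real.tanh (κ * ζ) * Real.sinh κ) ^ (-e) := Real.rpow_pos_of_pos hb _
  have h8 : 0 < (Real.cosh κ + Real.tanh (κ * ζ) * Real.sinh κ) ^ (-e) *
      (f e κ ((ζ + 1 : ℝ) : ℂ)).re := mul_pos h7 (by linarith)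
  linarith

private theorem Alg_G {e κ : ℝ} (he : 0 < e) (hκ : 0 < κ) {ζ : ℝ} (h : 0 < ζ) :
    ∃ y : ℝ, 1 / 2 < y ∧ y < 1 ∧ f e κ ζ = y ∧
      G e κ ζ = ((Real.cosh (κ * ζ) ^ (-e) * y : ℝ) : ℂ) := by
  obtain ⟨y, h1, h2, h3⟩ := f_ofReal he hκ h
  refine ⟨y, h1, h2, h3, ?_⟩
  unfold G
  rw [h3, ← Complex.ofReal_mul, ← Complex.ofReal_cosh, Alg_cpow (Real.cosh_pos _),
    Complex.ofReal_mul]

theorem G_ofReal {e κ : ℝ} (he : 0 < e) (hκ : 0 < κ) {ζ : ℝ} (h : 0 < ζ) :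
    ∃ y : ℝ, 0 < y ∧ G e κ ζ = y := by
  obtain ⟨y, h1, _, _, h4⟩ := Alg_G he hκ h
  exact ⟨_, mul_pos (Real.rpow_pos_of_pos (Real.cosh_pos _) _) (by linarith), h4⟩

/-- `Lam` is real on reals and
`exp (Lam ζ) = C (2 sinh(κ/2) cosh κ(ζ-1/2))^e G(ζ)`
(`cosh(κ/2) - T sinh(κ/2) = cosh κ(ζ-1/2)/cosh κζ > 0`). -/
theorem Lam_ofReal {e κ : ℝ} (he : 0 < e) (hκ : 0 < κ) {ζ : ℝ} (h : 1 / 2 < ζ) :
    ∃ L : ℝ, Lam e κ ζ = L ∧ Real.exp L = CC e (Real.exp κ) *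
      (2 * Real.sinh (κ / 2) * Real.cosh (κ * (ζ - 1 / 2))) ^ e * (G e κ ζ).re := by
  obtain ⟨y, h1, h2, h3, h4⟩ := Alg_G he hκ (by linarith : (0 : ℝ) < ζ)
  have hs : 0 < Real.sinh (κ / 2) := Real.sinh_pos_iff.2 (by positivity)
  have hd : Real.cosh (κ / 2) - Real.tanh (κ * ζ) * Real.sinh (κ / 2)
      = Real.cosh (κ * (ζ - 1 / 2)) / Real.cosh (κ * ζ) := by
    rw [Alg_cosh_sub]
    congr 2
    ring
  have hdpos : 0 < Real.cosh (κ * (ζ - 1 / 2)) / Real.cosh (κ * ζ) :=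
    div_pos (Real.cosh_pos _) (Real.cosh_pos _)
  refine ⟨Real.log (2 * y) + e * Real.log (Real.cosh (κ * (ζ - 1 / 2)) / Real.cosh (κ * ζ)) +
    Real.log (Real.cosh (κ * e / 2)), ?_, ?_⟩
  · unfold Lam
    have h5 : ((Real.cosh (κ / 2) : ℂ) - tanh (κ * ζ) * (Real.sinh (κ / 2) : ℂ))
        = ((Real.cosh (κ * (ζ - 1 / 2)) / Real.cosh (κ * ζ) : ℝ) : ℂ) := by
      rw [← hd]
      push_cast
      rfl
    have h6 : 2 * f e κ ζ = ((2 * y : ℝ) : ℂ) := by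
      rw [h3]
      push_cast
      rfl
    rw [h5, h6, ← Complex.ofReal_log (by linarith), ← Complex.ofReal_log hdpos.le]
    push_cast
    rfl
  · rw [Real.exp_add, Real.exp_add, Real.exp_log (by linarith), Real.exp_log (Real.cosh_pos _),
      mul_comm e, ← Real.rpow_def_of_pos hdpos, h4, Complex.ofReal_re, CC_exp hκ,
      Real.mul_rpow (by positivity) (Real.cosh_pos _).le,
      Real.div_rpow (Real.cosh_pos _).le (Real.cosh_pos _).le,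
      Real.rpow_neg (Real.cosh_pos _).le]
    have h7 : (2 * Real.sinh (κ / 2)) ^ e ≠ 0 := (Real.rpow_pos_of_pos (by positivity) _).ne'
    have h8 : Real.cosh (κ * ζ) ^ e ≠ 0 := (Real.rpow_pos_of_pos (Real.cosh_pos _) _).ne'
    field_simp

private theorem Alg_log {c : ℝ} (hc : c < 1) :
    log (1 - (c : ℂ)) = ((Real.log (1 - c) : ℝ) : ℂ) := by
  rw [Complex.ofReal_log (by linarith)]
  push_cast
  rfl

private theorem Alg_PW {e κ : ℝ} {ζ ψ c L : ℝ}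
    (hL : Lam e κ ζ = L) (hc : c < 1) :
    PW e κ ζ ψ c = ((Real.sinh (κ / 2) * Real.exp (-(L + Real.log (1 - c)) / e) /
      (Real.cosh (κ * (ζ - 1 / 2) - κ * ψ / 2) / Real.cosh (κ * (ζ - 1 / 2))) : ℝ) : ℂ) := by
  unfold PW
  rw [hL, Alg_log hc, ← Alg_cosh_sub]
  push_cast
  rfl

/-- `PW` is real and positive on reals.  The denominator is
`cosh κ(ζ - 1/2 - ψ/2) / cosh κ(ζ - 1/2) > 0`. -/
theorem PW_ofReal {e κ : ℝ} (he : 0 < e) (hκ : 0 < κ) {ζ ψ c : ℝ} (h : 1 / 2 < ζ) (hc : c < 1) :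
    ∃ w : ℝ, 0 < w ∧ PW e κ ζ ψ c = w := by
  obtain ⟨L, hL, _⟩ := Lam_ofReal he hκ h
  have hs : 0 < Real.sinh (κ / 2) := Real.sinh_pos_iff.2 (by positivity)
  refine ⟨_, ?_, Alg_PW hL hc⟩
  have := Real.cosh_pos (κ * (ζ - 1 / 2) - κ * ψ / 2)
  have := Real.cosh_pos (κ * (ζ - 1 / 2))
  positivity

theorem PY_ofReal {e κ : ℝ} (he : 0 < e) (hκ : 0 < κ) {ζ ψ c : ℝ} (h : 1 / 2 < ζ) (hc : c < 1) :
    (PY e κ ζ ψ c).im = 0 := by
  obtain ⟨w, hw, hPW⟩ := PW_ofReal (ψ := ψ) he hκ h hc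
  unfold PY ash
  rw [hPW]
  have h1 : (1 + (w : ℂ) ^ 2) ^ (1 / 2 : ℂ) = (((1 + w ^ 2) ^ (1 / 2 : ℝ) : ℝ) : ℂ) := by
    rw [Complex.ofReal_cpow (by positivity)]
    push_cast
    rfl
  have h2 : 0 ≤ w + (1 + w ^ 2) ^ (1 / 2 : ℝ) := by positivity
  rw [h1, ← Complex.ofReal_add, ← Complex.ofReal_log h2]
  have h3 : 2 / (κ : ℂ) * ((Real.log (w + (1 + w ^ 2) ^ (1 / 2 : ℝ)) : ℝ) : ℂ) - 1
      = ((2 / κ * Real.log (w + (1 + w ^ 2) ^ (1 / 2 : ℝ)) - 1 : ℝ) : ℂ) := by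
    push_cast
    rfl
  rw [h3, Complex.ofReal_im]

theorem CY_ofReal {e κ : ℝ} (he : 0 < e) (hκ : 0 < κ) {ζ ψ c : ℝ} (h : 0 < ζ)
    (h' : 0 < ζ + 1 + ψ) : (CY e κ ζ ψ c).im = 0 := by
  obtain ⟨y, _, _, h3⟩ := f_ofReal he hκ h
  obtain ⟨a, _, ha⟩ := G_ofReal he hκ h'
  obtain ⟨b, _, hb⟩ := G_ofReal he hκ (by linarith : 0 < ζ + 1)
  push_cast at ha hb
  unfold CY Q
  rw [h3, ha, hb]
  have h4 : -((1 - (y : ℂ)) / y) * (1 - (1 - (c : ℂ)) * ((a : ℂ) / b))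
      = ((-((1 - y) / y) * (1 - (1 - c) * (a / b)) : ℝ) : ℂ) := by
    push_cast
    rfl
  rw [h4, Complex.ofReal_im]

/-- **Link relation.**  `PY ζ ψ c = ψ` means `PW = sinh (κ(1+ψ)/2)` (`sinh_ash`), i.e.
`sinh κζ - sinh κ(ζ-1-ψ) = 2 sinh(κ(1+ψ)/2) cosh κ(ζ-1/2-ψ/2)
  = 2 sinh(κ/2) cosh κ(ζ-1/2) exp(-(Lam + log(1-c))/e)`, and `Lam_ofReal`. -/
theorem link_rel {e κ : ℝ} (he : 0 < e) (hκ : 0 < κ) {ζ ψ c : ℝ} (h : 1 / 2 < ζ) (hc : c < 1)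
    (hψ : -1 < ψ) (hfix : PY e κ ζ ψ c = ψ) :
    (Real.sinh (κ * ζ) - Real.sinh (κ * (ζ - 1 - ψ))) ^ (-e) =
      CC e (Real.exp κ) * (G e κ ζ).re * (1 - c) := by
  obtain ⟨L, hL, hexp⟩ := Lam_ofReal he hκ h
  have hs : 0 < Real.sinh (κ / 2) := Real.sinh_pos_iff.2 (by positivity)
  have hκ' : (κ : ℂ) ≠ 0 := Complex.ofReal_ne_zero.2 hκ.ne'
  have h1 : ash (PW e κ ζ ψ c) = ((κ * (1 + ψ) / 2 : ℝ) : ℂ) := by
    unfold PY at hfix
    have h2 : 2 / (κ : ℂ) * ash (PW e κ ζ ψ c) = 1 + ψ := by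
      linear_combination hfix
    have h3 : ash (PW e κ ζ ψ c) = κ / 2 * (2 / (κ : ℂ) * ash (PW e κ ζ ψ c)) := by
      field_simp
    rw [h3, h2]
    push_cast
    ring
  have h2 : PW e κ ζ ψ c = ((Real.sinh (κ * (1 + ψ) / 2) : ℝ) : ℂ) := by
    rw [← sinh_ash (PW e κ ζ ψ c), h1, Complex.ofReal_sinh]
  rw [Alg_PW hL hc, Complex.ofReal_inj] at h2
  have hc1 := Real.cosh_pos (κ * (ζ - 1 / 2) - κ * ψ / 2)
  have hc2 := Real.cosh_pos (κ * (ζ - 1 / 2))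
  have h3 : Real.sinh (κ * ζ) - Real.sinh (κ * (ζ - 1 - ψ))
      = 2 * Real.sinh (κ * (1 + ψ) / 2) * Real.cosh (κ * (ζ - 1 / 2) - κ * ψ / 2) := by
    have e0 : ∀ x y : ℝ, Real.sinh (x + y) - Real.sinh (x - y)
        = 2 * Real.sinh y * Real.cosh x := by
      intro x y
      rw [Real.sinh_add, Real.sinh_sub]
      ring
    rw [← e0]
    congr 2
    · ring
    · ring
  have h4 : 2 * Real.sinh (κ * (1 + ψ) / 2) * Real.cosh (κ * (ζ - 1 / 2) - κ * ψ / 2)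
      = (2 * Real.sinh (κ / 2) * Real.cosh (κ * (ζ - 1 / 2))) *
        Real.exp (-(L + Real.log (1 - c)) / e) := by
    rw [← h2]
    field_simp
  have hb : 0 < 2 * Real.sinh (κ / 2) * Real.cosh (κ * (ζ - 1 / 2)) := by positivity
  rw [h3, h4, Real.mul_rpow hb.le (Real.exp_pos _).le, ← Real.exp_mul]
  have h5 : -(L + Real.log (1 - c)) / e * -e = L + Real.log (1 - c) := by
    field_simp
  rw [h5, Real.exp_add, Real.exp_log (by linarith), hexp, Real.rpow_neg hb.le]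
  have h6 : (2 * Real.sinh (κ / 2) * Real.cosh (κ * (ζ - 1 / 2))) ^ e ≠ 0 :=
    (Real.rpow_pos_of_pos hb _).ne'
  field_simp

/-- **Node relation.**  `CY ζ ψ c' = c` and `Q G = G(ζ+1)`, `G(ζ) + G(ζ+1) = (cosh κζ)^(-e)` give
`G(ζ)(1-c) + G(ζ+1+ψ)(1-c') = (cosh κζ)^(-e)`. -/
theorem node_rel {e κ : ℝ} (he : 0 < e) (hκ : 0 < κ) {ζ ψ c c' : ℝ} (h : 0 < ζ)
    (h' : 0 < ζ + 1 + ψ) (hfix : CY e κ ζ ψ c' = c) :
    (G e κ ζ).re * (1 - c) + (G e κ (ζ + 1 + ψ)).re * (1 - c') = Real.cosh (κ * ζ) ^ (-e) := by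
  obtain ⟨y, hy1, _, h3, h4⟩ := Alg_G he hκ h
  obtain ⟨a, _, ha⟩ := G_ofReal he hκ h'
  obtain ⟨b, hbpos, hb⟩ := G_ofReal he hκ (by linarith : 0 < ζ + 1)
  have hadd := G_add he hκ (ζ := (ζ : ℂ)) (by simpa using h) (Alg_pi hκ ζ)
  push_cast at ha hb
  unfold CY Q at hfix
  rw [h3, ha, hb] at hfix
  have h5 : -((1 - (y : ℂ)) / y) * (1 - (1 - (c' : ℂ)) * ((a : ℂ) / b))
      = ((-((1 - y) / y) * (1 - (1 - c') * (a / b)) : ℝ) : ℂ) := by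
    push_cast
    rfl
  rw [h5, Complex.ofReal_inj] at hfix
  rw [h4, hb, ← Complex.ofReal_mul, ← Complex.ofReal_cosh, Alg_cpow (Real.cosh_pos _),
    ← Complex.ofReal_add, Complex.ofReal_inj] at hadd
  rw [h4, ha, Complex.ofReal_re, Complex.ofReal_re, ← hfix]
  generalize Real.cosh (κ * ζ) ^ (-e) = X at hadd ⊢
  have hy : y ≠ 0 := by positivity
  have hb0 : b ≠ 0 := hbpos.ne'
  have h6 : b = X * (1 - y) := by linarith
  have h7 : X * y * (1 - -((1 - y) / y) * (1 - (1 - c') * (a / b)))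
      = X * y + X * (1 - y) * (1 - (1 - c') * (a / b)) := by
    field_simp
    ring
  rw [h7, ← h6]
  have h8 : b * (1 - (1 - c') * (a / b)) = b - (1 - c') * a := by
    field_simp
  rw [h8]
  linarith

end Pool.Agent.helper31.EQ.Y
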