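import Pool.Agent.helper31.EQ.SeqTrap
import Pool.Agent.helper31.EQ.Y.Alg

/-!
# EQ-Y5: the estimates that are needed (`YData`)
-/

namespace Pool.Agent.helper31.EQ.Y

open Complex Set Metric Filter Topology ComplexConjugate

/-- The unknowns `c_{n+1} = x (2n)`, `ψ_n = x (2n+1)` satisfy `|c_{n+1}| ≤ K p n`,
`|ψ_n| ≤ P p n`. -/
def InTrap (K P : ℂ → ℕ → ℝ) (p : ℂ) (x : ℕ → ℂ) : Prop :=
  ∀ n, ‖x (2 * n)‖ ≤ K p n ∧ ‖x (2 * n + 1)‖ ≤ P p n

/-- The estimates.  `p` is the start `ζ_0`, `ζ_n = zt p x n`. -/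
structure YData (e κ : ℝ) where
  θ : ℝ
  hθ0 : 0 ≤ θ
  hθ1 : θ < 1
  D : Set ℂ
  isOpen_D : IsOpen D
  K : ℂ → ℕ → ℝ
  P : ℂ → ℕ → ℝ
  K_pos : ∀ p ∈ D, ∀ n, 0 < K p n
  P_pos : ∀ p ∈ D, ∀ n, 0 < P p n
  K_cont : ∀ s ∈ D, ∀ ε > 0, ∀ᶠ t in 𝓝 s, ∀ n,
    K t n ≤ (1 + ε) * K s n ∧ K s n ≤ (1 + ε) * K t n
  P_cont : ∀ s ∈ D, ∀ ε > 0, ∀ᶠ t in 𝓝 s, ∀ n,
    P t n ≤ (1 + ε) * P s n ∧ P s n ≤ (1 + ε) * P t n
  K_lt : ∀ p ∈ D, ∀ n, K p n < 1
  P_lt : ∀ p ∈ D, ∀ n, P p n < 1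
  P_tend : ∀ p ∈ D, Tendsto (P p) atTop (𝓝 0)
  /-- the start is in the strip -/
  strip : ∀ p ∈ D, |p.im| < Real.pi / (2 * κ)
  /-- the nodes `n ≥ 1` -/
  node : ∀ p ∈ D, ∀ x, InTrap K P p x → ∀ n, 1 / 2 < (zt p x (n + 1)).re ∧
    |(zt p x (n + 1)).im| < Real.pi / (2 * κ)
  re_PW : ∀ p ∈ D, ∀ x, InTrap K P p x → ∀ n,
    0 < (PW e κ (zt p x (n + 1)) (x (2 * n + 1)) (x (2 * n))).re
  inv_c : ∀ p ∈ D, ∀ x, InTrap K P p x → ∀ n,
    ‖CY e κ (zt p x (n + 1)) (x (2 * n + 3)) (x (2 * n + 2))‖ ≤ θ * K p n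
  inv_ψ : ∀ p ∈ D, ∀ x, InTrap K P p x → ∀ n,
    ‖PY e κ (zt p x (n + 1)) (x (2 * n + 1)) (x (2 * n))‖ ≤ θ * P p n
  /-- the mirror point -/
  η : ℝ
  hη : 0 < η
  seg : ∀ y : ℝ, |y| ≤ η → ((y : ℂ) * I) ∈ D
  test : ∀ x, InTrap K P ((η : ℂ) * I) x → (∀ n, x n = Phi e κ ((η : ℂ) * I) x n) →
    (G e κ (zt ((η : ℂ) * I) x 1) * (1 - x 0) / cosh (κ * ((η : ℂ) * I)) ^ (-(e : ℂ))).re ≠ 1 / 2

private theorem Data_cosh_ne {κ : ℝ} (hκ : 0 < κ) {ζ : ℂ} (h : |ζ.im| < Real.pi / (2 * κ)) :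
    cosh (κ * ζ) ≠ 0 := by
  intro h0
  have := re_cosh_pos hκ h
  rw [h0] at this
  simp at this

private theorem Data_cosh_slit {κ : ℝ} (hκ : 0 < κ) {ζ : ℂ} (h : |ζ.im| < Real.pi / (2 * κ)) :
    cosh (κ * ζ) ∈ slitPlane := Or.inl (re_cosh_pos hκ h)

private theorem Data_f_ne {e κ : ℝ} (he : 0 < e) (hκ : 0 < κ) {ζ : ℂ} (h : 0 < ζ.re) :
    f e κ ζ ≠ 0 := by
  intro h0
  have := half_lt_re_f he hκ h
  rw [h0] at this
  norm_num at this

private theorem Data_G_ne {e κ : ℝ} (he : 0 < e) (hκ : 0 < κ) {ζ : ℂ} (h : 0 < ζ.re)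
    (h' : |ζ.im| < Real.pi / (2 * κ)) : G e κ ζ ≠ 0 := by
  unfold G
  refine mul_ne_zero ?_ (Data_f_ne he hκ h)
  rw [Ne, cpow_eq_zero_iff]
  rintro ⟨h1, -⟩
  exact Data_cosh_ne hκ h' h1

private theorem Data_f_diff {e κ : ℝ} (he : 0 < e) (hκ : 0 < κ) {ζ : ℂ} (h : 0 < ζ.re) :
    DifferentiableAt ℂ (f e κ) ζ :=
  (differentiableOn_f he hκ).differentiableAt
    ((isOpen_lt continuous_const continuous_re).mem_nhds h)

private theorem Data_G_diff {e κ : ℝ} (he : 0 < e) (hκ : 0 < κ) {ζ : ℂ} (h : 0 < ζ.re)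
    (h' : |ζ.im| < Real.pi / (2 * κ)) : DifferentiableAt ℂ (G e κ) ζ := by
  refine (differentiableOn_G he hκ).differentiableAt (IsOpen.mem_nhds ?_ ⟨h, h'⟩)
  exact (isOpen_lt continuous_const continuous_re).inter
    (isOpen_lt continuous_im.abs continuous_const)

private theorem Data_CY_diff {e κ : ℝ} (he : 0 < e) (hκ : 0 < κ) {ζ ψ c : ℂ → ℂ} {z : ℂ}
    (dζ : DifferentiableAt ℂ ζ z) (dψ : DifferentiableAt ℂ ψ z) (dc : DifferentiableAt ℂ c z)
    (h1 : 0 < (ζ z).re) (h2 : |(ζ z).im| < Real.pi / (2 * κ))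
    (h3 : 0 < (ζ z + 1 + ψ z).re) (h4 : |(ζ z + 1 + ψ z).im| < Real.pi / (2 * κ)) :
    DifferentiableAt ℂ (fun w => CY e κ (ζ w) (ψ w) (c w)) z := by
  have h5 : 0 < (ζ z + 1).re := by
    rw [add_re, one_re]; linarith
  have h6 : |(ζ z + 1).im| < Real.pi / (2 * κ) := by
    rw [add_im, one_im, add_zero]; exact h2
  have df : DifferentiableAt ℂ (fun w => f e κ (ζ w)) z :=
    DifferentiableAt.comp (g := f e κ) z (Data_f_diff he hκ h1) dζ
  have d1 : DifferentiableAt ℂ (fun w => ζ w + 1) z := dζ.add_const 1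
  have d2 : DifferentiableAt ℂ (fun w => ζ w + 1 + ψ w) z := d1.add dψ
  have dG1 : DifferentiableAt ℂ (fun w => G e κ (ζ w + 1)) z :=
    DifferentiableAt.comp (g := G e κ) z (Data_G_diff he hκ h5 h6) d1
  have dG2 : DifferentiableAt ℂ (fun w => G e κ (ζ w + 1 + ψ w)) z :=
    DifferentiableAt.comp (g := G e κ) z (Data_G_diff he hκ h3 h4) d2
  unfold CY Q
  exact (((df.const_sub 1).div df (Data_f_ne he hκ h1)).neg).mul
    (((dc.const_sub 1).mul (dG2.div dG1 (Data_G_ne he hκ h5 h6))).const_sub 1)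

private theorem Data_sqrt_re (w : ℂ) : 0 ≤ (w ^ (1 / 2 : ℂ)).re := by
  by_cases hw : w = 0
  · rw [hw, zero_cpow (by norm_num)]
    simp
  · rw [cpow_def_of_ne_zero hw, exp_re]
    refine mul_nonneg (Real.exp_pos _).le (Real.cos_nonneg_of_mem_Icc ?_)
    have e1 : (log w * (1 / 2)).im = arg w / 2 := by
      have : (1 / 2 : ℂ) = ((1 / 2 : ℝ) : ℂ) := by norm_num
      rw [this, mul_comm, im_ofReal_mul, log_im]
      ring
    rw [e1]
    have h1 := neg_pi_lt_arg w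
    have h2 := arg_le_pi w
    constructor <;> linarith

private theorem Data_one_add_sq {w : ℂ} (h : 0 < w.re) : 1 + w ^ 2 ∈ slitPlane := by
  rw [mem_slitPlane_iff]
  by_cases hi : w.im = 0
  · left
    have : (1 + w ^ 2).re = 1 + w.re ^ 2 - w.im ^ 2 := by
      simp [sq]; ring
    rw [this, hi]
    nlinarith [sq_nonneg w.re]
  · right
    have : (1 + w ^ 2).im = 2 * w.re * w.im := by
      simp [sq]; ring
    rw [this]
    exact mul_ne_zero (mul_ne_zero two_ne_zero h.ne') hi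

private theorem Data_ash_diff {w : ℂ} (h : 0 < w.re) : DifferentiableAt ℂ ash w := by
  unfold ash
  have h1 : DifferentiableAt ℂ (fun w : ℂ => 1 + w ^ 2) w :=
    (differentiableAt_id.pow 2).const_add 1
  have h2 : DifferentiableAt ℂ (fun w : ℂ => (1 + w ^ 2) ^ (1 / 2 : ℂ)) w :=
    h1.cpow_const (Data_one_add_sq h)
  refine (differentiableAt_id.add h2).clog ?_
  left
  change 0 < (w + (1 + w ^ 2) ^ (1 / 2 : ℂ)).re
  rw [add_re]
  have := Data_sqrt_re (1 + w ^ 2)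
  linarith

private theorem Data_Lam_diff {e κ : ℝ} (he : 0 < e) (hκ : 0 < κ) {ζ : ℂ} (h : 1 / 2 < ζ.re)
    (h' : |ζ.im| < Real.pi / (2 * κ)) : DifferentiableAt ℂ (Lam e κ) ζ := by
  have h0 : 0 < ζ.re := by linarith
  have dκ : DifferentiableAt ℂ (fun w : ℂ => (κ : ℂ) * w) ζ := differentiableAt_id.const_mul _
  have dt : DifferentiableAt ℂ (fun w : ℂ => tanh (κ * w)) ζ := by
    have e1 : (fun w : ℂ => tanh (κ * w)) = fun w => sinh (κ * w) / cosh (κ * w) := by
      funext w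
      rw [tanh_eq_sinh_div_cosh]
    rw [e1]
    exact dκ.csinh.div dκ.ccosh (Data_cosh_ne hκ h')
  have df : DifferentiableAt ℂ (f e κ) ζ := Data_f_diff he hκ h0
  unfold Lam
  refine ((DifferentiableAt.clog (df.const_mul 2) ?_).add
    ((DifferentiableAt.clog ((dt.mul_const _).const_sub _) ?_).const_mul _)).add_const _
  · left
    have h1 := half_lt_re_f he hκ h0
    have e2 : (2 * f e κ ζ).re = 2 * (f e κ ζ).re := by simp
    rw [e2]
    linarith
  · left
    exact re_half_pos hκ h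

/-- the denominator of `PW` -/
private theorem Data_den_ne {κ : ℝ} (hκ : 0 < κ) {ζ ψ : ℂ} (h : |ζ.im| < Real.pi / (2 * κ))
    (h' : |(ζ - 1 - ψ).im| < Real.pi / (2 * κ)) :
    cosh (κ * ψ / 2) - tanh (κ * (ζ - 1 / 2)) * sinh (κ * ψ / 2) ≠ 0 := by
  have hc : cosh (κ * (ζ - 1 / 2)) ≠ 0 := by
    apply Data_cosh_ne hκ
    rw [show (ζ - 1 / 2).im = ζ.im by simp]
    exact h
  have hm : cosh (κ * (ζ - 1 / 2 - ψ / 2)) ≠ 0 := by
    apply Data_cosh_ne hκ
    have e1 : (ζ - 1 / 2 - ψ / 2).im = (ζ.im + (ζ - 1 - ψ).im) / 2 := by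
      simp; ring
    rw [e1, abs_lt]
    rw [abs_lt] at h h'
    constructor <;> linarith [h.1, h.2, h'.1, h'.2]
  have e2 : cosh (κ * ψ / 2) - tanh (κ * (ζ - 1 / 2)) * sinh (κ * ψ / 2) =
      cosh (κ * (ζ - 1 / 2 - ψ / 2)) / cosh (κ * (ζ - 1 / 2)) := by
    rw [tanh_eq_sinh_div_cosh, eq_div_iff hc,
      show (κ : ℂ) * (ζ - 1 / 2 - ψ / 2) = κ * (ζ - 1 / 2) - κ * ψ / 2 by ring, cosh_sub,
      sub_mul, div_mul_eq_mul_div, div_mul_cancel₀ _ hc]
    ring
  rw [e2]
  exact div_ne_zero hm hc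

private theorem Data_PY_diff {e κ : ℝ} (he : 0 < e) (hκ : 0 < κ) {ζ ψ c : ℂ → ℂ} {z : ℂ}
    (dζ : DifferentiableAt ℂ ζ z) (dψ : DifferentiableAt ℂ ψ z) (dc : DifferentiableAt ℂ c z)
    (h1 : 1 / 2 < (ζ z).re) (h2 : |(ζ z).im| < Real.pi / (2 * κ))
    (h3 : |(ζ z - 1 - ψ z).im| < Real.pi / (2 * κ)) (h4 : ‖c z‖ < 1)
    (h5 : 0 < (PW e κ (ζ z) (ψ z) (c z)).re) :
    DifferentiableAt ℂ (fun w => PY e κ (ζ w) (ψ w) (c w)) z := by
  have dL : DifferentiableAt ℂ (fun w => Lam e κ (ζ w)) z :=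
    DifferentiableAt.comp (g := Lam e κ) z (Data_Lam_diff he hκ h1 h2) dζ
  have dl : DifferentiableAt ℂ (fun w => log (1 - c w)) z := by
    refine (dc.const_sub 1).clog ?_
    left
    rw [sub_re, one_re]
    have := (re_le_norm (c z))
    linarith
  have dp : DifferentiableAt ℂ (fun w => (κ : ℂ) * ψ w / 2) z := (dψ.const_mul _).div_const _
  have dq : DifferentiableAt ℂ (fun w => (κ : ℂ) * (ζ w - 1 / 2)) z :=
    (dζ.sub_const _).const_mul _
  have hc : cosh (κ * (ζ z - 1 / 2)) ≠ 0 := by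
    apply Data_cosh_ne hκ
    rw [show (ζ z - 1 / 2).im = (ζ z).im by simp]
    exact h2
  have dt : DifferentiableAt ℂ (fun w => tanh (κ * (ζ w - 1 / 2))) z := by
    have e1 : (fun w : ℂ => tanh (κ * (ζ w - 1 / 2))) =
        fun w => sinh (κ * (ζ w - 1 / 2)) / cosh (κ * (ζ w - 1 / 2)) := by
      funext w
      rw [tanh_eq_sinh_div_cosh]
    rw [e1]
    exact dq.csinh.div dq.ccosh hc
  have dd : DifferentiableAt ℂ (fun w => cosh (κ * ψ w / 2) -
      tanh (κ * (ζ w - 1 / 2)) * sinh (κ * ψ w / 2)) z := dp.ccosh.sub (dt.mul dp.csinh)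
  have dW : DifferentiableAt ℂ (fun w => PW e κ (ζ w) (ψ w) (c w)) z := by
    unfold PW
    refine DifferentiableAt.div ?_ dd (Data_den_ne hκ h2 h3)
    exact (((dL.add dl).neg.div_const _).cexp).const_mul _
  have dA : DifferentiableAt ℂ (fun w => ash (PW e κ (ζ w) (ψ w) (c w))) z :=
    DifferentiableAt.comp (g := ash) z (Data_ash_diff h5) dW
  unfold PY
  exact (dA.const_mul _).sub_const _

private theorem Data_zt_diff {τ : ℂ → ℂ} {x : ℂ → ℕ → ℂ} {z : ℂ}
    (hτ : DifferentiableAt ℂ τ z) (hx : ∀ n, DifferentiableAt ℂ (fun w => x w n) z) (n : ℕ) :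
    DifferentiableAt ℂ (fun w => zt (τ w) (x w) n) z := by
  unfold zt
  refine (hτ.add_const _).add ?_
  exact DifferentiableAt.fun_sum fun i _ => hx _

private theorem Data_zt_succ (p : ℂ) (x : ℕ → ℂ) (n : ℕ) :
    zt p x (n + 1) = zt p x n + 1 + x (2 * n + 1) := by
  unfold zt
  rw [Finset.sum_range_succ]
  push_cast
  ring

private theorem Data_strip {e κ : ℝ} (Y : YData e κ) {p : ℂ} (hp : p ∈ Y.D) {x : ℕ → ℂ}
    (hx : InTrap Y.K Y.P p x) (n : ℕ) : |(zt p x n).im| < Real.pi / (2 * κ) := by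
  rcases n with _ | n
  · have : zt p x 0 = p := by simp [zt]
    rw [this]
    exact Y.strip p hp
  · exact (Y.node p hp x hx n).2

private theorem Data_Phi_even (e κ : ℝ) (p : ℂ) (x : ℕ → ℂ) (n : ℕ) :
    Phi e κ p x (2 * n) = CY e κ (zt p x (n + 1)) (x (2 * n + 3)) (x (2 * n + 2)) := by
  unfold Phi
  rw [if_pos (by omega), show 2 * n / 2 = n by omega]

private theorem Data_Phi_odd (e κ : ℝ) (p : ℂ) (x : ℕ → ℂ) (n : ℕ) :
    Phi e κ p x (2 * n + 1) = PY e κ (zt p x (n + 1)) (x (2 * n + 1)) (x (2 * n)) := by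
  unfold Phi
  rw [if_neg (by omega), show (2 * n + 1) / 2 = n by omega, show 2 * n + 1 - 1 = 2 * n by omega]

private theorem Data_inTrap {K P : ℂ → ℕ → ℝ} {p : ℂ} {x : ℕ → ℂ}
    (h : ∀ n, ‖x n‖ ≤ (fun (p : ℂ) k => if k % 2 = 0 then K p (k / 2) else P p (k / 2)) p n) :
    InTrap K P p x := by
  intro n
  constructor
  · have := h (2 * n)
    simp only [show 2 * n % 2 = 0 by omega, show 2 * n / 2 = n by omega, if_true] at this
    exact this
  · have := h (2 * n + 1)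
    simp only [show (2 * n + 1) % 2 = 1 by omega, show (2 * n + 1) / 2 = n by omega,
      one_ne_zero, if_false] at this
    exact this

/-- Holomorphy of the components along analytic families (compositions; `G`, `f` analytic on
`Re ζ > 0` in the strip, `f ≠ 0`, `G ≠ 0` by `half_lt_re_f`; `2f`, `cosh(κ/2) - T sinh(κ/2)`,
`1 - c`, `cosh κp` are in the right half plane; `1 + w²` and `w + √(1+w²)` are in the slit plane
for `Re w > 0`; the denominator of `PW` is
`cosh κ((ζ_n + ζ_{n+1})/2)/cosh κ(ζ_{n+1} - 1/2) ≠ 0`, both points are in the strip). -/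
theorem YData.hol {e κ : ℝ} (he : 0 < e) (hκ : 0 < κ) (Y : YData e κ) :
    HolFamilyR Y.D (fun p k => if k % 2 = 0 then Y.K p (k / 2) else Y.P p (k / 2))
      (Phi e κ) := by
  intro O τ x hO hτ hmaps hx hR n
  have hT : ∀ z ∈ O, InTrap Y.K Y.P (τ z) (x z) := fun z hz => Data_inTrap (hR z hz)
  intro z hz
  apply DifferentiableAt.differentiableWithinAt
  have hO' := hO.mem_nhds hz
  have dτ : DifferentiableAt ℂ τ z := hτ.differentiableAt hO'
  have dx : ∀ n, DifferentiableAt ℂ (fun w => x w n) z := fun n => (hx n).differentiableAt hO'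
  have hp := hmaps hz
  have hz' := hT z hz
  rcases Nat.even_or_odd' n with ⟨m, rfl | rfl⟩
  · have e1 : (fun w => Phi e κ (τ w) (x w) (2 * m)) =
        fun w => CY e κ (zt (τ w) (x w) (m + 1)) (x w (2 * m + 3)) (x w (2 * m + 2)) := by
      funext w
      exact Data_Phi_even _ _ _ _ _
    rw [e1]
    have n1 := Y.node _ hp _ hz' m
    have n2 := Y.node _ hp _ hz' (m + 1)
    have e2 : zt (τ z) (x z) (m + 1) + 1 + x z (2 * m + 3) = zt (τ z) (x z) (m + 1 + 1) := by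
      rw [Data_zt_succ _ _ (m + 1)]
      congr 2
    refine Data_CY_diff he hκ (Data_zt_diff dτ dx (m + 1)) (dx _) (dx _) ?_ n1.2 ?_ ?_
    · linarith [n1.1]
    · change 0 < (zt (τ z) (x z) (m + 1) + 1 + x z (2 * m + 3)).re
      rw [e2]
      linarith [n2.1]
    · change |(zt (τ z) (x z) (m + 1) + 1 + x z (2 * m + 3)).im| < _
      rw [e2]
      exact n2.2
  · have e1 : (fun w => Phi e κ (τ w) (x w) (2 * m + 1)) =
        fun w => PY e κ (zt (τ w) (x w) (m + 1)) (x w (2 * m + 1)) (x w (2 * m)) := by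
      funext w
      exact Data_Phi_odd _ _ _ _ _
    rw [e1]
    have n1 := Y.node _ hp _ hz' m
    have n0 := Data_strip Y hp hz' m
    have e2 : zt (τ z) (x z) (m + 1) - 1 - x z (2 * m + 1) = zt (τ z) (x z) m := by
      rw [Data_zt_succ _ _ m]
      ring
    refine Data_PY_diff he hκ (Data_zt_diff dτ dx (m + 1)) (dx _) (dx _) n1.1 n1.2 ?_ ?_
      (Y.re_PW _ hp _ hz' m)
    · change |(zt (τ z) (x z) (m + 1) - 1 - x z (2 * m + 1)).im| < _
      rw [e2]
      exact n0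
    · exact ((hz' m).1).trans_lt (Y.K_lt _ hp m)

/-- real positions -/
private theorem Data_zt_real (p : ℝ) {x : ℕ → ℂ} (hx : ∀ n, (x n).im = 0) (n : ℕ) :
    zt (p : ℂ) x n = (((zt (p : ℂ) x n).re : ℝ) : ℂ) := by
  apply Complex.ext
  · simp
  · have h : (zt (p : ℂ) x n).im = 0 := by
      unfold zt
      simp [hx]
    simp [h]

private theorem Data_re {w : ℂ} (h : w.im = 0) : w = ((w.re : ℝ) : ℂ) := by
  apply Complex.ext
  · simp
  · simp [h]

/-- the positions tend to infinity -/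
private theorem Data_tendsto {z : ℕ → ℝ} {y : ℕ → ℝ} (h : ∀ n, z (n + 1) = z n + 1 + y n)
    (hy : Tendsto y atTop (𝓝 0)) : Tendsto z atTop atTop := by
  have h1 : ∀ᶠ n in atTop, -(1 / 2 : ℝ) < y n := hy.eventually_const_lt (by norm_num)
  obtain ⟨N, hN⟩ := eventually_atTop.1 h1
  have h2 : ∀ k : ℕ, z N + (k : ℝ) * (1 / 2) ≤ z (N + k) := by
    intro k
    induction k with
    | zero => simp
    | succ k ih =>
      have h3 := h (N + k)
      have h4 := hN (N + k) (by omega)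
      rw [← add_assoc, h3]
      push_cast
      linarith
  have h5 : Tendsto (fun k : ℕ => z (N + k)) atTop atTop := by
    refine tendsto_atTop_mono h2 ?_
    refine tendsto_atTop_add_const_left _ _ ?_
    exact (tendsto_natCast_atTop_atTop).atTop_mul_const (by norm_num)
  have h6 : Tendsto (fun k : ℕ => z (k + N)) atTop atTop := by
    refine h5.congr fun k => ?_
    rw [add_comm]
  exact (tendsto_add_atTop_iff_nat N).1 h6

/-- the ratio of the slopes -/
private theorem Data_ratio {κ : ℝ} (hκ : 0 < κ) {z : ℕ → ℝ} {y : ℕ → ℝ}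
    (h : ∀ n, z (n + 1) = z n + 1 + y n)
    (hy : Tendsto y atTop (𝓝 0)) :
    Tendsto (fun n => Real.sinh (κ * z (n + 1)) / Real.sinh (κ * z n)) atTop
      (𝓝 (Real.exp κ)) := by
  have hz := Data_tendsto h hy
  have hzκ : Tendsto (fun n => κ * z n) atTop atTop := hz.const_mul_atTop hκ
  have hpos : ∀ᶠ n in atTop, 0 < κ * z n := hzκ.eventually_gt_atTop 0
  -- coth → 1
  have hE : Tendsto (fun n => Real.exp (-(2 * (κ * z n)))) atTop (𝓝 0) := by
    refine Real.tendsto_exp_neg_atTop_nhds_zero.comp ?_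
    exact hzκ.const_mul_atTop (by norm_num)
  have hc : Tendsto (fun n => (1 + Real.exp (-(2 * (κ * z n)))) /
      (1 - Real.exp (-(2 * (κ * z n))))) atTop (𝓝 1) := by
    have h0 : Tendsto (fun n => (1 + Real.exp (-(2 * (κ * z n)))) /
        (1 - Real.exp (-(2 * (κ * z n))))) atTop (𝓝 ((1 + 0) / (1 - 0))) :=
      (hE.const_add 1).div (hE.const_sub 1) (by norm_num)
    simpa using h0
  have hcoth : Tendsto (fun n => Real.cosh (κ * z n) / Real.sinh (κ * z n)) atTop (𝓝 1) := by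
    refine hc.congr' ?_
    filter_upwards [hpos] with n hn
    have h1 : 0 < Real.sinh (κ * z n) := Real.sinh_pos_iff.2 hn
    have h2 : Real.exp (-(2 * (κ * z n))) = Real.exp (-(κ * z n)) * Real.exp (-(κ * z n)) := by
      rw [← Real.exp_add]; congr 1; ring
    have h3 : Real.exp (κ * z n) * Real.exp (-(κ * z n)) = 1 := by
      rw [← Real.exp_add]; simp
    have h4 : 0 < 1 - Real.exp (-(2 * (κ * z n))) := by
      rw [sub_pos, Real.exp_lt_one_iff]
      linarith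
    rw [div_eq_div_iff h4.ne' h1.ne', Real.sinh_eq, Real.cosh_eq, h2]
    set a := Real.exp (κ * z n)
    set b := Real.exp (-(κ * z n))
    linear_combination (b) * h3
  have h7 : Tendsto (fun n => κ * (1 + y n)) atTop (𝓝 κ) := by
    have := (hy.const_add 1).const_mul κ
    simpa using this
  have h8 : Tendsto (fun n => Real.cosh (κ * (1 + y n)) +
      Real.cosh (κ * z n) / Real.sinh (κ * z n) * Real.sinh (κ * (1 + y n))) atTop
      (𝓝 (Real.cosh κ + 1 * Real.sinh κ)) :=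
    ((Real.continuous_cosh.tendsto κ).comp h7).add
      (hcoth.mul ((Real.continuous_sinh.tendsto κ).comp h7))
  rw [one_mul, Real.cosh_add_sinh] at h8
  refine h8.congr' ?_
  filter_upwards [hpos] with n hn
  have h1 : 0 < Real.sinh (κ * z n) := Real.sinh_pos_iff.2 hn
  rw [h n, show κ * (z n + 1 + y n) = κ * z n + κ * (1 + y n) by ring, Real.sinh_add]
  field_simp

/-- **The instance.**  `R p (2n) = K p n`, `R p (2n+1) = P p n`, `Φ = Phi e κ`,
`tr p = sinh κp`, `s p x n = sinh (κ Re ζ_n)`, `H p x = G(ζ_1)(1 - x 0)/(cosh κp)^(-e)`.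
Real orbit: `ζ_{n+1} = ζ_n + 1 + ψ_n`, increasing as `|ψ_n| < 1`; node relation from `link_rel`,
`node_rel`, `FF_sinh`; `ψ_n → 0` gives `ζ_n → ∞` and `sinh κζ_{n+1}/sinh κζ_n → exp κ`. -/
theorem YData.nonempty_seqTrap {e κ : ℝ} (he : 1 < e) (hκ : 0 < κ) (Y : YData e κ) :
    Nonempty (SeqTrap e (Real.exp κ)) := by
  have he0 : 0 < e := by linarith
  -- facts for real fixed sequences
  have hlink : ∀ p : ℝ, (p : ℂ) ∈ Y.D → ∀ x : ℕ → ℂ, InTrap Y.K Y.P p x →
      (∀ n, (x n).im = 0) → (∀ n, x n = Phi e κ p x n) → ∀ n,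
      (Real.sinh (κ * (zt (p : ℂ) x (n + 1)).re) - Real.sinh (κ * (zt (p : ℂ) x n).re)) ^ (-e) =
        CC e (Real.exp κ) * (G e κ (((zt (p : ℂ) x (n + 1)).re : ℝ) : ℂ)).re *
          (1 - (x (2 * n)).re) := by
    intro p hp x hx hxr hfix n
    have hn := Y.node _ hp x hx n
    have h1 := hfix (2 * n + 1)
    rw [Data_Phi_odd, Data_zt_real p hxr (n + 1), Data_re (hxr (2 * n)),
      Data_re (hxr (2 * n + 1))] at h1
    have hc : (x (2 * n)).re < 1 :=
      ((re_le_norm _).trans (hx n).1).trans_lt (Y.K_lt _ hp n)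
    have hψ : -1 < (x (2 * n + 1)).re := by
      have h2 := ((abs_re_le_norm (x (2 * n + 1))).trans (hx n).2).trans_lt (Y.P_lt _ hp n)
      exact (abs_lt.1 h2).1
    have h3 := link_rel he0 hκ hn.1 hc hψ h1.symm
    have e1 : (zt (p : ℂ) x (n + 1)).re - 1 - (x (2 * n + 1)).re = (zt (p : ℂ) x n).re := by
      rw [Data_zt_succ, add_re, add_re, one_re]
      ring
    rw [e1] at h3
    exact h3
  refine ⟨{
    θ := Y.θ
    hθ0 := Y.hθ0
    hθ1 := Y.hθ1
    D := Y.D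
    isOpen_D := Y.isOpen_D
    R := fun p k => if k % 2 = 0 then Y.K p (k / 2) else Y.P p (k / 2)
    R_pos := ?_
    R_cont := ?_
    Φ := Phi e κ
    maps := ?_
    hol := Y.hol he0 hκ
    real := ?_
    tr := fun p => Real.sinh (κ * p)
    s := fun p x n => Real.sinh (κ * (zt (p : ℂ) x n).re)
    orbit := ?_
    H := fun p x => G e κ (zt p x 1) * (1 - x 0) / cosh (κ * p) ^ (-(e : ℂ))
    hol_H := ?_
    H_real := ?_
    η := Y.η
    hη := Y.hη
    seg := Y.seg
    δ := 1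
    hδ := one_pos
    odd := ?_
    test := ?_ }⟩
  · intro p hp n
    split_ifs
    · exact Y.K_pos p hp _
    · exact Y.P_pos p hp _
  · intro s hs ε hε
    filter_upwards [Y.K_cont s hs ε hε, Y.P_cont s hs ε hε] with t h1 h2 n
    split_ifs
    · exact h1 _
    · exact h2 _
  · intro p hp x hx n
    have hT := Data_inTrap hx
    rcases Nat.even_or_odd' n with ⟨m, rfl | rfl⟩
    · rw [Data_Phi_even]
      simp only [show 2 * m % 2 = 0 by omega, show 2 * m / 2 = m by omega, if_true]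
      exact Y.inv_c p hp x hT m
    · rw [Data_Phi_odd]
      simp only [show (2 * m + 1) % 2 = 1 by omega, show (2 * m + 1) / 2 = m by omega,
        one_ne_zero, if_false]
      exact Y.inv_ψ p hp x hT m
  · intro p hp x hx hxr n
    have hT := Data_inTrap hx
    rcases Nat.even_or_odd' n with ⟨m, rfl | rfl⟩
    · rw [Data_Phi_even, Data_zt_real p hxr (m + 1), Data_re (hxr (2 * m + 3)),
        Data_re (hxr (2 * m + 2))]
      have n1 := (Y.node _ hp x hT m).1
      have n2 := (Y.node _ hp x hT (m + 1)).1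
      refine CY_ofReal he0 hκ (by linarith) ?_
      have e1 : (zt (p : ℂ) x (m + 1 + 1)).re =
          (zt (p : ℂ) x (m + 1)).re + 1 + (x (2 * m + 3)).re := by
        rw [Data_zt_succ _ _ (m + 1)]
        simp [show 2 * (m + 1) + 1 = 2 * m + 3 by ring]
      rw [← e1]
      linarith
    · rw [Data_Phi_odd, Data_zt_real p hxr (m + 1), Data_re (hxr (2 * m + 1)),
        Data_re (hxr (2 * m))]
      have n1 := (Y.node _ hp x hT m).1
      exact PY_ofReal he0 hκ n1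
        (((re_le_norm _).trans (hT m).1).trans_lt (Y.K_lt _ hp m))
  · intro p hp x hx hxr hfix
    have hT := Data_inTrap hx
    have hstep : ∀ n, (zt (p : ℂ) x (n + 1)).re =
        (zt (p : ℂ) x n).re + 1 + (x (2 * n + 1)).re := by
      intro n
      rw [Data_zt_succ]
      simp
    have hψ : ∀ n, |(x (2 * n + 1)).re| ≤ Y.P p n := fun n =>
      (abs_re_le_norm _).trans (hT n).2
    have hyt : Tendsto (fun n => (x (2 * n + 1)).re) atTop (𝓝 0) :=
      squeeze_zero_norm (fun n => by rw [Real.norm_eq_abs]; exact hψ n) (Y.P_tend _ hp)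
    refine ⟨?_, ?_, ?_, ?_, ?_⟩
    · simp [zt]
    · intro n
      rw [Real.sinh_lt_sinh, hstep n]
      have h1 := (abs_lt.1 ((hψ n).trans_lt (Y.P_lt _ hp n))).1
      nlinarith
    · intro n
      rw [hlink p hp x hT hxr hfix n, hlink p hp x hT hxr hfix (n + 1), FF_sinh]
      have n1 := (Y.node _ hp x hT n).1
      have n2 := (Y.node _ hp x hT (n + 1)).1
      have h1 := hfix (2 * n)
      rw [Data_Phi_even, Data_zt_real p hxr (n + 1), Data_re (hxr (2 * n)),
        Data_re (hxr (2 * n + 3)), Data_re (hxr (2 * n + 2))] at h1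
      have e1 : (zt (p : ℂ) x (n + 1 + 1)).re =
          (zt (p : ℂ) x (n + 1)).re + 1 + (x (2 * n + 3)).re := by
        rw [hstep (n + 1)]
        simp [show 2 * (n + 1) + 1 = 2 * n + 3 by ring]
      have h2 := node_rel he0 hκ (ζ := (zt (p : ℂ) x (n + 1)).re) (ψ := (x (2 * n + 3)).re)
        (c := (x (2 * n)).re) (c' := (x (2 * n + 2)).re) (by linarith) (by rw [← e1]; linarith)
        h1.symm
      rw [← h2, e1, show 2 * (n + 1) = 2 * n + 2 by ring]
      push_cast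
      ring
    · have h1 : Tendsto (fun n => κ * (zt (p : ℂ) x n).re) atTop atTop :=
        (Data_tendsto (z := fun n => (zt (p : ℂ) x n).re) (y := fun n => (x (2 * n + 1)).re)
          hstep hyt).const_mul_atTop hκ
      refine tendsto_atTop_mono' _ ?_ h1
      filter_upwards [h1.eventually_ge_atTop 0] with n hn
      exact Real.self_le_sinh_iff.2 hn
    · exact Data_ratio (z := fun n => (zt (p : ℂ) x n).re) (y := fun n => (x (2 * n + 1)).re)
        hκ hstep hyt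
  · intro x hx hT z hz
    apply DifferentiableAt.differentiableWithinAt
    have hO' := Y.isOpen_D.mem_nhds hz
    have dx : ∀ n, DifferentiableAt ℂ (fun w => x w n) z := fun n => (hx n).differentiableAt hO'
    have hz' := Data_inTrap (hT z hz)
    have n1 := Y.node _ hz _ hz' 0
    have dz : DifferentiableAt ℂ (fun w => zt w (x w) 1) z :=
      Data_zt_diff (τ := fun w => w) differentiableAt_id dx 1
    have dG : DifferentiableAt ℂ (fun w => G e κ (zt w (x w) 1)) z :=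
      DifferentiableAt.comp (g := G e κ) z (Data_G_diff he0 hκ (by linarith [n1.1]) n1.2) dz
    have dκ : DifferentiableAt ℂ (fun w : ℂ => (κ : ℂ) * w) z := differentiableAt_id.const_mul _
    have dc : DifferentiableAt ℂ (fun w : ℂ => cosh (κ * w) ^ (-(e : ℂ))) z :=
      dκ.ccosh.cpow_const (Data_cosh_slit hκ (Y.strip z hz))
    refine (dG.mul ((dx 0).const_sub 1)).div dc ?_
    rw [Ne, cpow_eq_zero_iff]
    rintro ⟨h1, -⟩
    exact Data_cosh_ne hκ (Y.strip z hz) h1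
  · intro p hp x hx hxr hfix
    have hT := Data_inTrap hx
    have h1 := hlink p hp x hT hxr hfix 0
    have n1 := (Y.node _ hp x hT 0).1
    obtain ⟨y, hy, hGy⟩ := G_ofReal he0 hκ (ζ := (zt (p : ℂ) x 1).re) (by linarith)
    have e0 : (zt (p : ℂ) x 0).re = p := by simp [zt]
    simp only [zero_add, mul_zero] at h1
    rw [e0] at h1
    rw [hGy, ofReal_re] at h1
    have eL : G e κ (zt (p : ℂ) x 1) = (y : ℂ) := by
      rw [Data_zt_real p hxr 1]
      exact hGy
    have hC : CC e (Real.exp κ) ≠ 0 := (CC_pos (Real.one_lt_exp_iff.2 hκ)).ne'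
    have hch : (Real.cosh (κ * p)) ^ (-e) ≠ 0 := (Real.rpow_pos_of_pos (Real.cosh_pos _) _).ne'
    have e2 : cosh ((κ : ℂ) * (p : ℂ)) ^ (-(e : ℂ)) = ((Real.cosh (κ * p) ^ (-e) : ℝ) : ℂ) := by
      rw [ofReal_cpow (Real.cosh_pos _).le]
      push_cast
      rfl
    have e3 : CC e (Real.exp κ) * y * (1 - (x 0).re) /
        (CC e (Real.exp κ) * Real.cosh (κ * p) ^ (-e)) =
        y * (1 - (x 0).re) / Real.cosh (κ * p) ^ (-e) := by
      field_simp
    have e4 : (1 - x 0 : ℂ) = ((1 - (x 0).re : ℝ) : ℂ) := by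
      rw [ofReal_sub, ofReal_one, ← Data_re (hxr 0)]
    rw [e0, h1, FF_sinh, eL, e2, e3, e4]
    push_cast
    rfl
  · intro p _
    rw [mul_neg, Real.sinh_neg]
  · intro x hx hfix
    exact Y.test x (Data_inTrap hx) hfix

end Pool.Agent.helper31.EQ.Y
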