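import Pool.Agent.helper31.EQ.SeqTrap
import Pool.Agent.helper31.EQ.Y.Alg

/-!
# EQ-Y6: the estimates that are needed, version with the unknowns `ψ_n` only (`YData2`)

Unknowns: the link deviations `ψ_n = x n`; positions `ζ_n = p + n + Σ_{j<n} ψ_j`; values
`V_n = Σ_k (-1)^k (cosh κζ_{n+1+k})^(-e)` (defined by the positions), `1 - c_n = V_n / G(ζ_{n+1})`;
new unknown `PY(ζ_{n+1}, ψ_n, c_n)`.
-/

namespace Pool.Agent.helper31.EQ.Y

open Complex Set Metric Filter Topology ComplexConjugate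

noncomputable section

/-- Positions. -/
def zp (p : ℂ) (x : ℕ → ℂ) (n : ℕ) : ℂ := p + n + ∑ j ∈ Finset.range n, x j

/-- Values. -/
def Vs (e κ : ℝ) (p : ℂ) (x : ℕ → ℂ) (n : ℕ) : ℂ :=
  ∑' k : ℕ, (-1 : ℂ) ^ k * cosh (κ * zp p x (n + 1 + k)) ^ (-(e : ℂ))

def cs (e κ : ℝ) (p : ℂ) (x : ℕ → ℂ) (n : ℕ) : ℂ := 1 - Vs e κ p x n / G e κ (zp p x (n + 1))

def Phi2 (e κ : ℝ) (p : ℂ) (x : ℕ → ℂ) (n : ℕ) : ℂ :=
  PY e κ (zp p x (n + 1)) (x n) (cs e κ p x n)

/-- The estimates. -/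
structure YData2 (e κ : ℝ) where
  θ : ℝ
  hθ0 : 0 ≤ θ
  hθ1 : θ < 1
  D : Set ℂ
  isOpen_D : IsOpen D
  P : ℂ → ℕ → ℝ
  P_pos : ∀ p ∈ D, ∀ n, 0 < P p n
  P_cont : ∀ s ∈ D, ∀ ε > 0, ∀ᶠ t in 𝓝 s, ∀ n,
    P t n ≤ (1 + ε) * P s n ∧ P s n ≤ (1 + ε) * P t n
  P_lt : ∀ p ∈ D, ∀ n, P p n < 1
  P_tend : ∀ p ∈ D, Tendsto (P p) atTop (𝓝 0)
  strip : ∀ p ∈ D, |p.im| < Real.pi / (2 * κ)
  node : ∀ p ∈ D, ∀ x : ℕ → ℂ, (∀ n, ‖x n‖ ≤ P p n) → ∀ n, 1 / 2 < (zp p x (n + 1)).re ∧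
    |(zp p x (n + 1)).im| < Real.pi / (2 * κ)
  /-- `|c_n| < 1` -/
  c_lt : ∀ p ∈ D, ∀ x : ℕ → ℂ, (∀ n, ‖x n‖ ≤ P p n) → ∀ n, ‖cs e κ p x n‖ < 1
  re_PW : ∀ p ∈ D, ∀ x : ℕ → ℂ, (∀ n, ‖x n‖ ≤ P p n) → ∀ n : ℕ,
    0 < (PW e κ (zp p x (n + 1)) (x n) (cs e κ p x n)).re
  inv_ψ : ∀ p ∈ D, ∀ x : ℕ → ℂ, (∀ n, ‖x n‖ ≤ P p n) → ∀ n, ‖Phi2 e κ p x n‖ ≤ θ * P p n
  η : ℝ
  hη : 0 < η
  seg : ∀ y : ℝ, |y| ≤ η → ((y : ℂ) * I) ∈ D
  test : ∀ x : ℕ → ℂ, (∀ n, ‖x n‖ ≤ P ((η : ℂ) * I) n) →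
    (∀ n, x n = Phi2 e κ ((η : ℂ) * I) x n) →
    (Vs e κ ((η : ℂ) * I) x 0 / cosh (κ * ((η : ℂ) * I)) ^ (-(e : ℂ))).re ≠ 1 / 2

private theorem Data2_cosh_ne {κ : ℝ} (hκ : 0 < κ) {ζ : ℂ} (h : |ζ.im| < Real.pi / (2 * κ)) :
    cosh (κ * ζ) ≠ 0 := by
  intro h0
  have := re_cosh_pos hκ h
  rw [h0] at this
  simp at this

private theorem Data2_cosh_slit {κ : ℝ} (hκ : 0 < κ) {ζ : ℂ} (h : |ζ.im| < Real.pi / (2 * κ)) :
    cosh (κ * ζ) ∈ slitPlane := Or.inl (re_cosh_pos hκ h)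

private theorem Data2_f_ne {e κ : ℝ} (he : 0 < e) (hκ : 0 < κ) {ζ : ℂ} (h : 0 < ζ.re) :
    f e κ ζ ≠ 0 := by
  intro h0
  have := half_lt_re_f he hκ h
  rw [h0] at this
  norm_num at this

private theorem Data2_G_ne {e κ : ℝ} (he : 0 < e) (hκ : 0 < κ) {ζ : ℂ} (h : 0 < ζ.re)
    (h' : |ζ.im| < Real.pi / (2 * κ)) : G e κ ζ ≠ 0 := by
  unfold G
  refine mul_ne_zero ?_ (Data2_f_ne he hκ h)
  rw [Ne, cpow_eq_zero_iff]
  rintro ⟨h1, -⟩
  exact Data2_cosh_ne hκ h' h1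

private theorem Data2_f_diff {e κ : ℝ} (he : 0 < e) (hκ : 0 < κ) {ζ : ℂ} (h : 0 < ζ.re) :
    DifferentiableAt ℂ (f e κ) ζ :=
  (differentiableOn_f he hκ).differentiableAt
    ((isOpen_lt continuous_const continuous_re).mem_nhds h)

private theorem Data2_G_diff {e κ : ℝ} (he : 0 < e) (hκ : 0 < κ) {ζ : ℂ} (h : 0 < ζ.re)
    (h' : |ζ.im| < Real.pi / (2 * κ)) : DifferentiableAt ℂ (G e κ) ζ := by
  refine (differentiableOn_G he hκ).differentiableAt (IsOpen.mem_nhds ?_ ⟨h, h'⟩)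
  exact (isOpen_lt continuous_const continuous_re).inter
    (isOpen_lt continuous_im.abs continuous_const)

private theorem Data2_sqrt_re (w : ℂ) : 0 ≤ (w ^ (1 / 2 : ℂ)).re := by
  by_cases hw : w = 0
  · rw [hw, zero_cpow (by norm_num)]
    simp
  · rw [cpow_def_of_ne_zero hw, exp_re]
    refine mul_nonneg (Real.exp_pos _).le (Real.cos_nonneg_of_mem_Icc ?_)
    have e1 : (log w * (1 / 2)).im = arg w / 2 := by
      have : (1 / 2 : ℂ) = ((1 / 2 : ℝ) : ℂ) := by norm_num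
      rw [this, mul_comm, im_ofReal_mul, log_im]
      ring
    rw [e1]
    have h1 := neg_pi_lt_arg w
    have h2 := arg_le_pi w
    constructor <;> linarith

private theorem Data2_one_add_sq {w : ℂ} (h : 0 < w.re) : 1 + w ^ 2 ∈ slitPlane := by
  rw [mem_slitPlane_iff]
  by_cases hi : w.im = 0
  · left
    have : (1 + w ^ 2).re = 1 + w.re ^ 2 - w.im ^ 2 := by
      simp [sq]; ring
    rw [this, hi]
    nlinarith [sq_nonneg w.re]
  · right
    have : (1 + w ^ 2).im = 2 * w.re * w.im := by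
      simp [sq]; ring
    rw [this]
    exact mul_ne_zero (mul_ne_zero two_ne_zero h.ne') hi

private theorem Data2_ash_diff {w : ℂ} (h : 0 < w.re) : DifferentiableAt ℂ ash w := by
  unfold ash
  have h1 : DifferentiableAt ℂ (fun w : ℂ => 1 + w ^ 2) w :=
    (differentiableAt_id.pow 2).const_add 1
  have h2 : DifferentiableAt ℂ (fun w : ℂ => (1 + w ^ 2) ^ (1 / 2 : ℂ)) w :=
    h1.cpow_const (Data2_one_add_sq h)
  refine (differentiableAt_id.add h2).clog ?_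
  left
  change 0 < (w + (1 + w ^ 2) ^ (1 / 2 : ℂ)).re
  rw [add_re]
  have := Data2_sqrt_re (1 + w ^ 2)
  linarith

private theorem Data2_Lam_diff {e κ : ℝ} (he : 0 < e) (hκ : 0 < κ) {ζ : ℂ} (h : 1 / 2 < ζ.re)
    (h' : |ζ.im| < Real.pi / (2 * κ)) : DifferentiableAt ℂ (Lam e κ) ζ := by
  have h0 : 0 < ζ.re := by linarith
  have dκ : DifferentiableAt ℂ (fun w : ℂ => (κ : ℂ) * w) ζ := differentiableAt_id.const_mul _
  have dt : DifferentiableAt ℂ (fun w : ℂ => tanh (κ * w)) ζ := by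
    have e1 : (fun w : ℂ => tanh (κ * w)) = fun w => sinh (κ * w) / cosh (κ * w) := by
      funext w
      rw [tanh_eq_sinh_div_cosh]
    rw [e1]
    exact dκ.csinh.div dκ.ccosh (Data2_cosh_ne hκ h')
  have df : DifferentiableAt ℂ (f e κ) ζ := Data2_f_diff he hκ h0
  unfold Lam
  refine ((DifferentiableAt.clog (df.const_mul 2) ?_).add
    ((DifferentiableAt.clog ((dt.mul_const _).const_sub _) ?_).const_mul _)).add_const _
  · left
    have h1 := half_lt_re_f he hκ h0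
    have e2 : (2 * f e κ ζ).re = 2 * (f e κ ζ).re := by simp
    rw [e2]
    linarith
  · left
    exact re_half_pos hκ h

/-- the denominator of `PW` -/
private theorem Data2_den_ne {κ : ℝ} (hκ : 0 < κ) {ζ ψ : ℂ} (h : |ζ.im| < Real.pi / (2 * κ))
    (h' : |(ζ - 1 - ψ).im| < Real.pi / (2 * κ)) :
    cosh (κ * ψ / 2) - tanh (κ * (ζ - 1 / 2)) * sinh (κ * ψ / 2) ≠ 0 := by
  have hc : cosh (κ * (ζ - 1 / 2)) ≠ 0 := by
    apply Data2_cosh_ne hκ
    rw [show (ζ - 1 / 2).im = ζ.im by simp]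
    exact h
  have hm : cosh (κ * (ζ - 1 / 2 - ψ / 2)) ≠ 0 := by
    apply Data2_cosh_ne hκ
    have e1 : (ζ - 1 / 2 - ψ / 2).im = (ζ.im + (ζ - 1 - ψ).im) / 2 := by
      simp; ring
    rw [e1, abs_lt]
    rw [abs_lt] at h h'
    constructor <;> linarith [h.1, h.2, h'.1, h'.2]
  have e2 : cosh (κ * ψ / 2) - tanh (κ * (ζ - 1 / 2)) * sinh (κ * ψ / 2) =
      cosh (κ * (ζ - 1 / 2 - ψ / 2)) / cosh (κ * (ζ - 1 / 2)) := by
    rw [tanh_eq_sinh_div_cosh, eq_div_iff hc,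
      show (κ : ℂ) * (ζ - 1 / 2 - ψ / 2) = κ * (ζ - 1 / 2) - κ * ψ / 2 by ring, cosh_sub,
      sub_mul, div_mul_eq_mul_div, div_mul_cancel₀ _ hc]
    ring
  rw [e2]
  exact div_ne_zero hm hc

private theorem Data2_PY_diff {e κ : ℝ} (he : 0 < e) (hκ : 0 < κ) {ζ ψ c : ℂ → ℂ} {z : ℂ}
    (dζ : DifferentiableAt ℂ ζ z) (dψ : DifferentiableAt ℂ ψ z) (dc : DifferentiableAt ℂ c z)
    (h1 : 1 / 2 < (ζ z).re) (h2 : |(ζ z).im| < Real.pi / (2 * κ))
    (h3 : |(ζ z - 1 - ψ z).im| < Real.pi / (2 * κ)) (h4 : ‖c z‖ < 1)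
    (h5 : 0 < (PW e κ (ζ z) (ψ z) (c z)).re) :
    DifferentiableAt ℂ (fun w => PY e κ (ζ w) (ψ w) (c w)) z := by
  have dL : DifferentiableAt ℂ (fun w => Lam e κ (ζ w)) z :=
    DifferentiableAt.comp (g := Lam e κ) z (Data2_Lam_diff he hκ h1 h2) dζ
  have dl : DifferentiableAt ℂ (fun w => log (1 - c w)) z := by
    refine (dc.const_sub 1).clog ?_
    left
    rw [sub_re, one_re]
    have := (re_le_norm (c z))
    linarith
  have dp : DifferentiableAt ℂ (fun w => (κ : ℂ) * ψ w / 2) z := (dψ.const_mul _).div_const _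
  have dq : DifferentiableAt ℂ (fun w => (κ : ℂ) * (ζ w - 1 / 2)) z :=
    (dζ.sub_const _).const_mul _
  have hc : cosh (κ * (ζ z - 1 / 2)) ≠ 0 := by
    apply Data2_cosh_ne hκ
    rw [show (ζ z - 1 / 2).im = (ζ z).im by simp]
    exact h2
  have dt : DifferentiableAt ℂ (fun w => tanh (κ * (ζ w - 1 / 2))) z := by
    have e1 : (fun w : ℂ => tanh (κ * (ζ w - 1 / 2))) =
        fun w => sinh (κ * (ζ w - 1 / 2)) / cosh (κ * (ζ w - 1 / 2)) := by
      funext w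
      rw [tanh_eq_sinh_div_cosh]
    rw [e1]
    exact dq.csinh.div dq.ccosh hc
  have dd : DifferentiableAt ℂ (fun w => cosh (κ * ψ w / 2) -
      tanh (κ * (ζ w - 1 / 2)) * sinh (κ * ψ w / 2)) z := dp.ccosh.sub (dt.mul dp.csinh)
  have dW : DifferentiableAt ℂ (fun w => PW e κ (ζ w) (ψ w) (c w)) z := by
    unfold PW
    refine DifferentiableAt.div ?_ dd (Data2_den_ne hκ h2 h3)
    exact (((dL.add dl).neg.div_const _).cexp).const_mul _
  have dA : DifferentiableAt ℂ (fun w => ash (PW e κ (ζ w) (ψ w) (c w))) z :=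
    DifferentiableAt.comp (g := ash) z (Data2_ash_diff h5) dW
  unfold PY
  exact (dA.const_mul _).sub_const _

private theorem Data2_re {w : ℂ} (h : w.im = 0) : w = ((w.re : ℝ) : ℂ) := by
  apply Complex.ext
  · simp
  · simp [h]

/-- the positions tend to infinity -/
private theorem Data2_tendsto {z : ℕ → ℝ} {y : ℕ → ℝ} (h : ∀ n, z (n + 1) = z n + 1 + y n)
    (hy : Tendsto y atTop (𝓝 0)) : Tendsto z atTop atTop := by
  have h1 : ∀ᶠ n in atTop, -(1 / 2 : ℝ) < y n := hy.eventually_const_lt (by norm_num)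
  obtain ⟨N, hN⟩ := eventually_atTop.1 h1
  have h2 : ∀ k : ℕ, z N + (k : ℝ) * (1 / 2) ≤ z (N + k) := by
    intro k
    induction k with
    | zero => simp
    | succ k ih =>
      have h3 := h (N + k)
      have h4 := hN (N + k) (by omega)
      rw [← add_assoc, h3]
      push_cast
      linarith
  have h5 : Tendsto (fun k : ℕ => z (N + k)) atTop atTop := by
    refine tendsto_atTop_mono h2 ?_
    refine tendsto_atTop_add_const_left _ _ ?_
    exact (tendsto_natCast_atTop_atTop).atTop_mul_const (by norm_num)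
  have h6 : Tendsto (fun k : ℕ => z (k + N)) atTop atTop := by
    refine h5.congr fun k => ?_
    rw [add_comm]
  exact (tendsto_add_atTop_iff_nat N).1 h6

/-- the ratio of the slopes -/
private theorem Data2_ratio {κ : ℝ} (hκ : 0 < κ) {z : ℕ → ℝ} {y : ℕ → ℝ}
    (h : ∀ n, z (n + 1) = z n + 1 + y n)
    (hy : Tendsto y atTop (𝓝 0)) :
    Tendsto (fun n => Real.sinh (κ * z (n + 1)) / Real.sinh (κ * z n)) atTop
      (𝓝 (Real.exp κ)) := by
  have hz := Data2_tendsto h hy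
  have hzκ : Tendsto (fun n => κ * z n) atTop atTop := hz.const_mul_atTop hκ
  have hpos : ∀ᶠ n in atTop, 0 < κ * z n := hzκ.eventually_gt_atTop 0
  -- coth → 1
  have hE : Tendsto (fun n => Real.exp (-(2 * (κ * z n)))) atTop (𝓝 0) := by
    refine Real.tendsto_exp_neg_atTop_nhds_zero.comp ?_
    exact hzκ.const_mul_atTop (by norm_num)
  have hc : Tendsto (fun n => (1 + Real.exp (-(2 * (κ * z n)))) /
      (1 - Real.exp (-(2 * (κ * z n))))) atTop (𝓝 1) := by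
    have h0 : Tendsto (fun n => (1 + Real.exp (-(2 * (κ * z n)))) /
        (1 - Real.exp (-(2 * (κ * z n))))) atTop (𝓝 ((1 + 0) / (1 - 0))) :=
      (hE.const_add 1).div (hE.const_sub 1) (by norm_num)
    simpa using h0
  have hcoth : Tendsto (fun n => Real.cosh (κ * z n) / Real.sinh (κ * z n)) atTop (𝓝 1) := by
    refine hc.congr' ?_
    filter_upwards [hpos] with n hn
    have h1 : 0 < Real.sinh (κ * z n) := Real.sinh_pos_iff.2 hn
    have h2 : Real.exp (-(2 * (κ * z n))) = Real.exp (-(κ * z n)) * Real.exp (-(κ * z n)) := by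
      rw [← Real.exp_add]; congr 1; ring
    have h3 : Real.exp (κ * z n) * Real.exp (-(κ * z n)) = 1 := by
      rw [← Real.exp_add]; simp
    have h4 : 0 < 1 - Real.exp (-(2 * (κ * z n))) := by
      rw [sub_pos, Real.exp_lt_one_iff]
      linarith
    rw [div_eq_div_iff h4.ne' h1.ne', Real.sinh_eq, Real.cosh_eq, h2]
    set a := Real.exp (κ * z n)
    set b := Real.exp (-(κ * z n))
    linear_combination (b) * h3
  have h7 : Tendsto (fun n => κ * (1 + y n)) atTop (𝓝 κ) := by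
    have := (hy.const_add 1).const_mul κ
    simpa using this
  have h8 : Tendsto (fun n => Real.cosh (κ * (1 + y n)) +
      Real.cosh (κ * z n) / Real.sinh (κ * z n) * Real.sinh (κ * (1 + y n))) atTop
      (𝓝 (Real.cosh κ + 1 * Real.sinh κ)) :=
    ((Real.continuous_cosh.tendsto κ).comp h7).add
      (hcoth.mul ((Real.continuous_sinh.tendsto κ).comp h7))
  rw [one_mul, Real.cosh_add_sinh] at h8
  refine h8.congr' ?_
  filter_upwards [hpos] with n hn
  have h1 : 0 < Real.sinh (κ * z n) := Real.sinh_pos_iff.2 hn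
  rw [h n, show κ * (z n + 1 + y n) = κ * z n + κ * (1 + y n) by ring, Real.sinh_add]
  field_simp


private theorem Data2_zp_succ (p : ℂ) (x : ℕ → ℂ) (n : ℕ) :
    zp p x (n + 1) = zp p x n + 1 + x n := by
  unfold zp
  rw [Finset.sum_range_succ]
  push_cast
  ring

private theorem Data2_zp_diff {τ : ℂ → ℂ} {x : ℂ → ℕ → ℂ} {z : ℂ}
    (hτ : DifferentiableAt ℂ τ z) (hx : ∀ n, DifferentiableAt ℂ (fun w => x w n) z) (n : ℕ) :
    DifferentiableAt ℂ (fun w => zp (τ w) (x w) n) z := by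
  unfold zp
  refine (hτ.add_const _).add ?_
  exact DifferentiableAt.fun_sum fun i _ => hx _

private theorem Data2_strip {e κ : ℝ} (Y : YData2 e κ) {p : ℂ} (hp : p ∈ Y.D) {x : ℕ → ℂ}
    (hx : ∀ n, ‖x n‖ ≤ Y.P p n) (n : ℕ) : |(zp p x n).im| < Real.pi / (2 * κ) := by
  rcases n with _ | n
  · have : zp p x 0 = p := by simp [zp]
    rw [this]
    exact Y.strip p hp
  · exact (Y.node p hp x hx n).2

private theorem Data2_zp_real (p : ℝ) {x : ℕ → ℂ} (hx : ∀ n, (x n).im = 0) (n : ℕ) :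
    zp (p : ℂ) x n = (((zp (p : ℂ) x n).re : ℝ) : ℂ) := by
  apply Complex.ext
  · simp
  · have h : (zp (p : ℂ) x n).im = 0 := by
      unfold zp
      simp [hx]
    simp [h]

/-- `‖cosh w‖ ≥ sinh (Re w)` -/
private theorem Data2_norm_cosh (w : ℂ) : Real.sinh w.re ≤ ‖cosh w‖ := by
  have h1 : cosh w = (exp w + exp (-w)) / 2 := rfl
  have h2 : ‖exp w‖ - ‖exp (-w)‖ ≤ ‖exp w + exp (-w)‖ := by
    have := norm_sub_le (exp w + exp (-w)) (exp (-w))
    rw [add_sub_cancel_right] at this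
    linarith
  rw [norm_exp, norm_exp, neg_re] at h2
  rw [h1, norm_div, Real.sinh_eq, RCLike.norm_ofNat]
  linarith

/-- `sinh y ≥ (1 - exp (-κ)) / 2 * exp y` for `y ≥ κ/2` -/
private theorem Data2_sinh_ge {κ y : ℝ} (h : κ / 2 ≤ y) :
    (1 - Real.exp (-κ)) / 2 * Real.exp y ≤ Real.sinh y := by
  rw [Real.sinh_eq]
  have h1 : Real.exp (-y) ≤ Real.exp (-κ) * Real.exp y := by
    rw [← Real.exp_add, Real.exp_le_exp]
    linarith
  nlinarith

/-- Growth of the positions: `Re ζ_n ≥ n/2 - c` for some `c` (as `P p n → 0`, `P p n < 1`), locally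
uniformly in `p` by `P_cont`. -/
theorem YData2.growth {e κ : ℝ} (Y : YData2 e κ) {s : ℂ} (hs : s ∈ Y.D) :
    ∃ c : ℝ, ∀ᶠ p in 𝓝 s, ∀ x : ℕ → ℂ, (∀ n, ‖x n‖ ≤ Y.P p n) → ∀ n : ℕ,
      (n : ℝ) / 2 - c ≤ (zp p x n).re := by
  obtain ⟨N, hN⟩ := eventually_atTop.1 ((Y.P_tend s hs).eventually_le_const
    (show (0 : ℝ) < 1 / 4 by norm_num))
  refine ⟨1 - s.re + N / 2, ?_⟩
  have h1 : ∀ᶠ p in 𝓝 s, p ∈ Y.D := Y.isOpen_D.mem_nhds hs
  have h2 : ∀ᶠ p in 𝓝 s, s.re - 1 < p.re :=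
    continuous_re.continuousAt.eventually_const_lt (by linarith)
  filter_upwards [h1, h2, Y.P_cont s hs 1 one_pos] with p hp hp2 hp3 x hx n
  have h4 : ∀ j, -(x j).re ≤ 1 / 2 + (if j < N then 1 / 2 else 0) := by
    intro j
    have h5 := (neg_le_abs _).trans ((abs_re_le_norm (x j)).trans (hx j))
    split_ifs with hj
    · have := Y.P_lt p hp j
      linarith
    · have h6 := hN j (by omega)
      have h7 := (hp3 j).1
      linarith
  have h5 : ∀ m : ℕ, -(∑ j ∈ Finset.range m, x j).re ≤ m / 2 + (min m N : ℕ) / 2 := by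
    intro m
    induction m with
    | zero => simp
    | succ m ih =>
      rw [Finset.sum_range_succ, add_re]
      have h6 := h4 m
      split_ifs at h6 with hm
      · have e1 : min (m + 1) N = m + 1 := by omega
        have e2 : min m N = m := by omega
        rw [e2] at ih
        rw [e1]
        push_cast at ih ⊢
        linarith
      · have e1 : min (m + 1) N = N := by omega
        have e2 : min m N = N := by omega
        rw [e2] at ih
        rw [e1]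
        push_cast at ih ⊢
        linarith
  have h6 := h5 n
  have h7 : ((min n N : ℕ) : ℝ) ≤ N := by exact_mod_cast min_le_right n N
  unfold zp
  rw [add_re, add_re, natCast_re]
  linarith

/-- Summability of the defining series of `Vs`, with a bound uniform near a start:
`‖cosh κζ‖ ≥ sinh κ Re ζ`, `‖cosh(κζ)^(-e)‖ = ‖cosh κζ‖^(-e)`. -/
theorem YData2.summable {e κ : ℝ} (he : 0 < e) (hκ : 0 < κ) (Y : YData2 e κ) {s : ℂ}
    (hs : s ∈ Y.D) : ∃ u : ℕ → ℝ, Summable u ∧ ∀ᶠ p in 𝓝 s, ∀ x : ℕ → ℂ,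
      (∀ n, ‖x n‖ ≤ Y.P p n) → ∀ n, ‖cosh (κ * zp p x (n + 1)) ^ (-(e : ℂ))‖ ≤ u n := by
  obtain ⟨c, hc⟩ := Y.growth hs
  have hA : 0 < (1 - Real.exp (-κ)) / 2 := by
    have : Real.exp (-κ) < 1 := Real.exp_lt_one_iff.2 (by linarith)
    linarith
  refine ⟨fun n => ((1 - Real.exp (-κ)) / 2 * Real.exp (κ * (1 / 2 - c))) ^ (-e) *
    (Real.exp (κ / 2 * (-e))) ^ n, ?_, ?_⟩
  · refine (summable_geometric_of_lt_one (Real.exp_pos _).le ?_).mul_left _
    rw [Real.exp_lt_one_iff]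
    nlinarith [mul_pos he hκ]
  · have h1 : ∀ᶠ p in 𝓝 s, p ∈ Y.D := Y.isOpen_D.mem_nhds hs
    filter_upwards [h1, hc] with p hp hg x hx n
    have h2 := (Y.node p hp x hx n).1
    have h3 := hg x hx (n + 1)
    rw [show (-(e : ℂ)) = ((-e : ℝ) : ℂ) by push_cast; rfl, norm_cpow_real]
    have h4 : Real.sinh (κ * (zp p x (n + 1)).re) ≤ ‖cosh (κ * zp p x (n + 1))‖ := by
      have := Data2_norm_cosh (κ * zp p x (n + 1))
      rwa [re_ofReal_mul] at this
    have h5 : (1 - Real.exp (-κ)) / 2 * Real.exp (κ * (zp p x (n + 1)).re) ≤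
        Real.sinh (κ * (zp p x (n + 1)).re) := Data2_sinh_ge (by nlinarith)
    have h6 : (1 - Real.exp (-κ)) / 2 * Real.exp (κ * (1 / 2 - c)) * Real.exp (κ / 2 * n) ≤
        (1 - Real.exp (-κ)) / 2 * Real.exp (κ * (zp p x (n + 1)).re) := by
      rw [mul_assoc, ← Real.exp_add]
      refine mul_le_mul_of_nonneg_left (Real.exp_le_exp.2 ?_) hA.le
      push_cast at h3
      nlinarith
    have h7 : 0 < (1 - Real.exp (-κ)) / 2 * Real.exp (κ * (1 / 2 - c)) * Real.exp (κ / 2 * n) :=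
      mul_pos (mul_pos hA (Real.exp_pos _)) (Real.exp_pos _)
    have h8 := Real.rpow_le_rpow_of_nonpos h7 (h6.trans (h5.trans h4)) (by linarith : -e ≤ 0)
    refine h8.trans (le_of_eq ?_)
    rw [Real.mul_rpow (mul_pos hA (Real.exp_pos _)).le (Real.exp_pos _).le, ← Real.exp_mul,
      ← Real.exp_nat_mul]
    congr 2
    ring

private theorem Data2_summable {e κ : ℝ} (he : 0 < e) (hκ : 0 < κ) (Y : YData2 e κ) {p : ℂ}
    (hp : p ∈ Y.D) {x : ℕ → ℂ} (hx : ∀ n, ‖x n‖ ≤ Y.P p n) (n : ℕ) :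
    Summable fun k : ℕ => (-1 : ℂ) ^ k * cosh (κ * zp p x (n + 1 + k)) ^ (-(e : ℂ)) := by
  obtain ⟨u, hu, hb⟩ := Y.summable he hκ hp
  have hb' := hb.self_of_nhds x hx
  refine Summable.of_norm_bounded (g := fun k => u (n + k)) ?_ ?_
  · refine ((summable_nat_add_iff n).2 hu).congr fun k => ?_
    rw [add_comm]
  · intro k
    rw [norm_mul, norm_pow, norm_neg, norm_one, one_pow, one_mul]
    have := hb' (n + k)
    rwa [show n + k + 1 = n + 1 + k by ring] at this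

/-- `V_n + V_{n+1} = (cosh κζ_{n+1})^(-e)`. -/
theorem YData2.Vs_add {e κ : ℝ} (he : 0 < e) (hκ : 0 < κ) (Y : YData2 e κ) {p : ℂ}
    (hp : p ∈ Y.D) {x : ℕ → ℂ} (hx : ∀ n, ‖x n‖ ≤ Y.P p n) (n : ℕ) :
    Vs e κ p x n + Vs e κ p x (n + 1) = cosh (κ * zp p x (n + 1)) ^ (-(e : ℂ)) := by
  have hs := Data2_summable he hκ Y hp hx n
  have h1 := hs.tsum_eq_zero_add
  unfold Vs
  rw [h1]
  simp only [pow_zero, one_mul, add_zero]
  have h2 : (∑' k : ℕ, (-1 : ℂ) ^ (k + 1) * cosh (κ * zp p x (n + 1 + (k + 1))) ^ (-(e : ℂ))) =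
      -∑' k : ℕ, (-1 : ℂ) ^ k * cosh (κ * zp p x (n + 1 + 1 + k)) ^ (-(e : ℂ)) := by
    rw [← tsum_neg]
    congr 1
    funext k
    rw [pow_succ, show n + 1 + (k + 1) = n + 1 + 1 + k by ring]
    ring
  rw [h2]
  ring

/-- holomorphy of `Vs` along analytic families -/
private theorem Data2_Vs_diff {e κ : ℝ} (he : 0 < e) (hκ : 0 < κ) (Y : YData2 e κ) {O : Set ℂ}
    {τ : ℂ → ℂ} {x : ℂ → ℕ → ℂ} (hO : IsOpen O) (hτ : DifferentiableOn ℂ τ O)
    (hmaps : MapsTo τ O Y.D) (hx : ∀ n, DifferentiableOn ℂ (fun z => x z n) O)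
    (hR : ∀ z ∈ O, ∀ n, ‖x z n‖ ≤ Y.P (τ z) n) (n : ℕ) {z : ℂ} (hz : z ∈ O) :
    DifferentiableAt ℂ (fun w => Vs e κ (τ w) (x w) n) z := by
  obtain ⟨u, hu, hb⟩ := Y.summable he hκ (hmaps hz)
  have hcont : ContinuousAt τ z := (hτ.differentiableAt (hO.mem_nhds hz)).continuousAt
  have h1 : ∀ᶠ w in 𝓝 z, w ∈ O ∧ ∀ x : ℕ → ℂ, (∀ n, ‖x n‖ ≤ Y.P (τ w) n) →
      ∀ n, ‖cosh (κ * zp (τ w) x (n + 1)) ^ (-(e : ℂ))‖ ≤ u n :=
    Filter.Eventually.and (hO.mem_nhds hz) (hcont.eventually hb)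
  obtain ⟨U, hU, hUo, hzU⟩ := _root_.mem_nhds_iff.1 h1
  have h2 : DifferentiableOn ℂ (fun w => ∑' k : ℕ, (-1 : ℂ) ^ k *
      cosh (κ * zp (τ w) (x w) (n + 1 + k)) ^ (-(e : ℂ))) U := by
    refine differentiableOn_tsum_of_summable_norm (u := fun k => u (n + k)) ?_ ?_ hUo ?_
    · refine ((summable_nat_add_iff n).2 hu).congr fun k => ?_
      rw [add_comm]
    · intro k w hw
      apply DifferentiableAt.differentiableWithinAt
      have hwO := (hU hw).1
      have dτ : DifferentiableAt ℂ τ w := hτ.differentiableAt (hO.mem_nhds hwO)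
      have dx : ∀ n, DifferentiableAt ℂ (fun w => x w n) w := fun n =>
        (hx n).differentiableAt (hO.mem_nhds hwO)
      have hn := (Y.node _ (hmaps hwO) _ (hR w hwO) (n + k)).2
      rw [show n + k + 1 = n + 1 + k by ring] at hn
      have d1 : DifferentiableAt ℂ (fun w => (κ : ℂ) * zp (τ w) (x w) (n + 1 + k)) w :=
        (Data2_zp_diff dτ dx _).const_mul _
      exact (d1.ccosh.cpow_const (Data2_cosh_slit hκ hn)).const_mul _
    · intro k w hw
      have hw' := hU hw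
      have h3 := hw'.2 (x w) (hR w hw'.1) (n + k)
      rw [norm_mul, norm_pow, norm_neg, norm_one, one_pow, one_mul]
      rwa [show n + k + 1 = n + 1 + k by ring] at h3
  exact h2.differentiableAt (hUo.mem_nhds hzU)

/-- Holomorphy along analytic families (uniform convergence for `Vs`, then compositions as for
`YData.hol`). -/
theorem YData2.hol {e κ : ℝ} (he : 0 < e) (hκ : 0 < κ) (Y : YData2 e κ) :
    HolFamilyR Y.D Y.P (Phi2 e κ) := by
  intro O τ x hO hτ hmaps hx hR n z hz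
  apply DifferentiableAt.differentiableWithinAt
  have hO' := hO.mem_nhds hz
  have dτ : DifferentiableAt ℂ τ z := hτ.differentiableAt hO'
  have dx : ∀ n, DifferentiableAt ℂ (fun w => x w n) z := fun n => (hx n).differentiableAt hO'
  have hp := hmaps hz
  have hz' := hR z hz
  have n1 := Y.node _ hp _ hz' n
  have n0 := Data2_strip Y hp hz' n
  have dz := Data2_zp_diff dτ dx (n + 1)
  have dG : DifferentiableAt ℂ (fun w => G e κ (zp (τ w) (x w) (n + 1))) z :=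
    DifferentiableAt.comp (g := G e κ) z (Data2_G_diff he hκ (by linarith [n1.1]) n1.2) dz
  have dV := Data2_Vs_diff he hκ Y hO hτ hmaps hx hR n hz
  have dc : DifferentiableAt ℂ (fun w => cs e κ (τ w) (x w) n) z := by
    unfold cs
    exact (dV.div dG (Data2_G_ne he hκ (by linarith [n1.1]) n1.2)).const_sub 1
  have e2 : zp (τ z) (x z) (n + 1) - 1 - x z n = zp (τ z) (x z) n := by
    rw [Data2_zp_succ]
    ring
  refine Data2_PY_diff he hκ dz (dx n) dc n1.1 n1.2 ?_ (Y.c_lt _ hp _ hz' n)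
    (Y.re_PW _ hp _ hz' n)
  rw [e2]
  exact n0

private theorem Data2_Vs_real {e κ : ℝ} (p : ℝ) {x : ℕ → ℂ} (hx : ∀ n, (x n).im = 0) (n : ℕ) :
    Vs e κ (p : ℂ) x n = (((Vs e κ (p : ℂ) x n).re : ℝ) : ℂ) := by
  have h1 : Vs e κ (p : ℂ) x n = ((∑' k : ℕ, (-1 : ℝ) ^ k *
      Real.cosh (κ * (zp (p : ℂ) x (n + 1 + k)).re) ^ (-e) : ℝ) : ℂ) := by
    unfold Vs
    rw [ofReal_tsum]
    congr 1
    funext k
    rw [Data2_zp_real p hx (n + 1 + k), ofReal_mul, ofReal_cpow (Real.cosh_pos _).le]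
    push_cast
    simp
  rw [h1, ofReal_re]

private theorem Data2_cs_real {e κ : ℝ} (he : 0 < e) (hκ : 0 < κ) (p : ℝ) {x : ℕ → ℂ}
    (hx : ∀ n, (x n).im = 0) (n : ℕ) (hn : 0 < (zp (p : ℂ) x (n + 1)).re) :
    cs e κ (p : ℂ) x n = (((cs e κ (p : ℂ) x n).re : ℝ) : ℂ) ∧
      (G e κ (((zp (p : ℂ) x (n + 1)).re : ℝ) : ℂ)).re * (1 - (cs e κ (p : ℂ) x n).re) =
        (Vs e κ (p : ℂ) x n).re := by
  obtain ⟨y, hy, hGy⟩ := G_ofReal he hκ (ζ := (zp (p : ℂ) x (n + 1)).re) hn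
  have hG : G e κ (zp (p : ℂ) x (n + 1)) = (y : ℂ) := by
    rw [Data2_zp_real p hx (n + 1)]
    exact hGy
  have h1 : cs e κ (p : ℂ) x n = ((1 - (Vs e κ (p : ℂ) x n).re / y : ℝ) : ℂ) := by
    unfold cs
    rw [hG, Data2_Vs_real p hx n]
    push_cast
    simp
  rw [h1, ofReal_re, hGy, ofReal_re]
  refine ⟨rfl, ?_⟩
  have := hy.ne'
  field_simp
  ring

/-- **The instance.**  `R = P`, `Φ = Phi2 e κ`, `tr p = sinh κp`, `s p x n = sinh (κ Re ζ_n)`,
`H p x = V_0/(cosh κp)^(-e)`.  For a real fixed sequence, `link_rel` with `c = c_n` gives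
`(s (n+1) - s n)^(-e) = C G(ζ_{n+1})(1 - c_n) = C V_n`, and `Vs_add` is the node relation. -/
theorem YData2.nonempty_seqTrap {e κ : ℝ} (he : 1 < e) (hκ : 0 < κ) (Y : YData2 e κ) :
    Nonempty (SeqTrap e (Real.exp κ)) := by
  have he0 : 0 < e := by linarith
  have hlink : ∀ p : ℝ, (p : ℂ) ∈ Y.D → ∀ x : ℕ → ℂ, (∀ n, ‖x n‖ ≤ Y.P p n) →
      (∀ n, (x n).im = 0) → (∀ n, x n = Phi2 e κ p x n) → ∀ n,
      (Real.sinh (κ * (zp (p : ℂ) x (n + 1)).re) - Real.sinh (κ * (zp (p : ℂ) x n).re)) ^ (-e) =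
        CC e (Real.exp κ) * (Vs e κ (p : ℂ) x n).re := by
    intro p hp x hx hxr hfix n
    have hn := Y.node _ hp x hx n
    have hcs := Data2_cs_real he0 hκ p hxr n (by linarith [hn.1])
    have h1 := hfix n
    unfold Phi2 at h1
    rw [Data2_zp_real p hxr (n + 1), hcs.1, Data2_re (hxr n)] at h1
    have hc : (cs e κ (p : ℂ) x n).re < 1 :=
      (re_le_norm _).trans_lt (Y.c_lt _ hp x hx n)
    have hψ : -1 < (x n).re := by
      have h2 := ((abs_re_le_norm (x n)).trans (hx n)).trans_lt (Y.P_lt _ hp n)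
      exact (abs_lt.1 h2).1
    have h3 := link_rel he0 hκ hn.1 hc hψ h1.symm
    have e1 : (zp (p : ℂ) x (n + 1)).re - 1 - (x n).re = (zp (p : ℂ) x n).re := by
      rw [Data2_zp_succ, add_re, add_re, one_re]
      ring
    rw [e1, mul_assoc, hcs.2] at h3
    exact h3
  refine ⟨{
    θ := Y.θ
    hθ0 := Y.hθ0
    hθ1 := Y.hθ1
    D := Y.D
    isOpen_D := Y.isOpen_D
    R := Y.P
    R_pos := Y.P_pos
    R_cont := Y.P_cont
    Φ := Phi2 e κ
    maps := Y.inv_ψ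
    hol := Y.hol he0 hκ
    real := ?_
    tr := fun p => Real.sinh (κ * p)
    s := fun p x n => Real.sinh (κ * (zp (p : ℂ) x n).re)
    orbit := ?_
    H := fun p x => Vs e κ p x 0 / cosh (κ * p) ^ (-(e : ℂ))
    hol_H := ?_
    H_real := ?_
    η := Y.η
    hη := Y.hη
    seg := Y.seg
    δ := 1
    hδ := one_pos
    odd := ?_
    test := Y.test }⟩
  · intro p hp x hx hxr n
    have n1 := (Y.node _ hp x hx n).1
    have hcs := Data2_cs_real he0 hκ p hxr n (by linarith)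
    unfold Phi2
    rw [Data2_zp_real p hxr (n + 1), hcs.1, Data2_re (hxr n)]
    exact PY_ofReal he0 hκ n1 ((re_le_norm _).trans_lt (Y.c_lt _ hp x hx n))
  · intro p hp x hx hxr hfix
    have hstep : ∀ n, (zp (p : ℂ) x (n + 1)).re = (zp (p : ℂ) x n).re + 1 + (x n).re := by
      intro n
      rw [Data2_zp_succ]
      simp
    have hψ : ∀ n, |(x n).re| ≤ Y.P p n := fun n => (abs_re_le_norm _).trans (hx n)
    have hyt : Tendsto (fun n => (x n).re) atTop (𝓝 0) :=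
      squeeze_zero_norm (fun n => by rw [Real.norm_eq_abs]; exact hψ n) (Y.P_tend _ hp)
    refine ⟨?_, ?_, ?_, ?_, ?_⟩
    · simp [zp]
    · intro n
      rw [Real.sinh_lt_sinh, hstep n]
      have h1 := (abs_lt.1 ((hψ n).trans_lt (Y.P_lt _ hp n))).1
      nlinarith
    · intro n
      rw [hlink p hp x hx hxr hfix n, hlink p hp x hx hxr hfix (n + 1), FF_sinh, ← mul_add]
      have h1 := congrArg Complex.re (Y.Vs_add he0 hκ hp hx n)
      rw [add_re] at h1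
      rw [h1]
      have e2 : cosh ((κ : ℂ) * zp (p : ℂ) x (n + 1)) ^ (-(e : ℂ)) =
          ((Real.cosh (κ * (zp (p : ℂ) x (n + 1)).re) ^ (-e) : ℝ) : ℂ) := by
        rw [ofReal_cpow (Real.cosh_pos _).le]
        push_cast
        rw [← Data2_zp_real p hxr (n + 1)]
      rw [e2, ofReal_re]
    · have h1 : Tendsto (fun n => κ * (zp (p : ℂ) x n).re) atTop atTop :=
        (Data2_tendsto (z := fun n => (zp (p : ℂ) x n).re) (y := fun n => (x n).re)
          hstep hyt).const_mul_atTop hκ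
      refine tendsto_atTop_mono' _ ?_ h1
      filter_upwards [h1.eventually_ge_atTop 0] with n hn
      exact Real.self_le_sinh_iff.2 hn
    · exact Data2_ratio (z := fun n => (zp (p : ℂ) x n).re) (y := fun n => (x n).re)
        hκ hstep hyt
  · intro x hx hT z hz
    apply DifferentiableAt.differentiableWithinAt
    have dV := Data2_Vs_diff he0 hκ Y (τ := fun w => w) Y.isOpen_D differentiableOn_id
      (fun w hw => hw) hx hT 0 hz
    have dκ : DifferentiableAt ℂ (fun w : ℂ => (κ : ℂ) * w) z := differentiableAt_id.const_mul _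
    have dc : DifferentiableAt ℂ (fun w : ℂ => cosh (κ * w) ^ (-(e : ℂ))) z :=
      dκ.ccosh.cpow_const (Data2_cosh_slit hκ (Y.strip z hz))
    refine dV.div dc ?_
    rw [Ne, cpow_eq_zero_iff]
    rintro ⟨h1, -⟩
    exact Data2_cosh_ne hκ (Y.strip z hz) h1
  · intro p hp x hx hxr hfix
    have h1 := hlink p hp x hx hxr hfix 0
    have e0 : (zp (p : ℂ) x 0).re = p := by simp [zp]
    simp only [zero_add] at h1
    rw [e0] at h1
    have hC : CC e (Real.exp κ) ≠ 0 := (CC_pos (Real.one_lt_exp_iff.2 hκ)).ne'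
    have hch : (Real.cosh (κ * p)) ^ (-e) ≠ 0 := (Real.rpow_pos_of_pos (Real.cosh_pos _) _).ne'
    have e2 : cosh ((κ : ℂ) * (p : ℂ)) ^ (-(e : ℂ)) = ((Real.cosh (κ * p) ^ (-e) : ℝ) : ℂ) := by
      rw [ofReal_cpow (Real.cosh_pos _).le]
      push_cast
      rfl
    have e3 : CC e (Real.exp κ) * (Vs e κ (p : ℂ) x 0).re /
        (CC e (Real.exp κ) * Real.cosh (κ * p) ^ (-e)) =
        (Vs e κ (p : ℂ) x 0).re / Real.cosh (κ * p) ^ (-e) := by
      field_simp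
    rw [e0, h1, FF_sinh, e2, e3, Data2_Vs_real p hxr 0]
    push_cast
    simp
  · intro p _
    rw [mul_neg, Real.sinh_neg]

end

end Pool.Agent.helper31.EQ.Y
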