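import Mathlib

/-!
# EQ-Y: the rigid sum scheme, definitions

`κ > 0`, `m = exp κ`.  Position coordinate `ζ`, slope `t = sinh κζ`, `E = √(1+t²) = cosh κζ`,
`F = C (cosh κζ)^(-e)`; everything is used for `|Im ζ| < π/(2κ)`, where `Re cosh κζ > 0`, and all
powers and logarithms are principal.  `T = tanh κζ`.

`f(ζ) = Σ (-1)^k (cosh κk + T sinh κk)^(-e) = Σ (-1)^k F(ζ+k)/F(ζ)`, `G = (cosh κζ)^(-e) f(ζ)`,
so that `G(ζ) + G(ζ+1) = (cosh κζ)^(-e)`; `Q = G(ζ+1)/G(ζ) = (1-f)/f`;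
`Lam ζ = log (C G(ζ) (2 sinh(κ/2) cosh κ(ζ-1/2))^e)`.
-/

namespace Pool.Agent.helper31.EQ.Y

open Complex

noncomputable section

/-- `f` as a function of `T = tanh κζ`. -/
def fT (e κ : ℝ) (T : ℂ) : ℂ :=
  ∑' k : ℕ, (-1 : ℂ) ^ k * ((Real.cosh (κ * k) : ℂ) + T * (Real.sinh (κ * k) : ℂ)) ^ (-(e : ℂ))

def f (e κ : ℝ) (ζ : ℂ) : ℂ := fT e κ (tanh (κ * ζ))

def G (e κ : ℝ) (ζ : ℂ) : ℂ := cosh (κ * ζ) ^ (-(e : ℂ)) * f e κ ζ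

def Q (e κ : ℝ) (ζ : ℂ) : ℂ := (1 - f e κ ζ) / f e κ ζ

/-- `log` of the quotient of the rigid sum and the value of an exactly rigid link ending at `ζ`. -/
def Lam (e κ : ℝ) (ζ : ℂ) : ℂ :=
  log (2 * f e κ ζ) +
    e * log ((Real.cosh (κ / 2) : ℂ) - tanh (κ * ζ) * (Real.sinh (κ / 2) : ℂ)) +
    (Real.log (Real.cosh (κ * e / 2)) : ℂ)

/-- `arsinh`. -/
def ash (w : ℂ) : ℂ := log (w + (1 + w ^ 2) ^ (1 / 2 : ℂ))

/-- New value of `c` at the node `ζ`: the next link has deviation `ψ`, the next node `ζ + 1 + ψ`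
has value `c`. -/
def CY (e κ : ℝ) (ζ ψ c : ℂ) : ℂ :=
  -Q e κ ζ * (1 - (1 - c) * (G e κ (ζ + 1 + ψ) / G e κ (ζ + 1)))

/-- `sinh (κ (1 + ψ') / 2)` for the link ending at the node `ζ` with value `c`; `ζ - 1 - ψ` is the
previous node. -/
def PW (e κ : ℝ) (ζ ψ c : ℂ) : ℂ :=
  (Real.sinh (κ / 2) : ℂ) * exp (-(Lam e κ ζ + log (1 - c)) / e) /
    (cosh (κ * ψ / 2) - tanh (κ * (ζ - 1 / 2)) * sinh (κ * ψ / 2))

/-- New value of `ψ` for the link ending at `ζ`. -/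
def PY (e κ : ℝ) (ζ ψ c : ℂ) : ℂ := 2 / κ * ash (PW e κ ζ ψ c) - 1

/-- Positions: unknowns `c_{n+1} = x (2n)`, `ψ_n = x (2n+1)`. -/
def zt (p : ℂ) (x : ℕ → ℂ) (n : ℕ) : ℂ := p + n + ∑ j ∈ Finset.range n, x (2 * j + 1)

/-- The sequence map. -/
def Phi (e κ : ℝ) (p : ℂ) (x : ℕ → ℂ) (k : ℕ) : ℂ :=
  if k % 2 = 0 then CY e κ (zt p x (k / 2 + 1)) (x (k + 3)) (x (k + 2))
  else PY e κ (zt p x (k / 2 + 1)) (x k) (x (k - 1))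

end

end Pool.Agent.helper31.EQ.Y
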