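import Mathlib

/-!
# EQ-Y3: Schwarz-Pick in the right half plane
-/

namespace Pool.Agent.helper31.EQ.Y

open Complex Set Metric Filter Topology ComplexConjugate

private theorem hk_normSq (u v : ℂ) :
    ‖u + conj v‖ ^ 2 = ‖u - v‖ ^ 2 + 4 * (u.re * v.re) := by
  rw [← Complex.normSq_eq_norm_sq, ← Complex.normSq_eq_norm_sq, Complex.normSq_apply,
    Complex.normSq_apply]
  simp only [Complex.add_re, Complex.add_im, Complex.sub_re, Complex.sub_im, Complex.conj_re,
    Complex.conj_im]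
  ring

private theorem hk_lt {u v : ℂ} (hu : 0 < u.re) (hv : 0 < v.re) : ‖u - v‖ < ‖u + conj v‖ := by
  have h := hk_normSq u v
  have hp : 0 < u.re * v.re := mul_pos hu hv
  nlinarith [norm_nonneg (u - v), norm_nonneg (u + conj v)]

private theorem hk_ne {u v : ℂ} (hu : 0 < u.re) (hv : 0 < v.re) : u + conj v ≠ 0 := by
  intro h
  have h2 : (u + conj v).re = 0 := by rw [h]; simp
  simp only [Complex.add_re, Complex.conj_re] at h2
  linarith

private theorem hk_one_sub {w : ℂ} (hw : ‖w‖ < 1) : 1 - w ≠ 0 := by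
  intro h
  have : w = 1 := (sub_eq_zero.mp h).symm
  rw [this] at hw
  simp at hw

private theorem hk_cayley_re {b w : ℂ} (hb : 0 < b.re) (hw : ‖w‖ < 1) :
    0 < ((b + conj b * w) / (1 - w)).re := by
  have h1 := hk_one_sub hw
  have h2 : 0 < Complex.normSq (1 - w) := Complex.normSq_pos.mpr h1
  have h3 : Complex.normSq w < 1 := by
    rw [Complex.normSq_eq_norm_sq]
    nlinarith [norm_nonneg w]
  rw [Complex.div_re, ← add_div]
  apply div_pos _ h2
  have e : (b + conj b * w).re * (1 - w).re + (b + conj b * w).im * (1 - w).im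
      = b.re * (1 - Complex.normSq w) := by
    rw [Complex.normSq_apply]
    simp only [Complex.add_re, Complex.add_im, Complex.mul_re, Complex.mul_im, Complex.conj_re,
      Complex.conj_im, Complex.sub_re, Complex.sub_im, Complex.one_re, Complex.one_im]
    ring
  rw [e]
  exact mul_pos hb (by linarith)

/-- **Schwarz-Pick, two points.**  `g` analytic with `Re g > 0` on the convex open strip-like set?
Here on the full half plane `Re ζ > 0`.  Compose with Cayley maps and use the Schwarz lemma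
(`Complex.dist_le_div_mul_dist_of_mapsTo_ball` or `Complex.abs_le_abs_of_mapsTo_ball`). -/
theorem schwarz_pick {g : ℂ → ℂ} (hg : DifferentiableOn ℂ g {ζ | 0 < ζ.re})
    (hpos : ∀ ζ : ℂ, 0 < ζ.re → 0 < (g ζ).re) {a b : ℂ} (ha : 0 < a.re) (hb : 0 < b.re) :
    ‖g a - g b‖ * ‖a + conj b‖ ≤ ‖g a + conj (g b)‖ * ‖a - b‖ := by
  set z : ℂ → ℂ := fun w => (b + conj b * w) / (1 - w) with hz
  set h : ℂ → ℂ := fun w => (g (z w) - g b) / (g (z w) + conj (g b)) with hh
  have hzre : ∀ w ∈ ball (0 : ℂ) 1, 0 < (z w).re := by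
    intro w hw
    exact hk_cayley_re hb (by simpa using hw)
  have hzd : DifferentiableOn ℂ z (ball 0 1) := by
    intro w hw
    have h1 := hk_one_sub (w := w) (by simpa using hw)
    apply DifferentiableAt.differentiableWithinAt
    rw [hz]
    apply DifferentiableAt.div
    · fun_prop
    · fun_prop
    · exact h1
  have hgz : DifferentiableOn ℂ (fun w => g (z w)) (ball 0 1) := by
    apply hg.comp hzd
    intro w hw
    exact hzre w hw
  have hgb := hpos b hb
  have hd : DifferentiableOn ℂ h (ball 0 1) := by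
    rw [hh]
    apply DifferentiableOn.div
    · exact hgz.sub_const _
    · exact hgz.add_const _
    · intro w hw
      exact hk_ne (hpos _ (hzre w hw)) hgb
  have hm : MapsTo h (ball 0 1) (closedBall 0 1) := by
    intro w hw
    have hl := hk_lt (hpos _ (hzre w hw)) hgb
    have hp : 0 < ‖g (z w) + conj (g b)‖ := lt_of_le_of_lt (norm_nonneg _) hl
    simp only [mem_closedBall, dist_zero_right, hh]
    rw [norm_div, div_le_one hp]
    exact hl.le
  have hz0 : z 0 = b := by simp [hz]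
  have h0 : h 0 = 0 := by
    simp only [hh, hz0]
    simp
  have hab := hk_lt ha hb
  have habp : 0 < ‖a + conj b‖ := lt_of_le_of_lt (norm_nonneg _) hab
  have habne := hk_ne ha hb
  set w0 : ℂ := (a - b) / (a + conj b) with hw0
  have hw0n : ‖w0‖ < 1 := by
    rw [hw0, norm_div, div_lt_one habp]
    exact hab
  have hbb : b + conj b ≠ 0 := by
    have := hk_ne hb hb
    exact this
  have hzw : z w0 = a := by
    have h1 := hk_one_sub hw0n
    simp only [hz]
    rw [div_eq_iff h1, hw0]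
    field_simp
    ring
  have key := Complex.norm_le_norm_of_mapsTo_ball hd hm h0 hw0n
  have hgp : 0 < ‖g a + conj (g b)‖ :=
    lt_of_le_of_lt (norm_nonneg _) (hk_lt (hpos a ha) hgb)
  simp only [hh, hzw] at key
  rw [norm_div, hw0, norm_div, div_le_div_iff₀ hgp habp] at key
  linarith [key, mul_comm ‖a - b‖ ‖g a + conj (g b)‖]

/-- Derivative form: `‖g' ζ‖ Re ζ ≤ Re g ζ` (let `b → a`). -/
theorem norm_deriv_le {g : ℂ → ℂ} (hg : DifferentiableOn ℂ g {ζ | 0 < ζ.re})
    (hpos : ∀ ζ : ℂ, 0 < ζ.re → 0 < (g ζ).re) {a : ℂ} (ha : 0 < a.re) :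
    ‖deriv g a‖ * a.re ≤ (g a).re := by
  have hopen : IsOpen {ζ : ℂ | 0 < ζ.re} := isOpen_lt continuous_const Complex.continuous_re
  have hda : DifferentiableAt ℂ g a := hg.differentiableAt (hopen.mem_nhds ha)
  have hs := hda.hasDerivAt.tendsto_slope
  have hsn := hs.norm
  have hc : Tendsto (fun b : ℂ => ‖b + conj a‖) (𝓝[≠] a) (𝓝 ‖a + conj a‖) := by
    apply Tendsto.mono_left _ nhdsWithin_le_nhds
    have : Continuous (fun b : ℂ => ‖b + conj a‖) := by fun_prop
    exact this.tendsto a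
  have hgc : Tendsto (fun b : ℂ => ‖g b + conj (g a)‖) (𝓝[≠] a) (𝓝 ‖g a + conj (g a)‖) := by
    apply Tendsto.mono_left _ nhdsWithin_le_nhds
    exact ((hda.continuousAt.tendsto.add_const (conj (g a)))).norm
  have hle : ‖deriv g a‖ * ‖a + conj a‖ ≤ ‖g a + conj (g a)‖ := by
    apply le_of_tendsto_of_tendsto (hsn.mul hc) hgc
    have hev : ∀ᶠ b in 𝓝[≠] a, 0 < b.re :=
      nhdsWithin_le_nhds (hopen.mem_nhds ha)
    filter_upwards [hev, self_mem_nhdsWithin] with b hb hne
    have hne' : b - a ≠ 0 := sub_ne_zero.mpr hne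
    have hp : 0 < ‖b - a‖ := norm_pos_iff.mpr hne'
    have h1 := schwarz_pick hg hpos hb ha
    rw [slope_def_field, norm_div]
    rw [div_mul_eq_mul_div, div_le_iff₀ hp]
    exact h1
  have e1 : ‖a + conj a‖ = 2 * a.re := by
    rw [Complex.add_conj]
    rw [Complex.norm_real, Real.norm_eq_abs, abs_of_pos (by linarith)]
  have e2 : ‖g a + conj (g a)‖ = 2 * (g a).re := by
    have := hpos a ha
    rw [Complex.add_conj]
    rw [Complex.norm_real, Real.norm_eq_abs, abs_of_pos (by linarith)]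
  rw [e1, e2] at hle
  linarith

/-- Step form: `‖g a - g (a+1)‖ ≤ Re g a / Re a` (from `schwarz_pick` with `b = a + 1`:
`‖Δ‖ (2x+1) ≤ 2 Re g a + ‖Δ‖`). -/
theorem norm_sub_step_le {g : ℂ → ℂ} (hg : DifferentiableOn ℂ g {ζ | 0 < ζ.re})
    (hpos : ∀ ζ : ℂ, 0 < ζ.re → 0 < (g ζ).re) {a : ℂ} (ha : 0 < a.re) :
    ‖g a - g (a + 1)‖ * a.re ≤ (g a).re := by
  have hb : 0 < (a + 1).re := by
    simp only [Complex.add_re, Complex.one_re]
    linarith
  have h1 := schwarz_pick hg hpos ha hb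
  have hga := hpos a ha
  have e1 : ‖a + conj (a + 1)‖ = 2 * a.re + 1 := by
    have : a + conj (a + 1) = ((2 * a.re + 1 : ℝ) : ℂ) := by
      apply Complex.ext
      · simp only [Complex.add_re, Complex.conj_re, Complex.one_re, Complex.ofReal_re]
        ring
      · simp only [Complex.add_im, Complex.conj_im, Complex.one_im, Complex.ofReal_im]
        ring
    rw [this, Complex.norm_real, Real.norm_eq_abs, abs_of_pos (by linarith)]
  have e2 : ‖a - (a + 1)‖ = 1 := by
    have : a - (a + 1) = -1 := by ring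
    rw [this, norm_neg, norm_one]
  have e3 : ‖g a + conj (g (a + 1))‖ ≤ 2 * (g a).re + ‖g a - g (a + 1)‖ := by
    have : g a + conj (g (a + 1)) = (g a + conj (g a)) - conj (g a - g (a + 1)) := by
      rw [map_sub]; ring
    rw [this]
    have h4 := norm_sub_le (g a + conj (g a)) (conj (g a - g (a + 1)))
    rw [Complex.add_conj] at h4 ⊢
    rw [Complex.norm_conj, Complex.norm_real, Real.norm_eq_abs, abs_of_pos (by linarith)] at h4
    exact h4
  rw [e1, e2, mul_one] at h1
  nlinarith [norm_nonneg (g a - g (a + 1))]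

/-- Harnack along a horizontal line: `Re g b ≤ (x_b/x_a) Re g a` for `b = a + t`, `t ≥ 0`, and
`Re g a ≤ (x_b/x_a) Re g b` (from `norm_deriv_le`: `|d/dt log Re g| ≤ 1/x`). -/
theorem harnack {g : ℂ → ℂ} (hg : DifferentiableOn ℂ g {ζ | 0 < ζ.re})
    (hpos : ∀ ζ : ℂ, 0 < ζ.re → 0 < (g ζ).re) {a : ℂ} (ha : 0 < a.re) {t : ℝ} (ht : 0 ≤ t) :
    (g (a + t)).re * a.re ≤ (a.re + t) * (g a).re ∧
      (g a).re * a.re ≤ (a.re + t) * (g (a + t)).re := by
  have hb : 0 < (a + (t : ℂ)).re := by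
    simp only [Complex.add_re, Complex.ofReal_re]
    linarith
  have h1 := schwarz_pick hg hpos ha hb
  have hu := hpos a ha
  have hv := hpos _ hb
  have e1 : ‖a + conj (a + (t : ℂ))‖ = 2 * a.re + t := by
    have : a + conj (a + (t : ℂ)) = ((2 * a.re + t : ℝ) : ℂ) := by
      apply Complex.ext
      · simp only [Complex.add_re, Complex.conj_re, Complex.ofReal_re]
        ring
      · simp only [Complex.add_im, Complex.conj_im, Complex.ofReal_im]
        ring
    rw [this, Complex.norm_real, Real.norm_eq_abs, abs_of_pos (by linarith)]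
  have e2 : ‖a - (a + (t : ℂ))‖ = t := by
    have : a - (a + (t : ℂ)) = -((t : ℝ) : ℂ) := by ring
    rw [this, norm_neg, Complex.norm_real, Real.norm_eq_abs, abs_of_nonneg ht]
  rw [e1, e2] at h1
  set u := (g a).re with hu'
  set v := (g (a + (t : ℂ))).re with hv'
  set D := ‖g a - g (a + (t : ℂ))‖ with hD
  set P := ‖g a + conj (g (a + (t : ℂ)))‖ with hP
  have hPD : P ^ 2 = D ^ 2 + 4 * (u * v) := hk_normSq _ _
  have hDuv : (u - v) ^ 2 ≤ D ^ 2 := by
    have : |(g a - g (a + (t : ℂ))).re| ≤ D := Complex.abs_re_le_norm _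
    rw [Complex.sub_re, ← hu', ← hv'] at this
    have h2 := sq_abs (u - v)
    nlinarith [abs_nonneg (u - v)]
  have hD0 : 0 ≤ D := norm_nonneg _
  have hP0 : 0 ≤ P := norm_nonneg _
  have hx : 0 < a.re := ha
  have hsq : D ^ 2 * (2 * a.re + t) ^ 2 ≤ P ^ 2 * t ^ 2 := by
    have h5 : 0 ≤ D * (2 * a.re + t) := mul_nonneg hD0 (by linarith)
    have h6 : (D * (2 * a.re + t)) ^ 2 ≤ (P * t) ^ 2 := by
      apply pow_le_pow_left₀ h5 h1
    nlinarith [h6]
  -- `(u - v)^2 (2x+t)^2 ≤ (u+v)^2 t^2`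
  have hmain : ((u - v) * (2 * a.re + t)) ^ 2 ≤ ((u + v) * t) ^ 2 := by
    have h7 : (2 * a.re + t) ^ 2 - t ^ 2 = 4 * a.re * (a.re + t) := by ring
    have h8 : 0 ≤ (2 * a.re + t) ^ 2 - t ^ 2 := by
      rw [h7]; positivity
    have h9 : D ^ 2 * ((2 * a.re + t) ^ 2 - t ^ 2) ≤ 4 * (u * v) * t ^ 2 := by
      rw [hPD] at hsq
      nlinarith [hsq]
    have h10 : (u - v) ^ 2 * ((2 * a.re + t) ^ 2 - t ^ 2)
        ≤ D ^ 2 * ((2 * a.re + t) ^ 2 - t ^ 2) := mul_le_mul_of_nonneg_right hDuv h8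
    nlinarith [h9, h10]
  have habs : |(u - v) * (2 * a.re + t)| ≤ (u + v) * t := by
    have h11 : 0 ≤ (u + v) * t := mul_nonneg (by linarith) ht
    exact abs_le_of_sq_le_sq hmain h11
  obtain ⟨h12, h13⟩ := abs_le.mp habs
  constructor
  · nlinarith [h12]
  · nlinarith [h13]

end Pool.Agent.helper31.EQ.Y
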