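import Pool.Agent.helper31.EQ.Y.Defs

/-!
# EQ-Y1: elementary facts about the rigid sum
-/

namespace Pool.Agent.helper31.EQ.Y

open Complex Set Metric Filter Topology ComplexConjugate

private theorem mulz (κ : ℝ) (ζ : ℂ) :
    ((κ : ℂ) * ζ) = ((κ * ζ.re : ℝ) : ℂ) + ((κ * ζ.im : ℝ) : ℂ) * I := by
  apply Complex.ext <;> simp

private theorem cosh_xy (x y : ℝ) :
    cosh ((x : ℂ) + (y : ℂ) * I) =
      ((Real.cosh x * Real.cos y : ℝ) : ℂ) + ((Real.sinh x * Real.sin y : ℝ) : ℂ) * I := by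
  rw [cosh_add, sinh_mul_I, cosh_mul_I]
  push_cast
  ring

private theorem sinh_xy (x y : ℝ) :
    sinh ((x : ℂ) + (y : ℂ) * I) =
      ((Real.sinh x * Real.cos y : ℝ) : ℂ) + ((Real.cosh x * Real.sin y : ℝ) : ℂ) * I := by
  rw [sinh_add, sinh_mul_I, cosh_mul_I]
  push_cast
  ring

private theorem normSq_cosh_xy (x y : ℝ) :
    normSq (cosh ((x : ℂ) + (y : ℂ) * I)) = Real.sinh x ^ 2 + Real.cos y ^ 2 := by
  rw [cosh_xy, normSq_add_mul_I]
  have h1 := Real.sin_sq_add_cos_sq y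
  have h2 := Real.cosh_sq x
  have h3 : Real.sin y ^ 2 = 1 - Real.cos y ^ 2 := by linarith
  rw [mul_pow, mul_pow, h2, h3]
  ring

private theorem tanh_re_xy (x y : ℝ) :
    (tanh ((x : ℂ) + (y : ℂ) * I)).re =
      Real.sinh x * Real.cosh x / (Real.sinh x ^ 2 + Real.cos y ^ 2) := by
  rw [tanh_eq_sinh_div_cosh, div_re, normSq_cosh_xy, ← add_div]
  congr 1
  rw [cosh_xy, sinh_xy]
  simp only [add_re, mul_re, ofReal_re, ofReal_im, I_re, I_im, add_im, mul_im]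
  have h1 := Real.sin_sq_add_cos_sq y
  have h3 : Real.sin y ^ 2 = 1 - Real.cos y ^ 2 := by linarith
  ring_nf
  rw [h3]
  ring

private theorem cosh_ne {κ : ℝ} (hκ : 0 < κ) {ζ : ℂ} (h : 0 < ζ.re) : cosh (κ * ζ) ≠ 0 := by
  rw [← normSq_pos, mulz, normSq_cosh_xy]
  have : 0 < Real.sinh (κ * ζ.re) := Real.sinh_pos_iff.2 (mul_pos hκ h)
  positivity

/-- `Re (cosh κk + T sinh κk) ≥ cosh κk ≥ 1` for `Re T ≥ 0`, `k ≥ 0`. -/
theorem re_base {κ : ℝ} (hκ : 0 < κ) {T : ℂ} (hT : 0 ≤ T.re) (k : ℕ) :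
    Real.cosh (κ * k) ≤ ((Real.cosh (κ * k) : ℂ) + T * (Real.sinh (κ * k) : ℂ)).re := by
  have h3 : 0 ≤ Real.sinh (κ * k) :=
    Real.sinh_nonneg_iff.2 (mul_nonneg hκ.le (Nat.cast_nonneg k))
  simp only [add_re, ofReal_re, mul_re, ofReal_im, mul_zero, sub_zero]
  nlinarith [mul_nonneg hT h3]

private theorem re_base_pos {κ : ℝ} (hκ : 0 < κ) {T : ℂ} (hT : 0 ≤ T.re) (k : ℕ) :
    0 < ((Real.cosh (κ * k) : ℂ) + T * (Real.sinh (κ * k) : ℂ)).re :=
  lt_of_lt_of_le (Real.cosh_pos _) (re_base hκ hT k)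

/-- `|(cosh κk + T sinh κk)^(-e)| = |cosh κk + T sinh κk|^(-e) ≤ (cosh κk)^(-e)`
(real exponent: `Complex.norm_cpow_of_ne_zero` / `Complex.norm_cpow_eq_rpow_re_of_pos` type lemma:
`‖z ^ (-(e:ℂ))‖ = ‖z‖ ^ (-e)` for `z ≠ 0` since the exponent is real), and
`(cosh κk)^(-e) ≤ (exp (κk)/2)^(-e)` is summable. -/
theorem norm_term_le {e κ : ℝ} (he : 0 < e) (hκ : 0 < κ) {T : ℂ} (hT : 0 ≤ T.re) (k : ℕ) :
    ‖(-1 : ℂ) ^ k * ((Real.cosh (κ * k) : ℂ) + T * (Real.sinh (κ * k) : ℂ)) ^ (-(e : ℂ))‖ ≤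
      Real.cosh (κ * k) ^ (-e) := by
  rw [norm_mul, norm_pow, norm_neg, norm_one, one_pow, one_mul, ← ofReal_neg, norm_cpow_real]
  apply Real.rpow_le_rpow_of_nonpos (Real.cosh_pos _) _ (by linarith)
  exact (re_base hκ hT k).trans (re_le_norm _)

theorem summable_bound {e κ : ℝ} (he : 0 < e) (hκ : 0 < κ) :
    Summable (fun k : ℕ => Real.cosh (κ * k) ^ (-e)) := by
  have hg : Summable (fun k : ℕ => (2 : ℝ) ^ e * (Real.exp (-(e * κ))) ^ k) := by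
    apply Summable.mul_left
    apply summable_geometric_of_lt_one (Real.exp_pos _).le
    rw [Real.exp_lt_one_iff]
    nlinarith [mul_pos he hκ]
  refine Summable.of_nonneg_of_le (fun k => Real.rpow_nonneg (Real.cosh_pos _).le _) ?_ hg
  intro k
  have h1 : Real.exp (κ * k) / 2 ≤ Real.cosh (κ * k) := by
    rw [Real.cosh_eq]
    have := Real.exp_pos (-(κ * k))
    linarith
  have h2 : Real.cosh (κ * k) ^ (-e) ≤ (Real.exp (κ * k) / 2) ^ (-e) :=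
    Real.rpow_le_rpow_of_nonpos (by positivity) h1 (by linarith)
  refine h2.trans (le_of_eq ?_)
  rw [Real.div_rpow (Real.exp_pos _).le (by norm_num), ← Real.exp_mul, ← Real.exp_nat_mul,
    Real.rpow_neg (by norm_num : (0 : ℝ) ≤ 2) e, div_inv_eq_mul, mul_comm]
  congr 2
  ring

/-- Analytic on the open half plane (`differentiableOn_tsum_of_summable_norm`). -/
theorem differentiableOn_fT {e κ : ℝ} (he : 0 < e) (hκ : 0 < κ) :
    DifferentiableOn ℂ (fT e κ) {T | 0 < T.re} := by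
  unfold fT
  apply differentiableOn_tsum_of_summable_norm (summable_bound he hκ)
  · intro k T hT
    apply DifferentiableAt.differentiableWithinAt
    apply DifferentiableAt.const_mul
    apply DifferentiableAt.cpow
    · fun_prop
    · fun_prop
    · exact Or.inl (re_base_pos hκ (le_of_lt hT) k)
  · exact isOpen_lt continuous_const continuous_re
  · intro k T hT
    exact norm_term_le he hκ (le_of_lt hT) k

/-- `Re tanh κζ > 0` for `Re ζ > 0` with `cosh κζ ≠ 0`: with `κζ = x + iy`,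
`tanh = (sinh 2x + i sin 2y)/(cosh 2x + cos 2y)`; and `Re tanh κζ ≤ coth κx`. -/
theorem re_tanh_pos {κ : ℝ} (hκ : 0 < κ) {ζ : ℂ} (h : 0 < ζ.re) : 0 < (tanh (κ * ζ)).re := by
  rw [mulz, tanh_re_xy]
  have h1 : 0 < Real.sinh (κ * ζ.re) := Real.sinh_pos_iff.2 (mul_pos hκ h)
  have h2 := Real.cosh_pos (κ * ζ.re)
  positivity

private theorem re_tanh_nonneg {κ : ℝ} (hκ : 0 < κ) {ζ : ℂ} (h : 0 ≤ ζ.re) :
    0 ≤ (tanh (κ * ζ)).re := by
  rw [mulz, tanh_re_xy]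
  have h1 : 0 ≤ Real.sinh (κ * ζ.re) := Real.sinh_nonneg_iff.2 (mul_nonneg hκ.le h)
  have h2 := Real.cosh_pos (κ * ζ.re)
  positivity

/-- `Re (cosh(κ/2) - tanh(κζ) sinh(κ/2)) ≥ sinh(κ(x-1/2))/sinh(κx) > 0` for `x = Re ζ > 1/2`
(`Re tanh κζ = sinh 2κx/(cosh 2κx + cos 2κy) ≤ sinh 2κx/(cosh 2κx - 1) = coth κx`). -/
theorem re_half_pos {κ : ℝ} (hκ : 0 < κ) {ζ : ℂ} (h : 1 / 2 < ζ.re) :
    0 < ((Real.cosh (κ / 2) : ℂ) - tanh (κ * ζ) * (Real.sinh (κ / 2) : ℂ)).re := by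
  simp only [sub_re, ofReal_re, mul_re, ofReal_im, mul_zero, sub_zero]
  rw [mulz, tanh_re_xy]
  have h1 : 0 < Real.sinh (κ * ζ.re) := Real.sinh_pos_iff.2 (mul_pos hκ (by linarith))
  have h2 := Real.cosh_pos (κ * ζ.re)
  have h3 : 0 < Real.sinh (κ / 2) := Real.sinh_pos_iff.2 (by linarith)
  have h4 := Real.cosh_pos (κ / 2)
  have h5 : 0 < Real.sinh (κ * ζ.re - κ / 2) := Real.sinh_pos_iff.2 (by nlinarith)
  rw [Real.sinh_sub] at h5
  have h6 : 0 < Real.sinh (κ * ζ.re) ^ 2 + Real.cos (κ * ζ.im) ^ 2 := by positivity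
  rw [div_mul_eq_mul_div, sub_pos, div_lt_iff₀ h6]
  nlinarith [mul_pos h1 h5, mul_nonneg h4.le (sq_nonneg (Real.cos (κ * ζ.im)))]

/-- `Re cosh κζ = cosh κx cos κy > 0`. -/
theorem re_cosh_pos {κ : ℝ} (hκ : 0 < κ) {ζ : ℂ} (h : |ζ.im| < Real.pi / (2 * κ)) :
    0 < (cosh (κ * ζ)).re := by
  rw [mulz, cosh_xy]
  simp only [add_re, ofReal_re, mul_re, ofReal_im, I_re, mul_zero, zero_mul, sub_zero, add_zero]
  apply mul_pos (Real.cosh_pos _)
  apply Real.cos_pos_of_mem_Ioo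
  rw [abs_lt] at h
  have e1 : κ * (Real.pi / (2 * κ)) = Real.pi / 2 := by
    field_simp
  constructor
  · have := mul_lt_mul_of_pos_left h.1 hκ
    rw [mul_neg, e1] at this
    exact this
  · have := mul_lt_mul_of_pos_left h.2 hκ
    rw [e1] at this
    exact this

/-- `f` is analytic for `Re ζ > 0`, every height (`cosh κζ ≠ 0` there:
`‖cosh κζ‖² = sinh² κx + cos² κy`). -/
theorem differentiableOn_f {e κ : ℝ} (he : 0 < e) (hκ : 0 < κ) :
    DifferentiableOn ℂ (f e κ) {ζ | 0 < ζ.re} := by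
  have h1 : DifferentiableOn ℂ (fun ζ : ℂ => tanh (κ * ζ)) {ζ | 0 < ζ.re} := by
    intro ζ hζ
    apply DifferentiableAt.differentiableWithinAt
    have : (fun ζ : ℂ => tanh (κ * ζ)) = fun ζ => sinh (κ * ζ) / cosh (κ * ζ) := by
      funext z
      rw [tanh_eq_sinh_div_cosh]
    rw [this]
    apply DifferentiableAt.div
    · exact (differentiable_sinh.comp (differentiable_id.const_mul _)).differentiableAt
    · exact (differentiable_cosh.comp (differentiable_id.const_mul _)).differentiableAt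
    · exact cosh_ne hκ hζ
  have h2 := (differentiableOn_fT he hκ).comp h1 (fun ζ hζ => re_tanh_pos hκ hζ)
  exact h2

/-- Real positions also at and to the left of `0`: for real `ζ` and for the imaginary axis
`tanh κζ` has real part `≥ 0` only for `Re ζ ≥ 0`, so `f` is only used at nodes `n ≥ 1`. -/
theorem continuousOn_f {e κ : ℝ} (he : 0 < e) (hκ : 0 < κ) :
    ContinuousOn (f e κ) {ζ | 0 < ζ.re} := (differentiableOn_f he hκ).continuousOn

theorem differentiableOn_G {e κ : ℝ} (he : 0 < e) (hκ : 0 < κ) :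
    DifferentiableOn ℂ (G e κ) {ζ | 0 < ζ.re ∧ |ζ.im| < Real.pi / (2 * κ)} := by
  have h1 : DifferentiableOn ℂ (f e κ) {ζ | 0 < ζ.re ∧ |ζ.im| < Real.pi / (2 * κ)} :=
    (differentiableOn_f he hκ).mono (fun ζ hζ => hζ.1)
  refine DifferentiableOn.mul ?_ h1
  intro ζ hζ
  apply DifferentiableAt.differentiableWithinAt
  apply DifferentiableAt.cpow
  · exact (differentiable_cosh.comp (differentiable_id.const_mul _)).differentiableAt
  · fun_prop
  · exact Or.inl (re_cosh_pos hκ hζ.2)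

/-- The principal powers are consistent: for `Re ζ ≥ 0`, `|Im ζ| < π/(2κ)`, `k ∈ ℕ`,
`cosh κ(ζ+k) = cosh κζ (cosh κk + T sinh κk)`; both factors have positive real part and so has the
product, so the arguments add up (`|arg| < π/2` for all three, hence no jump `2π`), and
`cosh κ(ζ+k)^(-e) = cosh κζ^(-e) (cosh κk + T sinh κk)^(-e)`. -/
theorem cosh_add_cpow {e κ : ℝ} (hκ : 0 < κ) {ζ : ℂ} (h0 : 0 ≤ ζ.re)
    (h : |ζ.im| < Real.pi / (2 * κ)) (k : ℕ) :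
    cosh (κ * (ζ + k)) ^ (-(e : ℂ)) = cosh (κ * ζ) ^ (-(e : ℂ)) *
      ((Real.cosh (κ * k) : ℂ) + tanh (κ * ζ) * (Real.sinh (κ * k) : ℂ)) ^ (-(e : ℂ)) := by
  have h1 := re_cosh_pos hκ h
  have h2 := re_base_pos hκ (re_tanh_nonneg hκ h0) k
  have hc : cosh (κ * ζ) ≠ 0 := by
    intro h
    rw [h] at h1
    simp at h1
  have hb : ((Real.cosh (κ * k) : ℂ) + tanh (κ * ζ) * (Real.sinh (κ * k) : ℂ)) ≠ 0 := by
    intro h
    rw [h] at h2
    simp at h2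
  have e1 : cosh (κ * (ζ + k)) = cosh (κ * ζ) *
      ((Real.cosh (κ * k) : ℂ) + tanh (κ * ζ) * (Real.sinh (κ * k) : ℂ)) := by
    rw [mul_add, cosh_add, tanh_eq_sinh_div_cosh]
    push_cast
    field_simp
  have a1 := abs_lt.1 (abs_arg_lt_pi_div_two_iff.2 (Or.inl h1))
  have a2 := abs_lt.1 (abs_arg_lt_pi_div_two_iff.2 (Or.inl h2))
  have hl := Complex.log_mul hc hb ⟨by linarith [a1.1, a2.1], by linarith [a1.2, a2.2]⟩
  rw [e1, cpow_def_of_ne_zero (mul_ne_zero hc hb), cpow_def_of_ne_zero hc, cpow_def_of_ne_zero hb,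
    hl, add_mul, exp_add]

private theorem summable_terms {e κ : ℝ} (he : 0 < e) (hκ : 0 < κ) {ζ : ℂ} (h0 : 0 < ζ.re)
    (h : |ζ.im| < Real.pi / (2 * κ)) :
    Summable (fun k : ℕ => (-1 : ℂ) ^ k * cosh (κ * (ζ + k)) ^ (-(e : ℂ))) := by
  have h1 : Summable (fun k : ℕ => (-1 : ℂ) ^ k *
      ((Real.cosh (κ * k) : ℂ) + tanh (κ * ζ) * (Real.sinh (κ * k) : ℂ)) ^ (-(e : ℂ))) :=
    Summable.of_norm_bounded (summable_bound he hκ)
      (fun k => norm_term_le he hκ (re_tanh_pos hκ h0).le k)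
  have h2 := h1.mul_left (cosh (κ * ζ) ^ (-(e : ℂ)))
  refine h2.congr (fun k => ?_)
  rw [cosh_add_cpow hκ h0.le h k]
  ring

/-- `G ζ = Σ (-1)^k cosh κ(ζ+k)^(-e)`. -/
theorem G_eq_tsum {e κ : ℝ} (he : 0 < e) (hκ : 0 < κ) {ζ : ℂ} (h0 : 0 < ζ.re)
    (h : |ζ.im| < Real.pi / (2 * κ)) :
    G e κ ζ = ∑' k : ℕ, (-1 : ℂ) ^ k * cosh (κ * (ζ + k)) ^ (-(e : ℂ)) := by
  unfold G f fT
  rw [← tsum_mul_left]
  apply tsum_congr
  intro k
  rw [cosh_add_cpow hκ h0.le h k]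
  ring

/-- **Functional equation** (shift the series). -/
theorem G_add {e κ : ℝ} (he : 0 < e) (hκ : 0 < κ) {ζ : ℂ} (h0 : 0 < ζ.re)
    (h : |ζ.im| < Real.pi / (2 * κ)) :
    G e κ ζ + G e κ (ζ + 1) = cosh (κ * ζ) ^ (-(e : ℂ)) := by
  have h1 : 0 < (ζ + 1).re := by
    rw [add_re, one_re]
    linarith
  have h2 : |(ζ + 1).im| < Real.pi / (2 * κ) := by
    rw [add_im, one_im, add_zero]
    exact h
  rw [G_eq_tsum he hκ h0 h, G_eq_tsum he hκ h1 h2, (summable_terms he hκ h0 h).tsum_eq_zero_add]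
  have e1 : ∑' k : ℕ, (-1 : ℂ) ^ (k + 1) * cosh (κ * (ζ + ((k + 1 : ℕ) : ℂ))) ^ (-(e : ℂ)) =
      - ∑' k : ℕ, (-1 : ℂ) ^ k * cosh (κ * (ζ + 1 + k)) ^ (-(e : ℂ)) := by
    rw [← tsum_neg]
    apply tsum_congr
    intro k
    have : ζ + ((k + 1 : ℕ) : ℂ) = ζ + 1 + k := by
      push_cast
      ring
    rw [this, pow_succ]
    ring
  rw [e1]
  simp

/-- `1 - f ζ = (cosh κ + T sinh κ)^(-e) f (ζ+1)` (shift of the defining series, any height;
`cosh κ(k+1) + T sinh κ(k+1) = (cosh κ + T sinh κ)(cosh κk + T' sinh κk)` with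
`T' = tanh κ(ζ+1) = (T + tanh κ)/(1 + T tanh κ)`, all real parts positive, and
`|arg(cosh κ + T sinh κ)|, |arg(cosh κk + T' sinh κk)|, |arg (cosh κ(k+1) + T sinh κ(k+1))| < π/2`). -/
theorem one_sub_f {e κ : ℝ} (he : 0 < e) (hκ : 0 < κ) {ζ : ℂ} (h0 : 0 < ζ.re)
    (h : |ζ.im| < Real.pi / (2 * κ)) :
    1 - f e κ ζ = ((Real.cosh κ : ℂ) + tanh (κ * ζ) * (Real.sinh κ : ℂ)) ^ (-(e : ℂ)) *
      f e κ (ζ + 1) := by
  have h1 := G_add he hκ h0 h
  have h2 := cosh_add_cpow (e := e) hκ h0.le h 1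
  simp only [Nat.cast_one, mul_one] at h2
  have hc : cosh (κ * ζ) ^ (-(e : ℂ)) ≠ 0 := by
    rw [cpow_def_of_ne_zero (cosh_ne hκ h0)]
    exact exp_ne_zero _
  unfold G at h1
  rw [h2] at h1
  have h3 : cosh (κ * ζ) ^ (-(e : ℂ)) * (1 - f e κ ζ) = cosh (κ * ζ) ^ (-(e : ℂ)) *
      (((Real.cosh κ : ℂ) + tanh (κ * ζ) * (Real.sinh κ : ℂ)) ^ (-(e : ℂ)) *
      f e κ (ζ + 1)) := by
    linear_combination -h1
  exact mul_left_cancel₀ hc h3

/-- Reality. -/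
theorem f_conj {e κ : ℝ} (hκ : 0 < κ) {ζ : ℂ} (h0 : 0 < ζ.re) :
    f e κ (conj ζ) = conj (f e κ ζ) := by
  unfold f fT
  rw [conj_tsum]
  apply tsum_congr
  intro k
  have e1 : tanh (κ * conj ζ) = conj (tanh (κ * ζ)) := by
    rw [← tanh_conj, map_mul, conj_ofReal]
  have h2 := re_base_pos hκ (re_tanh_pos hκ h0).le k
  have h3 : arg ((Real.cosh (κ * k) : ℂ) + tanh (κ * ζ) * (Real.sinh (κ * k) : ℂ)) ≠ Real.pi := by
    intro h
    have := abs_arg_lt_pi_div_two_iff.2 (Or.inl h2)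
    rw [h, abs_of_pos Real.pi_pos] at this
    linarith [Real.pi_pos]
  have h4 := conj_cpow _ (-(e : ℂ)) h3
  rw [map_neg, conj_ofReal, map_add, map_mul, conj_ofReal, conj_ofReal] at h4
  rw [e1, h4, map_mul, map_pow, map_neg, map_one]

theorem f_real {e κ : ℝ} (hκ : 0 < κ) {ζ : ℝ} (h0 : 0 < ζ) : (f e κ ζ).im = 0 := by
  rw [← conj_eq_iff_im, ← f_conj hκ (by simpa using h0), conj_ofReal]

end Pool.Agent.helper31.EQ.Y
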